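import Pool.Agent.KS6_1.SI.Defs
import Pool.Graph.R_seed8.H382P.RhoP
import Pool.Graph.R_seed8.H382R2.Rect
import Pool.Graph.R_seed8.H382R2.Deep0

open Complex Filter Topology Set MeasureTheory

namespace Pool.Agent.KS6_1.SI

open SP

variable [Nu]

open SG (phi hh nn dl)

namespace DeepAux

open SG.Deep (gauss_integrable gauss_integral tendsto_pow_exp phi_analytic pow_decay)
open Deep (dd_pos one_le_dd)

lemma D2 (κ T : ℝ) (hT : 0 < T) : dd κ T ^ 2 * T ^ (2 * (κ - Nu.ν)) = T ^ 2 := by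
  unfold dd
  rw [← Real.rpow_natCast, ← Real.rpow_natCast, ← Real.rpow_mul hT.le, ← Real.rpow_add hT]
  congr 1
  push_cast
  ring

omit [Nu] in
lemma tendsto_pow_exp' (A b κ : ℝ) (hb : 0 < b) (hκ : 0 < κ) :
    Tendsto (fun T : ℝ => T ^ A * Real.exp (-b * T ^ κ)) atTop (𝓝 0) := by
  have h := tendsto_pow_exp A b (2 * κ) hb (by linarith)
  have e : 2 * κ / 2 = κ := by ring
  rwa [e] at h

/-- the difference of two vertical integrals is tiny, and vertical integrals of tiny functions are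
tiny -/
lemma deep_gen (c a κ : ℝ) (hc : 0 < c) (hc1 : c < 1) (ha : 0 < a) (hκ : Nu.ν < κ)
    (hκ1 : κ < 1) :
    ∃ T0 : ℝ, 10 ≤ T0 ∧ ∀ T : ℝ, T0 ≤ T → 12 ≤ dd κ T ∧ dd κ T ≤ T / 8 ∧ 1 ≤ nn κ T ∧
    64 ≤ T ∧ a / Real.log T ≤ 1 ∧ T + 2 * Real.log T ≤ 2 * T - 2 * Real.log T ∧ |dl c T| ≤ 1 ∧
    ∀ t0 : ℝ, 11 / 10 * T ≤ t0 → t0 ≤ 19 / 10 * T →
    (∀ p q : ℝ, 6 - dd κ T ≤ p → p < q → q ≤ 6 + dd κ T → ∀ F : ℂ → ℂ,
      (∀ s : ℂ, p ≤ s.re → s.re ≤ q → 1 ≤ s.im → AnalyticAt ℂ F s ∧ ‖F s‖ ≤ T ^ (21 : ℝ)) →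
      ‖(∫ t in (T + 2 * Real.log T)..(2 * T - 2 * Real.log T),
        phi t0 (dd κ T) (⟨p - a / Real.log T, t⟩ : ℂ) * rho c T (⟨p, t⟩ : ℂ) * F (⟨p, t⟩ : ℂ)) -
       ∫ t in (T + 2 * Real.log T)..(2 * T - 2 * Real.log T),
        phi t0 (dd κ T) (⟨q - a / Real.log T, t⟩ : ℂ) * rho c T (⟨q, t⟩ : ℂ) * F (⟨q, t⟩ : ℂ)‖
        ≤ 1 / 2) ∧
    (∀ x : ℝ, 6 - dd κ T ≤ x → x ≤ 6 + dd κ T → ∀ F : ℂ → ℂ,
      (∀ y : ℝ, 1 ≤ y → ‖F (⟨x, y⟩ : ℂ)‖ ≤ T ^ (21 : ℝ) * Real.exp (-(1 / 4) * T ^ Nu.ν)) →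
      ‖∫ t in (T + 2 * Real.log T)..(2 * T - 2 * Real.log T),
        phi t0 (dd κ T) (⟨x - a / Real.log T, t⟩ : ℂ) * rho c T (⟨x, t⟩ : ℂ) * F (⟨x, t⟩ : ℂ)‖
        ≤ 1 / 2) := by
  obtain ⟨C, Ta, hC, hTa, hrr⟩ := rho_bound c hc hc1
  have ev1 : ∀ᶠ T : ℝ in atTop, T ^ (22 : ℝ) * Real.exp (-(1 / 800) * T ^ (2 * (κ - Nu.ν))) <
      1 / (4 * C * Real.exp 2) :=
    (tendsto_pow_exp' 22 (1 / 800) (2 * (κ - Nu.ν)) (by norm_num) (by linarith)).eventually_lt_const (by positivity)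
  have ev2 : ∀ᶠ T : ℝ in atTop, T ^ (22 : ℝ) * Real.exp (-(1 / 4) * T ^ Nu.ν) <
      1 / (2 * C * Real.exp 2) :=
    (tendsto_pow_exp' 22 (1 / 4) Nu.ν (by norm_num) Nu.pos).eventually_lt_const (by positivity)
  have ev3 : ∀ᶠ T : ℝ in atTop, 12 < dd κ T := by
    have : Tendsto (fun T : ℝ => dd κ T) atTop atTop :=
      tendsto_rpow_atTop (show 0 < 1 - κ + Nu.ν by linarith [Nu.pos])
    exact this.eventually_gt_atTop 12
  have ev4 : ∀ᶠ T : ℝ in atTop, 8 ≤ T ^ (κ - Nu.ν) :=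
    (tendsto_rpow_atTop (show 0 < κ - Nu.ν by linarith)).eventually_ge_atTop 8
  have ev5 : ∀ᶠ T : ℝ in atTop, max (2 * Real.pi * c) a ≤ Real.log T :=
    Real.tendsto_log_atTop.eventually_ge_atTop _
  have ev6 : ∀ᶠ T : ℝ in atTop, Real.log T ≤ T / 40 := by
    have h := Real.isLittleO_log_id_atTop
    rw [Asymptotics.isLittleO_iff] at h
    filter_upwards [h (show (0 : ℝ) < 1 / 40 by norm_num), eventually_ge_atTop 1] with T hT h1
    simp only [id] at hT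
    rw [Real.norm_of_nonneg (Real.log_nonneg h1), Real.norm_of_nonneg (by linarith)] at hT
    linarith
  have ev := (ev1.and (ev2.and (ev3.and (ev4.and (ev5.and (ev6.and
    ((eventually_ge_atTop Ta).and (eventually_ge_atTop 100))))))))
  obtain ⟨T0, hT0⟩ := eventually_atTop.mp ev
  refine ⟨max T0 10, le_max_right _ _, ?_⟩
  intro T hT
  obtain ⟨h1, h2, h3, h4, h5, h6, h7, h8⟩ := hT0 T ((le_max_left _ _).trans hT)
  have hTpos : 0 < T := by linarith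
  have hlog : 0 < Real.log T := Real.log_pos (by linarith)
  have hdl0 : 0 < dl c T := by
    unfold dl
    positivity
  have hdl : |dl c T| ≤ 1 := by
    rw [abs_of_pos hdl0]
    unfold dl
    rw [div_le_one hlog]
    exact (le_max_left _ _).trans h5
  have haL1 : a / Real.log T ≤ 1 := by
    rw [div_le_one hlog]
    exact (le_max_right _ _).trans h5
  have haL0 : 0 < a / Real.log T := by positivity
  have hDpos : 0 < dd κ T := dd_pos κ T hTpos
  have hD8 : dd κ T ≤ T / 8 := by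
    have e : dd κ T * T ^ (κ - Nu.ν) = T := by
      unfold dd
      rw [← Real.rpow_add hTpos]
      have : 1 - κ + Nu.ν + (κ - Nu.ν) = 1 := by ring
      rw [this, Real.rpow_one]
    rw [le_div_iff₀ (by norm_num)]
    calc dd κ T * 8 ≤ dd κ T * T ^ (κ - Nu.ν) := mul_le_mul_of_nonneg_left h4 hDpos.le
      _ = T := e
  have hN1 : 1 ≤ nn κ T := by
    unfold nn
    rw [Nat.one_le_floor_iff]
    exact Real.one_le_rpow (by linarith) (by linarith)
  refine ⟨h3.le, hD8, hN1, by linarith, haL1, by linarith, hdl, ?_⟩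
  intro t0 ht1 ht2
  set U1 := T + 2 * Real.log T with hU1
  set U2 := 2 * T - 2 * Real.log T with hU2
  have hDK := D2 κ T hTpos
  -- exponent bound for phi
  have hre2 : ∀ x : ℝ, 6 - dd κ T ≤ x → x ≤ 6 + dd κ T →
      (x - a / Real.log T - 1 / 2) ^ 2 ≤ 4 * dd κ T ^ 2 := by
    intro x hx1 hx2
    have : |x - a / Real.log T - 1 / 2| ≤ 2 * dd κ T := by
      rw [abs_le]
      constructor <;> linarith
    calc (x - a / Real.log T - 1 / 2) ^ 2 = |x - a / Real.log T - 1 / 2| ^ 2 := (sq_abs _).symm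
      _ ≤ (2 * dd κ T) ^ 2 := pow_le_pow_left₀ (abs_nonneg _) this 2
      _ = _ := by ring
  have hphi1 : ∀ x : ℝ, 6 - dd κ T ≤ x → x ≤ 6 + dd κ T → ∀ y : ℝ,
      ‖phi t0 (dd κ T) (⟨x - a / Real.log T, y⟩ : ℂ)‖ ≤ Real.exp 2 := by
    intro x hx1 hx2 y
    rw [SG.phi_norm _ _ hDpos]
    apply Real.exp_le_exp.mpr
    simp only
    rw [div_le_iff₀ (by positivity)]
    nlinarith [hre2 x hx1 hx2, sq_nonneg (y - t0)]
  have hphi2 : ∀ x : ℝ, 6 - dd κ T ≤ x → x ≤ 6 + dd κ T → ∀ U : ℝ, (U = U1 ∨ U = U2) →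
      ‖phi t0 (dd κ T) (⟨x - a / Real.log T, U⟩ : ℂ)‖ ≤
        Real.exp 2 * Real.exp (-(1 / 800) * T ^ (2 * (κ - Nu.ν))) := by
    intro x hx1 hx2 U hU
    rw [SG.phi_norm _ _ hDpos, ← Real.exp_add]
    apply Real.exp_le_exp.mpr
    simp only
    rw [div_le_iff₀ (by positivity)]
    have hUt : (T / 20) ^ 2 ≤ (U - t0) ^ 2 := by
      rcases hU with h | h
      · have : T / 20 ≤ t0 - U := by rw [h, hU1]; linarith
        nlinarith
      · have : T / 20 ≤ U - t0 := by rw [h, hU2]; linarith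
        nlinarith
    have := hre2 x hx1 hx2
    have e : (2 + -(1 / 800) * T ^ (2 * (κ - Nu.ν))) * (2 * dd κ T ^ 2) = 4 * dd κ T ^ 2 - (T / 20) ^ 2 := by
      have : (T / 20) ^ 2 = T ^ 2 / 400 := by ring
      rw [this, ← hDK]
      ring
    rw [e]
    linarith
  have hrb : ∀ x : ℝ, 6 - dd κ T ≤ x → x ≤ 6 + dd κ T → ∀ y : ℝ, T ≤ y → y ≤ 2 * T →
      ‖rho c T (⟨x, y⟩ : ℂ)‖ ≤ C := by
    intro x hx1 hx2 y hy1 hy2
    refine (hrr T h7 (⟨x, y⟩ : ℂ) hy1 hy2 ?_).2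
    simp only
    rw [abs_le]
    constructor <;> linarith
  have hp21 : (0 : ℝ) < T ^ (21 : ℝ) := Real.rpow_pos_of_pos hTpos _
  have e22 : T ^ (22 : ℝ) = T ^ (21 : ℝ) * T := by
    rw [show (22 : ℝ) = 21 + 1 by norm_num, Real.rpow_add hTpos, Real.rpow_one]
  constructor
  · intro p q hp hpq hq F hF
    set H : ℂ → ℂ := fun s => phi t0 (dd κ T) (s - (a / Real.log T : ℝ)) * rho c T s * F s with hH
    have hHe : ∀ x y : ℝ, H (⟨x, y⟩ : ℂ) = phi t0 (dd κ T) (⟨x - a / Real.log T, y⟩ : ℂ) *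
        rho c T (⟨x, y⟩ : ℂ) * F (⟨x, y⟩ : ℂ) := by
      intro x y
      simp only [hH]
      congr 3
      apply Complex.ext <;> simp
    have hrect := SG.rect_zero H p q U1 U2 hpq (by linarith) (by
      intro s hs
      rw [mem_reProdIm] at hs
      obtain ⟨⟨hs1, hs2⟩, hs3, hs4⟩ := hs
      have a1 : AnalyticAt ℂ (fun s : ℂ => s - ((a / Real.log T : ℝ) : ℂ)) s := by fun_prop
      have a2 : AnalyticAt ℂ (fun s : ℂ => phi t0 (dd κ T) (s - ((a / Real.log T : ℝ) : ℂ))) s :=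
        AnalyticAt.fun_comp (phi_analytic _ _ _) a1
      refine (a2.mul ?_).mul (hF s hs1 hs2 (by linarith)).1
      refine (hrr T h7 s (by linarith) (by linarith) ?_).1
      rw [abs_le]
      constructor <;> linarith)
    have hhor : ∀ U : ℝ, (U = U1 ∨ U = U2) → ‖∫ x in p..q, H (⟨x, U⟩ : ℂ)‖ ≤ 1 / 4 := by
      intro U hU
      have hUa : T ≤ U := by rcases hU with h | h <;> rw [h] <;> linarith
      have hUb : U ≤ 2 * T := by rcases hU with h | h <;> rw [h] <;> linarith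
      have hb : ∀ x ∈ Set.uIoc p q, ‖H (⟨x, U⟩ : ℂ)‖ ≤
          (Real.exp 2 * Real.exp (-(1 / 800) * T ^ (2 * (κ - Nu.ν)))) * C * T ^ (21 : ℝ) := by
        intro x hx
        rw [uIoc_of_le hpq.le] at hx
        obtain ⟨hx1, hx2⟩ := hx
        rw [hHe, norm_mul, norm_mul]
        have b1 := hphi2 x (by linarith) (by linarith) U hU
        have b2 := hrb x (by linarith) (by linarith) U hUa hUb
        have b3 := (hF (⟨x, U⟩ : ℂ) hx1.le hx2 (by simp only; linarith)).2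
        apply mul_le_mul _ b3 (norm_nonneg _) (by positivity)
        exact mul_le_mul b1 b2 (norm_nonneg _) (by positivity)
      refine (intervalIntegral.norm_integral_le_of_norm_le_const hb).trans ?_
      have hlen : |q - p| ≤ T := by
        rw [abs_of_nonneg (by linarith)]
        linarith
      calc (Real.exp 2 * Real.exp (-(1 / 800) * T ^ (2 * (κ - Nu.ν)))) * C * T ^ (21 : ℝ) * |q - p|
          ≤ (Real.exp 2 * Real.exp (-(1 / 800) * T ^ (2 * (κ - Nu.ν)))) * C * T ^ (21 : ℝ) * T :=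
            mul_le_mul_of_nonneg_left hlen (by positivity)
        _ = C * Real.exp 2 * (T ^ (22 : ℝ) * Real.exp (-(1 / 800) * T ^ (2 * (κ - Nu.ν)))) := by
            rw [e22]; ring
        _ ≤ C * Real.exp 2 * (1 / (4 * C * Real.exp 2)) :=
            mul_le_mul_of_nonneg_left h1.le (by positivity)
        _ = 1 / 4 := by field_simp
    have hb1 := hhor U1 (Or.inl rfl)
    have hb2 := hhor U2 (Or.inr rfl)
    unfold SG.rectI at hrect
    simp_rw [← hHe]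
    have hdiff : I * ((∫ t in U1..U2, H (⟨p, t⟩ : ℂ)) - ∫ t in U1..U2, H (⟨q, t⟩ : ℂ)) =
        (∫ x in p..q, H (⟨x, U1⟩ : ℂ)) - (∫ x in p..q, H (⟨x, U2⟩ : ℂ)) := by
      linear_combination -hrect
    have hn : ‖I * ((∫ t in U1..U2, H (⟨p, t⟩ : ℂ)) - ∫ t in U1..U2, H (⟨q, t⟩ : ℂ))‖ =
        ‖(∫ t in U1..U2, H (⟨p, t⟩ : ℂ)) - ∫ t in U1..U2, H (⟨q, t⟩ : ℂ)‖ := by
      rw [norm_mul, norm_I, one_mul]
    rw [← hn, hdiff]
    have := norm_sub_le (∫ x in p..q, H (⟨x, U1⟩ : ℂ)) (∫ x in p..q, H (⟨x, U2⟩ : ℂ))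
    linarith
  · intro x hx1 hx2 F hF
    have hb : ∀ y ∈ Set.uIoc U1 U2,
        ‖phi t0 (dd κ T) (⟨x - a / Real.log T, y⟩ : ℂ) * rho c T (⟨x, y⟩ : ℂ) * F (⟨x, y⟩ : ℂ)‖ ≤
        Real.exp 2 * C * (T ^ (21 : ℝ) * Real.exp (-(1 / 4) * T ^ Nu.ν)) := by
      intro y hy
      rw [uIoc_of_le (by linarith)] at hy
      obtain ⟨hy1, hy2⟩ := hy
      rw [norm_mul, norm_mul]
      have b1 := hphi1 x hx1 hx2 y
      have b2 := hrb x hx1 hx2 y (by linarith) (by linarith)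
      have b3 := hF y (by linarith)
      apply mul_le_mul _ b3 (norm_nonneg _) (by positivity)
      exact mul_le_mul b1 b2 (norm_nonneg _) (by positivity)
    refine (intervalIntegral.norm_integral_le_of_norm_le_const hb).trans ?_
    have hlen : |U2 - U1| ≤ T := by
      rw [abs_of_nonneg (by linarith)]
      linarith
    calc Real.exp 2 * C * (T ^ (21 : ℝ) * Real.exp (-(1 / 4) * T ^ Nu.ν)) * |U2 - U1|
        ≤ Real.exp 2 * C * (T ^ (21 : ℝ) * Real.exp (-(1 / 4) * T ^ Nu.ν)) * T :=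
          mul_le_mul_of_nonneg_left hlen (by positivity)
      _ = Real.exp 2 * C * (T ^ (22 : ℝ) * Real.exp (-(1 / 4) * T ^ Nu.ν)) := by
          rw [e22]
          ring
      _ ≤ Real.exp 2 * C * (1 / (2 * C * Real.exp 2)) :=
          mul_le_mul_of_nonneg_left h2.le (by positivity)
      _ = 1 / 2 := by field_simp

/-- decay of `(N/(N+1))^x` -/
lemma far (κ : ℝ) (hκ1 : κ < 1) (T : ℝ) (hT : 64 ≤ T) (hD : 12 ≤ dd κ T) :
    ((nn κ T : ℝ) / ((nn κ T : ℝ) + 1)) ^ (dd κ T - 6) ≤ Real.exp (-(1 / 4) * T ^ Nu.ν) := by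
  have hTpos : 0 < T := by linarith
  refine (pow_decay _ _ (by linarith)).trans ?_
  apply Real.exp_le_exp.mpr
  have hNle : (nn κ T : ℝ) ≤ T ^ (1 - κ) := Nat.floor_le (Real.rpow_nonneg hTpos.le _)
  have hone : 1 ≤ T ^ (1 - κ) := Real.one_le_rpow (by linarith) (by linarith)
  have e : dd κ T = T ^ Nu.ν * T ^ (1 - κ) := by
    unfold dd
    rw [← Real.rpow_add hTpos]
    congr 1
    ring
  have hq : 0 < T ^ Nu.ν := Real.rpow_pos_of_pos hTpos _
  have : 1 / 4 * T ^ Nu.ν ≤ (dd κ T - 6) / ((nn κ T : ℝ) + 1) := by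
    rw [le_div_iff₀ (by positivity)]
    have h1 : dd κ T / 2 ≤ dd κ T - 6 := by linarith
    refine le_trans ?_ h1
    rw [e]
    nlinarith
  linarith

end DeepAux

open DeepAux Deep SG.Deep

theorem deepR (c a κ : ℝ) (hc : 0 < c) (hc1 : c < 1) (ha : 0 < a) (hκ : Nu.ν < κ) (hκ1 : κ < 1) :
    ∃ T0 : ℝ, 10 ≤ T0 ∧ ∀ T : ℝ, T0 ≤ T → ∀ t0 : ℝ, 11 / 10 * T ≤ t0 → t0 ≤ 19 / 10 * T →
    ∀ F : ℂ → ℂ, (∀ s : ℂ, 6 ≤ s.re → 1 ≤ s.im → AnalyticAt ℂ F s) →
    (∀ s : ℂ, 6 ≤ s.re → 1 ≤ s.im →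
      ‖F s‖ ≤ T ^ (20 : ℝ) * ((nn κ T : ℝ) / ((nn κ T : ℝ) + 1)) ^ s.re) →
    ‖∫ t in (T + 2 * Real.log T)..(2 * T - 2 * Real.log T),
      phi t0 (dd κ T) (⟨6 - a / Real.log T, t⟩ : ℂ) * rho c T (⟨6, t⟩ : ℂ) *
      F (⟨6, t⟩ : ℂ)‖ ≤ 1 := by
  obtain ⟨T0, hT0, h⟩ := deep_gen c a κ hc hc1 ha hκ hκ1
  refine ⟨T0, hT0, fun T hT t0 ht1 ht2 F hF1 hF2 => ?_⟩
  obtain ⟨k1, k2, k3, k4, k5, k6, k8, k7⟩ := h T hT
  obtain ⟨m1, m2⟩ := k7 t0 ht1 ht2
  have hTpos : 0 < T := by linarith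
  have hN0 : (0 : ℝ) ≤ (nn κ T : ℝ) / ((nn κ T : ℝ) + 1) := by positivity
  have hN1 : (nn κ T : ℝ) / ((nn κ T : ℝ) + 1) ≤ 1 := by
    rw [div_le_one (by positivity)]
    linarith
  have hp : (0 : ℝ) < T ^ (20 : ℝ) := Real.rpow_pos_of_pos hTpos _
  have h2021 : T ^ (20 : ℝ) ≤ T ^ (21 : ℝ) :=
    Real.rpow_le_rpow_of_exponent_le (by linarith) (by norm_num)
  have d1 := m1 6 (6 + dd κ T) (by linarith) (by linarith) le_rfl F (by
    intro s hs1 hs2 hs3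
    refine ⟨hF1 s hs1 hs3, (hF2 s hs1 hs3).trans ?_⟩
    have : ((nn κ T : ℝ) / ((nn κ T : ℝ) + 1)) ^ s.re ≤ 1 :=
      Real.rpow_le_one hN0 hN1 (by linarith)
    calc T ^ (20 : ℝ) * ((nn κ T : ℝ) / ((nn κ T : ℝ) + 1)) ^ s.re ≤ T ^ (20 : ℝ) * 1 :=
          mul_le_mul_of_nonneg_left this hp.le
      _ = T ^ (20 : ℝ) := mul_one _
      _ ≤ _ := h2021)
  have d2 := m2 (6 + dd κ T) (by linarith) le_rfl F (by
    intro y hy
    refine (hF2 _ (by simp only; linarith) (by simp only; linarith)).trans ?_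
    refine mul_le_mul h2021 ?_ (Real.rpow_nonneg hN0 _) (Real.rpow_nonneg hTpos.le _)
    refine le_trans ?_ (far κ hκ1 T k4 k1)
    simp only
    have hNpos : (0 : ℝ) < (nn κ T : ℝ) := by exact_mod_cast (by omega : 0 < nn κ T)
    exact Real.rpow_le_rpow_of_exponent_ge (by positivity) hN1 (by linarith))
  have := norm_sub_norm_le (∫ t in (T + 2 * Real.log T)..(2 * T - 2 * Real.log T),
      phi t0 (dd κ T) (⟨6 - a / Real.log T, t⟩ : ℂ) * rho c T (⟨6, t⟩ : ℂ) *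
      F (⟨6, t⟩ : ℂ)) (∫ t in (T + 2 * Real.log T)..(2 * T - 2 * Real.log T),
      phi t0 (dd κ T) (⟨6 + dd κ T - a / Real.log T, t⟩ : ℂ) * rho c T (⟨6 + dd κ T, t⟩ : ℂ) *
      F (⟨6 + dd κ T, t⟩ : ℂ))
  linarith

theorem deepL (c a κ : ℝ) (hc : 0 < c) (hc1 : c < 1) (ha : 0 < a) (hκ : Nu.ν < κ) (hκ1 : κ < 1) :
    ∃ T0 : ℝ, 10 ≤ T0 ∧ ∀ T : ℝ, T0 ≤ T → ∀ t0 : ℝ, 11 / 10 * T ≤ t0 → t0 ≤ 19 / 10 * T →
    ∀ F : ℂ → ℂ, (∀ s : ℂ, s.re ≤ 6 → 1 ≤ s.im → AnalyticAt ℂ F s) →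
    (∀ s : ℂ, s.re ≤ 6 → 1 ≤ s.im →
      ‖F s‖ ≤ T ^ (20 : ℝ) * (((nn κ T : ℝ) + 1) / (nn κ T : ℝ)) ^ s.re) →
    ‖∫ t in (T + 2 * Real.log T)..(2 * T - 2 * Real.log T),
      phi t0 (dd κ T) (⟨6 - a / Real.log T, t⟩ : ℂ) * rho c T (⟨6, t⟩ : ℂ) *
      F (⟨6, t⟩ : ℂ)‖ ≤ 1 := by
  obtain ⟨T0, hT0, h⟩ := deep_gen c a κ hc hc1 ha hκ hκ1
  refine ⟨T0, hT0, fun T hT t0 ht1 ht2 F hF1 hF2 => ?_⟩
  obtain ⟨k1, k2, k3, k4, k5, k6, k8, k7⟩ := h T hT
  obtain ⟨m1, m2⟩ := k7 t0 ht1 ht2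
  have hTpos : 0 < T := by linarith
  have hNpos : (0 : ℝ) < (nn κ T : ℝ) := by exact_mod_cast (by omega : 0 < nn κ T)
  have hNone : (1 : ℝ) ≤ (nn κ T : ℝ) := by exact_mod_cast k3
  have hM1 : 1 ≤ ((nn κ T : ℝ) + 1) / (nn κ T : ℝ) := by
    rw [le_div_iff₀ hNpos]
    linarith
  have hM2 : ((nn κ T : ℝ) + 1) / (nn κ T : ℝ) ≤ 2 := by
    rw [div_le_iff₀ hNpos]
    linarith
  have hp : (0 : ℝ) < T ^ (20 : ℝ) := Real.rpow_pos_of_pos hTpos _
  have e21 : T ^ (21 : ℝ) = T ^ (20 : ℝ) * T := by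
    rw [show (21 : ℝ) = 20 + 1 by norm_num, Real.rpow_add hTpos, Real.rpow_one]
  have d1 := m1 (6 - dd κ T) 6 le_rfl (by linarith) (by linarith) F (by
    intro s hs1 hs2 hs3
    refine ⟨hF1 s hs2 hs3, (hF2 s hs2 hs3).trans ?_⟩
    rw [e21]
    apply mul_le_mul_of_nonneg_left _ hp.le
    calc (((nn κ T : ℝ) + 1) / (nn κ T : ℝ)) ^ s.re ≤ (((nn κ T : ℝ) + 1) / (nn κ T : ℝ)) ^ (6 : ℝ) :=
          Real.rpow_le_rpow_of_exponent_le hM1 hs2
      _ ≤ 2 ^ (6 : ℝ) := Real.rpow_le_rpow (by linarith) hM2 (by norm_num)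
      _ = 64 := by norm_num
      _ ≤ T := k4)
  have d2 := m2 (6 - dd κ T) le_rfl (by linarith) F (by
    intro y hy
    refine (hF2 _ (by simp only; linarith) (by simp only; linarith)).trans ?_
    have h2021 : T ^ (20 : ℝ) ≤ T ^ (21 : ℝ) :=
      Real.rpow_le_rpow_of_exponent_le (by linarith) (by norm_num)
    refine mul_le_mul h2021 ?_ (Real.rpow_nonneg (by linarith) _) (Real.rpow_nonneg hTpos.le _)
    refine le_trans (le_of_eq ?_) (far κ hκ1 T k4 k1)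
    simp only
    rw [show (6 - dd κ T) = -(dd κ T - 6) by ring, Real.rpow_neg (by linarith),
      ← Real.inv_rpow (by linarith), inv_div])
  have := norm_sub_norm_le (∫ t in (T + 2 * Real.log T)..(2 * T - 2 * Real.log T),
      phi t0 (dd κ T) (⟨6 - a / Real.log T, t⟩ : ℂ) * rho c T (⟨6, t⟩ : ℂ) *
      F (⟨6, t⟩ : ℂ)) (∫ t in (T + 2 * Real.log T)..(2 * T - 2 * Real.log T),
      phi t0 (dd κ T) (⟨6 - dd κ T - a / Real.log T, t⟩ : ℂ) * rho c T (⟨6 - dd κ T, t⟩ : ℂ) *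
      F (⟨6 - dd κ T, t⟩ : ℂ))
  rw [norm_sub_rev] at this
  linarith

theorem main_int (c a κ : ℝ) (hc : 0 < c) (hc1 : c < 1) (ha : 0 < a) (hκ : Nu.ν < κ)
    (hκ1 : κ < 1) :
    ∃ C T0 : ℝ, 0 < C ∧ 10 ≤ T0 ∧ ∀ T : ℝ, T0 ≤ T → ∀ t0 : ℝ, 11 / 10 * T ≤ t0 →
    t0 ≤ 19 / 10 * T →
    ‖(∫ t in (T + 2 * Real.log T)..(2 * T - 2 * Real.log T),
      phi t0 (dd κ T) (⟨6 - a / Real.log T, t⟩ : ℂ) * rho c T (⟨6, t⟩ : ℂ)) -
      (Real.sqrt (2 * Real.pi) * dd κ T : ℝ) * cexp (-(Real.pi * c : ℝ) * I)‖ ≤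
      C * dd κ T / Real.log T := by
  obtain ⟨Ta, hTa, h⟩ := deep_gen c a κ hc hc1 ha hκ hκ1
  obtain ⟨C, Tb, hC, hTb, hph⟩ := rho_phase c a hc hc1 ha
  -- tails
  have ev1 : ∀ᶠ T : ℝ in atTop, T * Real.exp (-(1 / 1600) * T ^ (2 * (κ - Nu.ν))) < 1 := by
    have := (tendsto_pow_exp' 1 (1 / 1600) (2 * (κ - Nu.ν)) (by norm_num) (by linarith)).eventually_lt_const
      (show (0 : ℝ) < 1 by norm_num)
    simpa only [Real.rpow_one] using this
  have ev6 : ∀ᶠ T : ℝ in atTop, Real.log T ≤ T / 40 := by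
    have h := Real.isLittleO_log_id_atTop
    rw [Asymptotics.isLittleO_iff] at h
    filter_upwards [h (show (0 : ℝ) < 1 / 40 by norm_num), eventually_ge_atTop 1] with T hT h1
    simp only [id] at hT
    rw [Real.norm_of_nonneg (Real.log_nonneg h1), Real.norm_of_nonneg (by linarith)] at hT
    linarith
  have ev7 : ∀ᶠ T : ℝ in atTop, Real.log T ≤ dd κ T := by
    have h := isLittleO_log_rpow_atTop (show 0 < 1 - κ + Nu.ν by linarith [Nu.pos])
    rw [Asymptotics.isLittleO_iff] at h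
    filter_upwards [h (show (0 : ℝ) < 1 by norm_num), eventually_ge_atTop 1] with T hT h1
    rw [Real.norm_of_nonneg (Real.log_nonneg h1),
      Real.norm_of_nonneg (Real.rpow_nonneg (by linarith) _), one_mul] at hT
    exact hT
  obtain ⟨Tc, hTc⟩ := eventually_atTop.mp (ev1.and (ev6.and ((eventually_ge_atTop Tb).and ev7)))
  refine ⟨3 * C + 10, max Ta Tc, by linarith, hTa.trans (le_max_left _ _), ?_⟩
  intro T hT t0 ht1 ht2
  obtain ⟨k1, k2, k3, k4, k5, k6, k8, k7⟩ := h T ((le_max_left _ _).trans hT)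
  obtain ⟨m1, -⟩ := k7 t0 ht1 ht2
  obtain ⟨g1, g2, g3, g4⟩ := hTc T ((le_max_right _ _).trans hT)
  have hTpos : 0 < T := by linarith
  have hlog : 0 < Real.log T := Real.log_pos (by linarith)
  have haL0 : 0 < a / Real.log T := by positivity
  have hD : 0 < dd κ T := by linarith
  set U1 := T + 2 * Real.log T with hU1
  set U2 := 2 * T - 2 * Real.log T with hU2
  set D := dd κ T with hDdef
  have hDK := D2 κ T hTpos
  rw [← hDdef] at hDK
  have d1 := m1 (1 / 2 + a / Real.log T) 6 (by linarith) (by linarith) (by linarith)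
    (fun _ => 1) (by
      intro s _ _ _
      refine ⟨analyticAt_const, ?_⟩
      rw [norm_one]
      exact Real.one_le_rpow (by linarith) (by norm_num))
  simp only [mul_one] at d1
  have ephi : ∀ t : ℝ, phi t0 D (⟨1 / 2 + a / Real.log T - a / Real.log T, t⟩ : ℂ) =
      (Real.exp (-(t - t0) ^ 2 / (2 * D ^ 2)) : ℂ) := by
    intro t
    unfold phi
    rw [Complex.ofReal_exp]
    congr 1
    have : (⟨1 / 2 + a / Real.log T - a / Real.log T, t⟩ : ℂ) - 1 / 2 - I * t0 =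
        I * ((t - t0 : ℝ) : ℂ) := by
      apply Complex.ext
      · simp
      · simp
    rw [this]
    push_cast
    rw [mul_pow, I_sq]
    ring
  simp_rw [ephi] at d1
  have hgi := gauss_integrable D t0 hD
  have hgI := gauss_integral D t0 hD
  have hU12 : U1 ≤ U2 := k6
  -- rho replaced by the phase
  have hcont : Continuous (fun t : ℝ => Real.exp (-(t - t0) ^ 2 / (2 * D ^ 2))) := by fun_prop
  have hrc : ContinuousOn (fun t : ℝ => rho c T (⟨1 / 2 + a / Real.log T, t⟩ : ℂ)) (Icc U1 U2) := by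
    intro t ht
    have h1 := (rho_analytic c T (by linarith) k8 (⟨1 / 2 + a / Real.log T, t⟩ : ℂ)
      (by simp only; linarith [ht.1])).continuousAt
    have h2 : ContinuousAt (fun t : ℝ => (⟨1 / 2 + a / Real.log T, t⟩ : ℂ)) t := by
      have e : (fun t : ℝ => (⟨1 / 2 + a / Real.log T, t⟩ : ℂ)) =
          fun t : ℝ => ((1 / 2 + a / Real.log T : ℝ) : ℂ) + I * (t : ℂ) := by
        funext t
        apply Complex.ext <;> simp
      rw [e]
      fun_prop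
    exact (ContinuousAt.comp (f := fun t : ℝ => (⟨1 / 2 + a / Real.log T, t⟩ : ℂ))
      h1 h2).continuousWithinAt
  have hcontC : Continuous (fun t : ℝ => (Real.exp (-(t - t0) ^ 2 / (2 * D ^ 2)) : ℂ)) := by
    fun_prop
  have hi1 : IntervalIntegrable (fun t : ℝ => (Real.exp (-(t - t0) ^ 2 / (2 * D ^ 2)) : ℂ) *
      rho c T (⟨1 / 2 + a / Real.log T, t⟩ : ℂ)) volume U1 U2 := by
    apply ContinuousOn.intervalIntegrable
    rw [uIcc_of_le hU12]
    exact hcontC.continuousOn.mul hrc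
  have hi2 : IntervalIntegrable (fun t : ℝ => (Real.exp (-(t - t0) ^ 2 / (2 * D ^ 2)) : ℂ) *
      cexp (-(Real.pi * c : ℝ) * I)) volume U1 U2 :=
    (hcontC.mul continuous_const).intervalIntegrable _ _
  have s1 : ‖(∫ t in U1..U2, (Real.exp (-(t - t0) ^ 2 / (2 * D ^ 2)) : ℂ) *
      rho c T (⟨1 / 2 + a / Real.log T, t⟩ : ℂ)) -
      ∫ t in U1..U2, (Real.exp (-(t - t0) ^ 2 / (2 * D ^ 2)) : ℂ) *
      cexp (-(Real.pi * c : ℝ) * I)‖ ≤ C / Real.log T * (D * Real.sqrt (2 * Real.pi)) := by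
    rw [← intervalIntegral.integral_sub hi1 hi2]
    calc ‖∫ t in U1..U2, ((Real.exp (-(t - t0) ^ 2 / (2 * D ^ 2)) : ℂ) *
          rho c T (⟨1 / 2 + a / Real.log T, t⟩ : ℂ) -
          (Real.exp (-(t - t0) ^ 2 / (2 * D ^ 2)) : ℂ) * cexp (-(Real.pi * c : ℝ) * I))‖
        ≤ ∫ t in U1..U2, C / Real.log T * Real.exp (-(t - t0) ^ 2 / (2 * D ^ 2)) := by
          apply intervalIntegral.norm_integral_le_of_norm_le hU12
          · filter_upwards with t ht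
            rw [← mul_sub, norm_mul, Complex.norm_real, Real.norm_of_nonneg (Real.exp_pos _).le,
              mul_comm]
            apply mul_le_mul_of_nonneg_right _ (Real.exp_pos _).le
            exact hph T g3 t (by linarith [ht.1]) (by linarith [ht.2])
          · exact (continuous_const.mul hcont).intervalIntegrable _ _
      _ = C / Real.log T * ∫ t in U1..U2, Real.exp (-(t - t0) ^ 2 / (2 * D ^ 2)) :=
          intervalIntegral.integral_const_mul _ _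
      _ ≤ C / Real.log T * (D * Real.sqrt (2 * Real.pi)) := by
          apply mul_le_mul_of_nonneg_left _ (by positivity)
          rw [← hgI, intervalIntegral.integral_of_le hU12]
          exact setIntegral_le_integral hgi (ae_of_all _ fun t => (Real.exp_pos _).le)
  have s2 : |(∫ t in U1..U2, Real.exp (-(t - t0) ^ 2 / (2 * D ^ 2))) -
      D * Real.sqrt (2 * Real.pi)| ≤ Real.exp (-(1 / 1600) * T ^ (2 * (κ - Nu.ν))) *
        (Real.sqrt 2 * D * Real.sqrt (2 * Real.pi)) := by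
    have hgi2 := gauss_integrable (Real.sqrt 2 * D) t0 (by positivity)
    have hgI2 := gauss_integral (Real.sqrt 2 * D) t0 (by positivity)
    have hs2 : (Real.sqrt 2 * D) ^ 2 = 2 * D ^ 2 := by
      rw [mul_pow, Real.sq_sqrt (by norm_num)]
    rw [hs2] at hgi2 hgI2
    rw [← hgI, intervalIntegral.integral_of_le hU12,
      ← integral_add_compl (measurableSet_Ioc (a := U1) (b := U2)) hgi]
    have e : (∫ x in Ioc U1 U2, Real.exp (-(x - t0) ^ 2 / (2 * D ^ 2))) -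
        ((∫ x in Ioc U1 U2, Real.exp (-(x - t0) ^ 2 / (2 * D ^ 2))) +
          ∫ x in (Ioc U1 U2)ᶜ, Real.exp (-(x - t0) ^ 2 / (2 * D ^ 2))) =
        -∫ x in (Ioc U1 U2)ᶜ, Real.exp (-(x - t0) ^ 2 / (2 * D ^ 2)) := by ring
    rw [e, abs_neg, abs_of_nonneg (integral_nonneg fun t => (Real.exp_pos _).le)]
    calc ∫ x in (Ioc U1 U2)ᶜ, Real.exp (-(x - t0) ^ 2 / (2 * D ^ 2))
        ≤ ∫ x in (Ioc U1 U2)ᶜ, Real.exp (-(1 / 1600) * T ^ (2 * (κ - Nu.ν))) *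
          Real.exp (-(x - t0) ^ 2 / (2 * (2 * D ^ 2))) := by
          apply setIntegral_mono_on hgi.integrableOn (hgi2.const_mul _).integrableOn
            measurableSet_Ioc.compl
          intro x hx
          rw [← Real.exp_add]
          apply Real.exp_le_exp.mpr
          have hx2 : (T / 20) ^ 2 ≤ (x - t0) ^ 2 := by
            rw [mem_compl_iff, mem_Ioc, not_and_or, not_lt, not_le] at hx
            rcases hx with h | h
            · have : T / 20 ≤ t0 - x := by linarith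
              nlinarith
            · have : T / 20 ≤ x - t0 := by linarith
              nlinarith
          have e1 : -(1 / 1600) * T ^ (2 * (κ - Nu.ν)) = -((T / 20) ^ 2 / (4 * D ^ 2)) := by
            have : (T / 20) ^ 2 = T ^ 2 / 400 := by ring
            rw [this, ← hDK]
            field_simp
            norm_num
          rw [e1]
          have e2 : -(x - t0) ^ 2 / (2 * D ^ 2) =
            -((x - t0) ^ 2 / (4 * D ^ 2)) + -(x - t0) ^ 2 / (2 * (2 * D ^ 2)) := by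
            field_simp
            ring
          rw [e2]
          have : (T / 20) ^ 2 / (4 * D ^ 2) ≤ (x - t0) ^ 2 / (4 * D ^ 2) :=
            div_le_div_of_nonneg_right hx2 (by positivity)
          linarith
      _ = Real.exp (-(1 / 1600) * T ^ (2 * (κ - Nu.ν))) * ∫ x in (Ioc U1 U2)ᶜ,
          Real.exp (-(x - t0) ^ 2 / (2 * (2 * D ^ 2))) := integral_const_mul _ _
      _ ≤ _ := by
          apply mul_le_mul_of_nonneg_left _ (Real.exp_pos _).le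
          rw [← hgI2]
          exact setIntegral_le_integral hgi2 (ae_of_all _ fun t => (Real.exp_pos _).le)
  have h5 : Real.sqrt (2 * Real.pi) ≤ 2.51 := by
    rw [Real.sqrt_le_left (by norm_num)]
    have := Real.pi_lt_d2
    norm_num at this ⊢
    linarith
  have h6 : 0 ≤ Real.sqrt (2 * Real.pi) := Real.sqrt_nonneg _
  have h7 : Real.sqrt 2 ≤ 1.5 := by
    rw [Real.sqrt_le_left (by norm_num)]
    norm_num
  have e1 : (∫ t in U1..U2, (Real.exp (-(t - t0) ^ 2 / (2 * D ^ 2)) : ℂ) *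
      cexp (-(Real.pi * c : ℝ) * I)) = ((∫ t in U1..U2, Real.exp (-(t - t0) ^ 2 / (2 * D ^ 2)) : ℝ) : ℂ) *
      cexp (-(Real.pi * c : ℝ) * I) := by
    rw [intervalIntegral.integral_mul_const, intervalIntegral.integral_ofReal]
  have e3 : ‖cexp (-(Real.pi * c : ℝ) * I)‖ = 1 := by
    rw [← Complex.ofReal_neg]
    exact Complex.norm_exp_ofReal_mul_I _
  have s3 : ‖((∫ t in U1..U2, Real.exp (-(t - t0) ^ 2 / (2 * D ^ 2)) : ℝ) : ℂ) *
      cexp (-(Real.pi * c : ℝ) * I) - (Real.sqrt (2 * Real.pi) * D : ℝ) *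
      cexp (-(Real.pi * c : ℝ) * I)‖ ≤ 4 * D * Real.exp (-(1 / 1600) * T ^ (2 * (κ - Nu.ν))) := by
    rw [← sub_mul, norm_mul, e3, mul_one, ← Complex.ofReal_sub, Complex.norm_real, Real.norm_eq_abs,
      mul_comm (Real.sqrt (2 * Real.pi)) D]
    refine s2.trans ?_
    rw [mul_comm]
    apply mul_le_mul_of_nonneg_right _ (Real.exp_pos _).le
    have : Real.sqrt 2 * D * Real.sqrt (2 * Real.pi) = D * (Real.sqrt 2 * Real.sqrt (2 * Real.pi)) := by
      ring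
    rw [this]
    have : Real.sqrt 2 * Real.sqrt (2 * Real.pi) ≤ 1.5 * 2.51 :=
      mul_le_mul h7 h5 h6 (by norm_num)
    nlinarith
  have s4 : Real.exp (-(1 / 1600) * T ^ (2 * (κ - Nu.ν))) ≤ 1 / Real.log T := by
    rw [le_div_iff₀ hlog]
    have : Real.log T ≤ T := by linarith
    have := mul_le_mul_of_nonneg_left this (Real.exp_pos (-(1 / 1600) * T ^ (2 * (κ - Nu.ν)))).le
    linarith
  have s5 : C / Real.log T * (D * Real.sqrt (2 * Real.pi)) ≤ 3 * C * D / Real.log T := by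
    rw [div_mul_eq_mul_div]
    apply div_le_div_of_nonneg_right _ hlog.le
    have : 0 ≤ C * D := by positivity
    nlinarith
  have s6 : 4 * D * Real.exp (-(1 / 1600) * T ^ (2 * (κ - Nu.ν))) ≤ 4 * D / Real.log T := by
    have := mul_le_mul_of_nonneg_left s4 (show 0 ≤ 4 * D by positivity)
    calc _ ≤ _ := this
      _ = _ := by ring
  have s7 : (1 / 2 : ℝ) ≤ D / Real.log T := by
    rw [le_div_iff₀ hlog]
    linarith
  have n1 := norm_sub_le_norm_sub_add_norm_sub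
    (∫ t in U1..U2, phi t0 D (⟨6 - a / Real.log T, t⟩ : ℂ) * rho c T (⟨6, t⟩ : ℂ))
    (∫ t in U1..U2, (Real.exp (-(t - t0) ^ 2 / (2 * D ^ 2)) : ℂ) *
      rho c T (⟨1 / 2 + a / Real.log T, t⟩ : ℂ))
    ((Real.sqrt (2 * Real.pi) * D : ℝ) * cexp (-(Real.pi * c : ℝ) * I))
  have n2 := norm_sub_le_norm_sub_add_norm_sub
    (∫ t in U1..U2, (Real.exp (-(t - t0) ^ 2 / (2 * D ^ 2)) : ℂ) *
      rho c T (⟨1 / 2 + a / Real.log T, t⟩ : ℂ))
    (∫ t in U1..U2, (Real.exp (-(t - t0) ^ 2 / (2 * D ^ 2)) : ℂ) *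
      cexp (-(Real.pi * c : ℝ) * I))
    ((Real.sqrt (2 * Real.pi) * D : ℝ) * cexp (-(Real.pi * c : ℝ) * I))
  rw [norm_sub_rev] at d1
  rw [e1] at n2 s1
  have : (3 * C + 10) * D / Real.log T = 3 * C * D / Real.log T + 4 * D / Real.log T +
      6 * (D / Real.log T) := by ring
  rw [this]
  linarith

end Pool.Agent.KS6_1.SI
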