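import Pool.Graph.R_seed8.H382P.Defs
import Pool.Graph.R_seed8.H382R2.GaussMV

/-!
# Small gaps between zeta zeros in short intervals: definitions

The files `Pool/Agent/KS6_1/SI` repeat the files `H382P` of the library (positive proportion of
small gaps, windows of length `T ^ (1 - κ / 2)`) for windows of length `T ^ (1 - κ + ν)` with
arbitrary `0 < ν < κ < 1`.  Everything which does not involve the window is imported from there.
-/

open Complex Filter Topology Set MeasureTheory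

namespace Pool.Agent.KS6_1.SI

open SP

open SG (phi hh nn dl)

/-- the exponent `ν` by which the window is longer than the Dirichlet polynomials -/
class Nu where
  ν : ℝ
  pos : 0 < ν

variable [Nu]

/-- width of the window -/
noncomputable def dd (κ T : ℝ) : ℝ := T ^ (1 - κ + Nu.ν)

namespace Deep

lemma dd_pos (κ T : ℝ) (hT : 0 < T) : 0 < dd κ T := Real.rpow_pos_of_pos hT _

lemma one_le_dd (κ : ℝ) (hκ1 : κ < 1) (T : ℝ) (hT : 10 ≤ T) : 1 ≤ dd κ T := by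
  unfold dd
  have := Nu.pos
  exact Real.one_le_rpow (by linarith) (by linarith)

lemma dd_le (κ : ℝ) (hκ : Nu.ν < κ) (T : ℝ) (hT : 1 ≤ T) : dd κ T ≤ T := by
  unfold dd
  calc T ^ (1 - κ + Nu.ν) ≤ T ^ (1 : ℝ) :=
        Real.rpow_le_rpow_of_exponent_le hT (by linarith)
    _ = T := Real.rpow_one T

end Deep

/-- parameters of the construction -/
structure Par where
  c : ℝ
  a : ℝ
  κ : ℝ
  m : ℝ
  B : ℕ
  b : ℕ → ℝ → ℝ
  hc : 1 / 2 < c
  hc1 : c < 1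
  ha : 0 < a
  ha1 : a ≤ 1
  hκ : 0 < κ
  hκ1 : κ < 1
  hB : 2 ≤ B
  hm : 0 < m
  hb : ∀ j, ContDiff ℝ 2 (b j)
  hb0 : ∀ j u, b j u ≠ 0 → 2 ≤ j ∧ j ≤ B ∧ ((j : ℝ) - 1) * (1 - κ) / B + m ≤ u ∧ u ≤ j * (1 - κ) / B - m
  hb1 : ∀ j u, 0 ≤ b j u ∧ u * b j u ≤ 1

omit [Nu]

/-- bin of a prime -/
noncomputable def Eb (P : Par) (T : ℝ) (p : ℕ) : ℕ :=
  ⌈(P.B : ℝ) * Real.log p / ((1 - P.κ) * Real.log T)⌉₊

/-- the primes used -/
noncomputable def PS (P : Par) (T : ℝ) : Finset ℕ :=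
  (Finset.Icc 1 (nn P.κ T)).filter (fun p => p.Prime ∧ 2 ≤ Eb P T p)

/-- the smooth weight of the prime `p` -/
noncomputable def chi (P : Par) (T : ℝ) (p : ℕ) : ℝ :=
  Real.log p / Real.log T * ((1 / Real.sqrt (2 * Real.pi)) *
    ∫ u in (0 : ℝ)..Real.log T, P.b (Eb P T p) (u / Real.log T) *
      Real.exp (-(u - Real.log p) ^ 2 / 2))

/-- the detector -/
noncomputable def Dp (P : Par) (T : ℝ) (s : ℂ) : ℂ :=
  ∑ n ∈ Finset.range (P.B + 1), qq (PS P T) (Eb P T)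
    (fun p => -(chi P T p : ℂ) * (p : ℂ) ^ (hh (dl P.c T) - s)) n

/-- local factor -/
noncomputable def gp (P : Par) (T : ℝ) (p : ℕ) : ℂ :=
  (1 / p : ℂ) * (chi P T p * (chi P T p - (1 - (p : ℂ) ^ (-(2 * hh (dl P.c T)))) *
    (p : ℂ) ^ (-((P.a / Real.log T : ℝ) : ℂ))))

/-- the diagonal sum of the detector -/
noncomputable def SS (P : Par) (T : ℝ) : ℂ :=
  ∑ n ∈ Finset.range (P.B + 1), qq (PS P T) (Eb P T) (gp P T) n

/-- limit of `tt/m` -/
noncomputable def GG (P : Par) (m : ℕ) : ℂ :=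
  ∫ u in (0 : ℝ)..1, (P.b m u : ℂ) * ((u * P.b m u : ℝ) -
    (1 - cexp (-(2 * Real.pi * P.c * u : ℝ) * I)) * (Real.exp (-P.a * u) : ℂ))

/-- coefficients of the detector -/
noncomputable def dco (P : Par) (T : ℝ) (n : ℕ) : ℂ :=
  if Squarefree n ∧ n.primeFactors ⊆ PS P T ∧ ∑ p ∈ n.primeFactors, Eb P T p ≤ P.B then
    ∏ p ∈ n.primeFactors, (-(chi P T p : ℂ) * (p : ℂ) ^ (hh (dl P.c T))) else 0

end Pool.Agent.KS6_1.SI
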