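import Pool.Agent.KS6_1.SI.Defs
import Pool.Graph.R_seed8.H382P.EFW
import Pool.Graph.R_seed8.H382P.PrimePart
import Pool.Graph.R_seed8.H370R2.Local
import Pool.Graph.R_seed8.H370R2.DirGood

open Complex Filter Topology Set MeasureTheory

namespace Pool.Agent.KS6_1.SI

open SP

open SG (phi hh nn dl)

namespace PjB

/-! ### Fourier decay of a `C²` bump supported in `(0,1)` -/

theorem ibp (f f' : ℝ → ℂ) (y : ℝ) (hf : ∀ v, HasDerivAt f (f' v) v) (hf' : Continuous f')
    (h0 : f 0 = 0) (h1 : f 1 = 0) :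
    (y : ℂ) * I * ∫ v in (0 : ℝ)..1, f v * cexp (I * ((v * y : ℝ) : ℂ)) =
      - ∫ v in (0 : ℝ)..1, f' v * cexp (I * ((v * y : ℝ) : ℂ)) := by
  have hv : ∀ v : ℝ, HasDerivAt (fun v : ℝ => cexp (I * ((v * y : ℝ) : ℂ)))
      (cexp (I * ((v * y : ℝ) : ℂ)) * ((y : ℂ) * I)) v := by
    intro v
    have h : HasDerivAt (fun v : ℝ => ((v * y : ℝ) : ℂ)) ((y : ℝ) : ℂ) v := by
      have := (hasDerivAt_mul_const y (x := v)).ofReal_comp
      simpa using this
    have h2 := (h.const_mul I).cexp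
    convert h2 using 1
    ring
  have hcf : Continuous f := continuous_iff_continuousAt.2 fun v => (hf v).continuousAt
  have hce : Continuous (fun v : ℝ => cexp (I * ((v * y : ℝ) : ℂ)) * ((y : ℂ) * I)) := by
    fun_prop
  have := intervalIntegral.integral_mul_deriv_eq_deriv_mul (a := (0 : ℝ)) (b := 1)
    (u := f) (v := fun v : ℝ => cexp (I * ((v * y : ℝ) : ℂ))) (u' := f')
    (v' := fun v : ℝ => cexp (I * ((v * y : ℝ) : ℂ)) * ((y : ℂ) * I))
    (fun v _ => hf v) (fun v _ => hv v) (hf'.intervalIntegrable _ _) (hce.intervalIntegrable _ _)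
  rw [h0, h1, zero_mul, zero_mul, sub_zero, zero_sub] at this
  rw [← this, ← intervalIntegral.integral_const_mul]
  apply intervalIntegral.integral_congr
  intro v _
  simp only
  ring

/-- decay `C/(1+y²)` -/
theorem decay (g : ℝ → ℝ) (hg : ContDiff ℝ 2 g) (m : ℝ) (hm : 0 < m)
    (hs : ∀ u, g u ≠ 0 → m ≤ u ∧ u ≤ 1 - m) :
    ∃ C : ℝ, 0 ≤ C ∧ ∀ y : ℝ, ‖∫ v in (0 : ℝ)..1, (g v : ℂ) * cexp (I * ((v * y : ℝ) : ℂ))‖ ≤
      C / (1 + y ^ 2) := by
  have hg1 : ContDiff ℝ 1 (deriv g) := by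
    have h := contDiff_succ_iff_deriv.1 (show ContDiff ℝ (1 + 1) g by norm_num; exact hg)
    exact h.2.2
  have hgd : ∀ v, HasDerivAt g (deriv g v) v := fun v =>
    (hg.differentiable (by norm_num) v).hasDerivAt
  have hgd' : ∀ v, HasDerivAt (deriv g) (deriv (deriv g) v) v := fun v =>
    (hg1.differentiable (by norm_num) v).hasDerivAt
  have hc0 : Continuous g := hg.continuous
  have hc1 : Continuous (deriv g) := hg1.continuous
  have hc2 : Continuous (deriv (deriv g)) := hg1.continuous_deriv (le_refl _)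
  have hout : ∀ u, (u < m ∨ 1 - m < u) → g u = 0 := by
    intro u hu
    by_contra h
    have := hs u h
    rcases hu with hu | hu <;> linarith [this.1, this.2]
  have hd0 : deriv g 0 = 0 := by
    have : g =ᶠ[𝓝 0] fun _ => 0 := by
      filter_upwards [Iio_mem_nhds hm] with u hu
      exact hout u (Or.inl hu)
    rw [this.deriv_eq]; simp
  have hd1 : deriv g 1 = 0 := by
    have : g =ᶠ[𝓝 1] fun _ => 0 := by
      filter_upwards [Ioi_mem_nhds (show 1 - m < 1 by linarith)] with u hu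
      exact hout u (Or.inr hu)
    rw [this.deriv_eq]; simp
  have hg0 : g 0 = 0 := hout 0 (Or.inl hm)
  have hg11 : g 1 = 0 := hout 1 (Or.inr (by linarith))
  set C0 : ℝ := ∫ v in (0 : ℝ)..1, |g v| with hC0
  set C2 : ℝ := ∫ v in (0 : ℝ)..1, |deriv (deriv g) v| with hC2
  have hnorm : ∀ (h : ℝ → ℝ) (y : ℝ), Continuous h →
      ‖∫ v in (0 : ℝ)..1, (h v : ℂ) * cexp (I * ((v * y : ℝ) : ℂ))‖ ≤ ∫ v in (0 : ℝ)..1, |h v| := by
    intro h y hh
    apply intervalIntegral.norm_integral_le_of_norm_le (by norm_num)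
    · refine Eventually.of_forall fun v _ => ?_
      rw [norm_mul, Complex.norm_real, Real.norm_eq_abs, mul_comm I, Complex.norm_exp_ofReal_mul_I,
        mul_one]
    · exact hh.abs.intervalIntegrable _ _
  have hC0n : 0 ≤ C0 := intervalIntegral.integral_nonneg (by norm_num) fun v _ => abs_nonneg _
  have hC2n : 0 ≤ C2 := intervalIntegral.integral_nonneg (by norm_num) fun v _ => abs_nonneg _
  refine ⟨C0 + C2, by positivity, fun y => ?_⟩
  set F : ℂ := ∫ v in (0 : ℝ)..1, (g v : ℂ) * cexp (I * ((v * y : ℝ) : ℂ)) with hF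
  have e1 := ibp (fun v => (g v : ℂ)) (fun v => ((deriv g v : ℝ) : ℂ)) y
    (fun v => (hgd v).ofReal_comp) (by fun_prop) (by simp [hg0]) (by simp [hg11])
  have e2 := ibp (fun v => ((deriv g v : ℝ) : ℂ)) (fun v => ((deriv (deriv g) v : ℝ) : ℂ)) y
    (fun v => (hgd' v).ofReal_comp) (by fun_prop) (by simp [hd0]) (by simp [hd1])
  have e3 : ((y : ℂ) * I) * (((y : ℂ) * I) * F) =
      ∫ v in (0 : ℝ)..1, ((deriv (deriv g) v : ℝ) : ℂ) * cexp (I * ((v * y : ℝ) : ℂ)) := by
    rw [e1, mul_neg, e2, neg_neg]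
  have e4 : y ^ 2 * ‖F‖ ≤ C2 := by
    have h1 := hnorm (deriv (deriv g)) y hc2
    have hn : ‖(y : ℂ) * I‖ = |y| := by simp
    rw [← e3, norm_mul ((y : ℂ) * I), norm_mul ((y : ℂ) * I), hn] at h1
    calc y ^ 2 * ‖F‖ = |y| * (|y| * ‖F‖) := by rw [← sq_abs]; ring
      _ ≤ C2 := h1
  have e5 : ‖F‖ ≤ C0 := hnorm g y hc0
  rw [le_div_iff₀ (by positivity)]
  nlinarith

/-- the weight -/
noncomputable def Wj (P : Par) (T : ℝ) (j : ℕ) (u : ℝ) : ℂ := ((P.b j (u / Real.log T) : ℝ) : ℂ)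

theorem b_le (P : Par) (j : ℕ) (u : ℝ) : P.b j u ≤ 1 / P.m := by
  have hm := P.hm
  by_cases h : P.b j u = 0
  · rw [h]; positivity
  · obtain ⟨hj, _, h1, _⟩ := P.hb0 j u h
    obtain ⟨h3, h4⟩ := P.hb1 j u
    have hj' : (2 : ℝ) ≤ j := by exact_mod_cast hj
    have hB : (0 : ℝ) < P.B := by have := P.hB; exact_mod_cast (by omega : 0 < P.B)
    have hκ : 0 < 1 - P.κ := by have := P.hκ1; linarith
    have : 0 ≤ ((j : ℝ) - 1) * (1 - P.κ) / P.B := by
      apply div_nonneg _ hB.le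
      apply mul_nonneg (by linarith) hκ.le
    have hu : P.m ≤ u := by linarith
    rw [le_div_iff₀ hm]
    calc P.b j u * P.m ≤ P.b j u * u := mul_le_mul_of_nonneg_left hu h3
      _ = u * P.b j u := mul_comm _ _
      _ ≤ 1 := h4

theorem b_supp (P : Par) (j : ℕ) (u : ℝ) (h : P.b j u ≠ 0) : P.m ≤ u ∧ u ≤ 1 - P.m := by
  obtain ⟨hj, hjB, h1, h2⟩ := P.hb0 j u h
  have hj' : (2 : ℝ) ≤ j := by exact_mod_cast hj
  have hjB' : (j : ℝ) ≤ P.B := by exact_mod_cast hjB
  have hB : (0 : ℝ) < P.B := by have := P.hB; exact_mod_cast (by omega : 0 < P.B)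
  have hκ : 0 < 1 - P.κ := by have := P.hκ1; linarith
  have h3 : 0 ≤ ((j : ℝ) - 1) * (1 - P.κ) / P.B := by
    apply div_nonneg _ hB.le
    apply mul_nonneg (by linarith) hκ.le
  have h4 : (j : ℝ) * (1 - P.κ) / P.B ≤ 1 := by
    rw [div_le_one hB]
    have := P.hκ
    nlinarith
  constructor <;> linarith

theorem zs_bound (P : Par) (j : ℕ) : ∃ C : ℝ, 0 ≤ C ∧ ∀ T : ℝ, 10 ≤ T → ∀ t : ℝ,
    ‖zs T t (Wj P T j)‖ ≤ Real.log T * (C * Mk T 1 t) := by
  obtain ⟨C, hC, hdec⟩ := decay (P.b j) (P.hb j) P.m P.hm (fun u hu => b_supp P j u hu)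
  refine ⟨C, hC, fun T hT t => ?_⟩
  have hL : 0 < Real.log T := Real.log_pos (by linarith)
  have hfin : (ZZ T).Finite := H370.zset_finite H370.good_zeta T (2 * T) (by linarith)
  unfold zs Mk
  rw [finsum_mem_eq_finite_toFinset_sum _ hfin, finsum_mem_eq_finite_toFinset_sum _ hfin,
    Finset.mul_sum, Finset.mul_sum]
  refine (norm_sum_le _ _).trans (Finset.sum_le_sum fun s _ => ?_)
  set x : ℝ := s.im - t with hx
  have hI : ∫ u in (0 : ℝ)..Real.log T, Wj P T j u * cexp (I * ((u * x : ℝ) : ℂ)) =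
      (Real.log T : ℂ) * ∫ v in (0 : ℝ)..1, (P.b j v : ℂ) *
        cexp (I * ((v * (Real.log T * x) : ℝ) : ℂ)) := by
    have h := intervalIntegral.integral_comp_div (a := 0) (b := Real.log T)
      (fun v : ℝ => (P.b j v : ℂ) * cexp (I * ((v * (Real.log T * x) : ℝ) : ℂ))) hL.ne'
    rw [zero_div, div_self hL.ne'] at h
    rw [← Complex.real_smul, ← h]
    apply intervalIntegral.integral_congr
    intro u _
    simp only [Wj]
    congr 4
    field_simp
  rw [hI, norm_mul, norm_mul, norm_mul, Complex.norm_natCast, Complex.norm_real, Complex.norm_real,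
    Real.norm_of_nonneg (Real.exp_pos _).le, Real.norm_of_nonneg hL.le]
  have hd := hdec (Real.log T * x)
  calc (mu s : ℝ) * Real.exp (-x ^ 2 / 2) * (Real.log T *
      ‖∫ v in (0 : ℝ)..1, (P.b j v : ℂ) * cexp (I * ((v * (Real.log T * x) : ℝ) : ℂ))‖)
      ≤ (mu s : ℝ) * Real.exp (-x ^ 2 / 2) * (Real.log T * (C / (1 + (Real.log T * x) ^ 2))) := by
        gcongr
    _ = Real.log T * (C * ((mu s : ℝ) * Real.exp (-x ^ 2 / 2) /
        (1 + (Real.log T * x / 1) ^ 2))) := by
        rw [div_one]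
        ring

theorem Mk_nn (T k t : ℝ) : 0 ≤ Mk T k t := by
  unfold Mk
  apply finsum_nonneg
  intro s
  apply finsum_nonneg
  intro _
  positivity

theorem logb (T : ℝ) (hT : 100 ≤ T) : 4 ≤ Real.log T := by
  have h0 : 0 < T := by linarith
  rw [Real.le_log_iff_exp_le h0]
  have h1 : Real.exp 1 < 2.7182818286 := Real.exp_one_lt_d9
  have h2 : Real.exp 4 = Real.exp 1 ^ 4 := by
    rw [← Real.exp_nat_mul]; norm_num
  rw [h2]
  have : Real.exp 1 ^ 4 ≤ (2.7182818286 : ℝ) ^ 4 :=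
    pow_le_pow_left₀ (Real.exp_pos 1).le h1.le 4
  have h3 : (2.7182818286 : ℝ) ^ 4 ≤ 100 := by norm_num
  linarith

/-- `bt` is tiny at primes outside the bin -/
theorem bt_out (P : Par) (T : ℝ) (hT : 10 ≤ T) (j p : ℕ) (hp : p.Prime)
    (hj : ¬ (p ∈ PS P T ∧ Eb P T p = j)) :
    ‖bt T (Wj P T j) p‖ ≤ (1 / P.m * Real.exp (-(P.m * Real.log T) ^ 2 / 2)) * Real.log T := by
  have hL : 0 < Real.log T := Real.log_pos (by linarith)
  have hm := P.hm
  have hB : (0 : ℝ) < P.B := by have := P.hB; exact_mod_cast (by omega : 0 < P.B)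
  have hκ : 0 < 1 - P.κ := by have := P.hκ1; linarith
  have hp0 : (0 : ℝ) < p := by exact_mod_cast hp.pos
  apply bt_le_of T (by linarith)
  intro u hu
  by_cases hb : P.b j (u / Real.log T) = 0
  · simp only [Wj, hb]
    simp
    positivity
  · obtain ⟨hj2, hjB, h1, h2⟩ := P.hb0 j _ hb
    have hb0 := (P.hb1 j (u / Real.log T)).1
    have hW : ‖Wj P T j u‖ ≤ 1 / P.m := by
      simp only [Wj]
      rw [Complex.norm_real, Real.norm_of_nonneg hb0]
      exact b_le P j _
    apply mul_le_mul hW _ (Real.exp_pos _).le (by positivity)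
    apply Real.exp_le_exp.2
    -- distance
    have hu1 : (((j : ℝ) - 1) * (1 - P.κ) / P.B + P.m) * Real.log T ≤ u := by
      rwa [le_div_iff₀ hL] at h1
    have hu2 : u ≤ ((j : ℝ) * (1 - P.κ) / P.B - P.m) * Real.log T := by
      rwa [div_le_iff₀ hL] at h2
    have hlogp : 0 ≤ Real.log p := Real.log_natCast_nonneg p
    have key : Real.log p ≤ ((j : ℝ) - 1) * (1 - P.κ) / P.B * Real.log T ∨
        (j : ℝ) * (1 - P.κ) / P.B * Real.log T ≤ Real.log p := by
      by_contra hcon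
      push Not at hcon
      obtain ⟨hc1, hc2⟩ := hcon
      apply hj
      have hE : Eb P T p = j := by
        unfold Eb
        rw [Nat.ceil_eq_iff (by omega)]
        constructor
        · rw [lt_div_iff₀ (by positivity)]
          have hj1 : (((j - 1 : ℕ)) : ℝ) = (j : ℝ) - 1 := by
            rw [Nat.cast_sub (by omega)]; simp
          rw [hj1]
          calc ((j : ℝ) - 1) * ((1 - P.κ) * Real.log T)
              = P.B * (((j : ℝ) - 1) * (1 - P.κ) / P.B * Real.log T) := by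
                field_simp
            _ < P.B * Real.log p := mul_lt_mul_of_pos_left hc1 hB
        · rw [div_le_iff₀ (by positivity)]
          calc P.B * Real.log p ≤ P.B * ((j : ℝ) * (1 - P.κ) / P.B * Real.log T) :=
                mul_le_mul_of_nonneg_left hc2.le hB.le
            _ = (j : ℝ) * ((1 - P.κ) * Real.log T) := by
                field_simp
      refine ⟨?_, hE⟩
      unfold PS
      rw [Finset.mem_filter, Finset.mem_Icc]
      refine ⟨⟨hp.one_lt.le, ?_⟩, hp, by rw [hE]; exact hj2⟩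
      unfold nn
      apply Nat.le_floor
      have hjB' : (j : ℝ) ≤ P.B := by exact_mod_cast hjB
      have h5 : (j : ℝ) * (1 - P.κ) / P.B ≤ 1 - P.κ := by
        rw [div_le_iff₀ hB]
        nlinarith
      have h6 : Real.log p ≤ (1 - P.κ) * Real.log T :=
        hc2.le.trans (mul_le_mul_of_nonneg_right h5 hL.le)
      rw [← Real.log_rpow (by linarith)] at h6
      exact (Real.log_le_log_iff hp0 (Real.rpow_pos_of_pos (by linarith) _)).1 h6
    have hmL : 0 < P.m * Real.log T := by positivity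
    have hsq : (P.m * Real.log T) ^ 2 ≤ (u - Real.log p) ^ 2 := by
      rcases key with h | h
      · have : P.m * Real.log T ≤ u - Real.log p := by nlinarith
        exact pow_le_pow_left₀ hmL.le this 2
      · have : P.m * Real.log T ≤ Real.log p - u := by nlinarith
        calc (P.m * Real.log T) ^ 2 ≤ (Real.log p - u) ^ 2 := pow_le_pow_left₀ hmL.le this 2
          _ = (u - Real.log p) ^ 2 := by ring
    linarith

end PjB

open PjB

theorem Pj_bound (hRH : RHs) (P : Par) : ∃ C T0 : ℝ, 0 < C ∧ 10 ≤ T0 ∧ ∀ T : ℝ, T0 ≤ T → ∀ t : ℝ,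
    T + Real.log T + 1 ≤ t → t ≤ 2 * T - Real.log T - 1 → ∀ j : ℕ,
    ‖∑ p ∈ (PS P T).filter (fun p => Eb P T p = j),
      (chi P T p : ℂ) * (p : ℂ) ^ (hh (dl P.c T) - (⟨1 / 2, t⟩ : ℂ))‖ ≤
      C * (1 + Mk T 1 (t - dl P.c T / 2)) := by
  obtain ⟨C1, T1, hC1, hT1, h1⟩ := EFW hRH
  obtain ⟨C2, hC2, h2⟩ := prime_part_K
  choose CZ hCZ hZ using fun j => zs_bound P j
  set CS : ℝ := ∑ j ∈ Finset.range (P.B + 1), CZ j with hCS
  have hCS0 : 0 ≤ CS := Finset.sum_nonneg fun j _ => hCZ j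
  have hm := P.hm
  set E : ℝ := 2 * Real.exp (3 ^ 2 / (4 * (P.m ^ 2 / 2))) with hE
  have hE0 : 0 < E := by positivity
  refine ⟨CS + (C1 + C2 + E) * (1 / P.m), max 100 T1, by positivity,
    le_trans (by norm_num) (le_max_left _ _), ?_⟩
  intro T hT t ht ht' j
  have hT100 : 100 ≤ T := le_trans (le_max_left _ _) hT
  have hTT1 : T1 ≤ T := le_trans (le_max_right _ _) hT
  have hT10 : 10 ≤ T := by linarith
  have hL4 := logb T hT100
  have hL : 0 < Real.log T := by linarith
  set L := Real.log T with hLdef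
  set d : ℝ := dl P.c T / 2 with hd
  have hd0 : 0 ≤ d := by
    rw [hd]; unfold dl
    have := P.hc
    have : 0 ≤ 2 * Real.pi * P.c / Real.log T := by
      apply div_nonneg _ hL.le
      have := Real.pi_pos
      nlinarith
    linarith
  have hd1 : d ≤ 1 := by
    rw [hd]; unfold dl
    have hc1 := P.hc1
    have hc := P.hc
    have hpi := Real.pi_lt_four
    have hpi0 := Real.pi_pos
    rw [div_div, div_le_one (by positivity)]
    nlinarith
  set t' : ℝ := t - d with ht'def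
  have hM0 : 0 ≤ Mk T 1 t' := Mk_nn _ _ _
  -- trivial case
  by_cases hjB : 2 ≤ j ∧ j ≤ P.B
  swap
  · have hz : ∀ u, P.b j u = 0 := by
      intro u
      by_contra h
      obtain ⟨h3, h4, _⟩ := P.hb0 j u h
      exact hjB ⟨h3, h4⟩
    have : ∑ p ∈ (PS P T).filter (fun p => Eb P T p = j),
      (chi P T p : ℂ) * (p : ℂ) ^ (hh (dl P.c T) - (⟨1 / 2, t⟩ : ℂ)) = 0 := by
      apply Finset.sum_eq_zero
      intro p hp
      have hpj := (Finset.mem_filter.1 hp).2
      have : chi P T p = 0 := by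
        unfold chi
        rw [hpj]
        simp [hz]
      rw [this]; simp
    rw [this, norm_zero]
    have : 0 ≤ (C1 + C2 + E) * (1 / P.m) := by positivity
    positivity
  -- the weight
  have hWc : Continuous (Wj P T j) := by
    unfold Wj
    have := (P.hb j).continuous
    fun_prop
  have hWK : ∀ u ∈ Set.Icc 0 (Real.log T), ‖Wj P T j u‖ ≤ 1 / P.m := by
    intro u _
    simp only [Wj]
    rw [Complex.norm_real, Real.norm_of_nonneg (P.hb1 j _).1]
    exact b_le P j _
  have hWl : ∀ u : ℝ, L ≤ u → Wj P T j u = 0 := by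
    intro u hu
    by_contra h
    have h3 : P.b j (u / Real.log T) ≠ 0 := by
      intro h4
      apply h
      simp only [Wj, h4]
      simp
    have h5 := (b_supp P j _ h3).2
    rw [div_le_iff₀ hL] at h5
    nlinarith
  have e1 := h1 T hTT1 t' (by rw [ht'def]; linarith) (by rw [ht'def]; linarith) (Wj P T j)
    (1 / P.m) hWc hWK
  have e2 := h2 T hT10 t' L hL le_rfl (Wj P T j) (1 / P.m) hWK hWl
  have e3 := hZ j T hT10 t'
  have hCj : CZ j ≤ CS := by
    rw [hCS]
    apply Finset.single_le_sum (fun j _ => hCZ j)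
    rw [Finset.mem_range]; omega
  -- bound of QW
  have eQ : ‖QW T t' L (Wj P T j)‖ ≤ CS * Mk T 1 t' + (C1 + C2) * (1 / P.m) := by
    have h5 : ‖(L : ℂ) * QW T t' L (Wj P T j)‖ ≤ L * (CS * Mk T 1 t' + (C1 + C2) * (1 / P.m)) := by
      have : (L : ℂ) * QW T t' L (Wj P T j) =
          (zs T t' (Wj P T j) + ps T t' (Wj P T j)) - zs T t' (Wj P T j) -
            (ps T t' (Wj P T j) - (L : ℂ) * QW T t' L (Wj P T j)) := by ring
      rw [this]
      calc _ ≤ ‖zs T t' (Wj P T j) + ps T t' (Wj P T j)‖ + ‖zs T t' (Wj P T j)‖ +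
            ‖ps T t' (Wj P T j) - (L : ℂ) * QW T t' L (Wj P T j)‖ := by
            refine (norm_sub_le _ _).trans ?_
            gcongr
            exact norm_sub_le _ _
        _ ≤ C1 * (1 / P.m) * L + L * (CS * Mk T 1 t') + C2 * (1 / P.m) * L := by
            gcongr
            refine e3.trans ?_
            gcongr
        _ = _ := by ring
    rw [norm_mul, Complex.norm_real, Real.norm_of_nonneg hL.le] at h5
    exact le_of_mul_le_mul_left h5 hL
  -- our sum as part of QW
  set S : Finset ℕ := (Finset.Icc 1 ⌊Real.exp (2 * L)⌋₊).filter Nat.Prime with hS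
  set term : ℕ → ℂ := fun p => (Real.log p : ℂ) * (p : ℂ) ^ (-(1 / 2 : ℂ) - I * t') *
    bt T (Wj P T j) p with hterm
  have hexp : Real.exp (2 * L) = T ^ 2 := by
    rw [two_mul, Real.exp_add, hLdef, Real.exp_log (by linarith)]; ring
  have hsub : (PS P T).filter (fun p => Eb P T p = j) ⊆ S := by
    intro p hp
    rw [Finset.mem_filter] at hp
    obtain ⟨hp1, _⟩ := hp
    unfold PS at hp1
    rw [Finset.mem_filter, Finset.mem_Icc] at hp1
    rw [hS, Finset.mem_filter, Finset.mem_Icc]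
    refine ⟨⟨hp1.1.1, ?_⟩, hp1.2.1⟩
    refine hp1.1.2.trans ?_
    unfold nn
    apply Nat.floor_le_floor
    rw [hexp]
    calc T ^ (1 - P.κ) ≤ T ^ (2 : ℝ) := by
          apply Real.rpow_le_rpow_of_exponent_le (by linarith)
          have := P.hκ
          linarith
      _ = T ^ 2 := by norm_cast
  have hQW : QW T t' L (Wj P T j) = ((1 / L : ℝ) : ℂ) * ∑ p ∈ S, term p := rfl
  have hsum : ∑ p ∈ (PS P T).filter (fun p => Eb P T p = j),
      (chi P T p : ℂ) * (p : ℂ) ^ (hh (dl P.c T) - (⟨1 / 2, t⟩ : ℂ)) =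
      ((1 / L : ℝ) : ℂ) * ∑ p ∈ (PS P T).filter (fun p => Eb P T p = j), term p := by
    rw [Finset.mul_sum]
    apply Finset.sum_congr rfl
    intro p hp
    have hpj := (Finset.mem_filter.1 hp).2
    have hexpn : hh (dl P.c T) - (⟨1 / 2, t⟩ : ℂ) = -(1 / 2 : ℂ) - I * t' := by
      apply Complex.ext
      · simp [hh]
      · simp [hh, ht'def, hd]
    have hchi : (chi P T p : ℂ) = ((1 / L : ℝ) : ℂ) * ((Real.log p : ℂ) * bt T (Wj P T j) p) := by
      unfold chi bt
      rw [hpj]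
      have : ∫ u in (0 : ℝ)..Real.log T, Wj P T j u * (Real.exp (-(u - Real.log p) ^ 2 / 2) : ℂ) =
          ((∫ u in (0 : ℝ)..Real.log T, P.b j (u / Real.log T) *
            Real.exp (-(u - Real.log p) ^ 2 / 2) : ℝ) : ℂ) := by
        rw [← intervalIntegral.integral_ofReal]
        apply intervalIntegral.integral_congr
        intro u _
        simp only [Wj]
        push_cast
        ring
      rw [this]
      push_cast
      ring
    rw [hexpn, hchi, hterm]
    ring
  have hdiff : ‖((1 / L : ℝ) : ℂ) * ∑ p ∈ S, term p -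
      ((1 / L : ℝ) : ℂ) * ∑ p ∈ (PS P T).filter (fun p => Eb P T p = j), term p‖ ≤
      E * (1 / P.m) := by
    rw [← Finset.sum_sdiff hsub, mul_add, add_sub_cancel_right, norm_mul, Complex.norm_real,
      Real.norm_of_nonneg (by positivity)]
    have hb : ∀ p ∈ S \ (PS P T).filter (fun p => Eb P T p = j), ‖term p‖ ≤
        (2 * L) * ((1 / P.m * Real.exp (-(P.m * L) ^ 2 / 2)) * L) := by
      intro p hp
      rw [Finset.mem_sdiff] at hp
      obtain ⟨hpS, hpj⟩ := hp
      rw [Finset.mem_filter] at hpj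
      rw [hS, Finset.mem_filter, Finset.mem_Icc] at hpS
      have hpp := hpS.2
      have hp1 : (1 : ℝ) ≤ p := by exact_mod_cast hpS.1.1
      have hbt := bt_out P T hT10 j p hpp hpj
      have hlog : Real.log p ≤ 2 * L := by
        have h6 : (p : ℝ) ≤ Real.exp (2 * L) :=
          (Nat.le_floor_iff (Real.exp_pos _).le).1 hpS.1.2
        rw [← Real.log_exp (2 * L)]
        exact Real.log_le_log (by linarith) h6
      have hlog0 : 0 ≤ Real.log p := Real.log_natCast_nonneg p
      rw [hterm]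
      simp only
      rw [norm_mul, norm_mul, Complex.norm_real, Real.norm_of_nonneg hlog0,
        Complex.norm_natCast_cpow_of_pos hpp.pos]
      have hre : (-(1 / 2 : ℂ) - I * t').re = -(1 / 2) := by simp
      rw [hre]
      have h7 : (p : ℝ) ^ (-(1 / 2) : ℝ) ≤ 1 :=
        Real.rpow_le_one_of_one_le_of_nonpos hp1 (by norm_num)
      have h8 : Real.log p * (p : ℝ) ^ (-(1 / 2) : ℝ) ≤ (2 * L) * 1 :=
        mul_le_mul hlog h7 (by positivity) (by positivity)
      rw [mul_one] at h8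
      exact mul_le_mul h8 hbt (norm_nonneg _) (by positivity)
    have hcard : ((S \ (PS P T).filter (fun p => Eb P T p = j)).card : ℝ) ≤ Real.exp (2 * L) := by
      have h9 : (S \ (PS P T).filter (fun p => Eb P T p = j)).card ≤ ⌊Real.exp (2 * L)⌋₊ := by
        calc _ ≤ S.card := Finset.card_le_card Finset.sdiff_subset
          _ ≤ (Finset.Icc 1 ⌊Real.exp (2 * L)⌋₊).card := Finset.card_filter_le _ _
          _ = ⌊Real.exp (2 * L)⌋₊ := by simp
      calc _ ≤ ((⌊Real.exp (2 * L)⌋₊ : ℕ) : ℝ) := by exact_mod_cast h9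
        _ ≤ _ := Nat.floor_le (Real.exp_pos _).le
    have hgauss : Real.exp (-(P.m * L) ^ 2 / 2) ≤
        Real.exp (3 ^ 2 / (4 * (P.m ^ 2 / 2))) * Real.exp (-3 * L) := by
      have := pp_exp_sq_le (P.m ^ 2 / 2) 3 L (by positivity)
      convert this using 2
      ring
    have hexpL : L * Real.exp (2 * L) * Real.exp (-3 * L) ≤ 1 := by
      have h10 : Real.exp (2 * L) * Real.exp (-3 * L) = Real.exp (-L) := by
        rw [← Real.exp_add]; congr 1; ring
      rw [mul_assoc, h10, Real.exp_neg, ← div_eq_mul_inv, div_le_one (Real.exp_pos _)]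
      linarith [Real.add_one_le_exp L]
    calc 1 / L * ‖∑ p ∈ S \ (PS P T).filter (fun p => Eb P T p = j), term p‖
        ≤ 1 / L * (∑ p ∈ S \ (PS P T).filter (fun p => Eb P T p = j),
            (2 * L) * ((1 / P.m * Real.exp (-(P.m * L) ^ 2 / 2)) * L)) := by
          apply mul_le_mul_of_nonneg_left _ (by positivity)
          exact (norm_sum_le _ _).trans (Finset.sum_le_sum hb)
      _ = ((S \ (PS P T).filter (fun p => Eb P T p = j)).card : ℝ) *
            (2 * L * (1 / P.m * Real.exp (-(P.m * L) ^ 2 / 2))) := by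
          rw [Finset.sum_const, nsmul_eq_mul]
          field_simp
      _ ≤ Real.exp (2 * L) * (2 * L * (1 / P.m *
            (Real.exp (3 ^ 2 / (4 * (P.m ^ 2 / 2))) * Real.exp (-3 * L)))) := by
          gcongr
      _ = (2 * Real.exp (3 ^ 2 / (4 * (P.m ^ 2 / 2)))) *
            (L * Real.exp (2 * L) * Real.exp (-3 * L)) * (1 / P.m) := by ring
      _ ≤ (2 * Real.exp (3 ^ 2 / (4 * (P.m ^ 2 / 2)))) * 1 * (1 / P.m) := by
          gcongr
      _ = E * (1 / P.m) := by rw [hE]; ring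
  rw [hsum]
  set X : ℂ := ((1 / L : ℝ) : ℂ) * ∑ p ∈ (PS P T).filter (fun p => Eb P T p = j), term p with hX
  rw [← hQW] at hdiff
  calc ‖X‖ = ‖QW T t' L (Wj P T j) - (QW T t' L (Wj P T j) - X)‖ := by
        congr 1; ring
    _ ≤ ‖QW T t' L (Wj P T j)‖ + ‖QW T t' L (Wj P T j) - X‖ := norm_sub_le _ _
    _ ≤ (CS * Mk T 1 t' + (C1 + C2) * (1 / P.m)) + E * (1 / P.m) := add_le_add eQ hdiff
    _ ≤ (CS + (C1 + C2 + E) * (1 / P.m)) * (1 + Mk T 1 t') := by
        have h11 : 0 ≤ (C1 + C2 + E) * (1 / P.m) := by positivity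
        nlinarith

end Pool.Agent.KS6_1.SI
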