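import Pool.Agent.KS6_1.SI.Defs
import Pool.Agent.KS6_1.SI.Mert

open Complex Filter Topology Set MeasureTheory

namespace Pool.Agent.KS6_1.SI

open SP

open SG (phi hh nn dl)

namespace DpAux

lemma sqf_prod (A : Finset ℕ) (hA : ∀ p ∈ A, p.Prime) : Squarefree (∏ p ∈ A, p) := by
  refine Finset.squarefree_prod_of_pairwise_isCoprime (fun p hp q hq hpq => ?_)
    fun p hp => (hA p hp).squarefree
  simp only [Function.onFun, ← Nat.coprime_iff_isRelPrime]
  exact (Nat.coprime_primes (hA p hp) (hA q hq)).mpr hpq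

lemma prod_ne (A : Finset ℕ) (hA : ∀ p ∈ A, p.Prime) : (∏ p ∈ A, p) ≠ 0 :=
  Finset.prod_ne_zero_iff.2 fun p hp => (hA _ hp).ne_zero

lemma prod_cpow (A : Finset ℕ) (s : ℂ) :
    ((∏ p ∈ A, p : ℕ) : ℂ) ^ s = ∏ p ∈ A, (p : ℂ) ^ s := by
  classical
  induction A using Finset.induction_on with
  | empty => simp
  | insert a A ha ih =>
    rw [Finset.prod_insert ha, Finset.prod_insert ha, ← ih]
    push_cast
    have := natCast_mul_natCast_cpow a (∏ p ∈ A, p) s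
    push_cast at this
    exact this

lemma sum_div (A : Finset ℕ) (hA : ∀ p ∈ A, p.Prime) (f : ℕ → ℂ) :
    ∑ x ∈ (∏ p ∈ A, p).divisors, f x = ∑ B ∈ A.powerset, f (∏ p ∈ B, p) := by
  have hpf := Nat.primeFactors_prod hA
  refine Finset.sum_bij' (fun x _ => x.primeFactors) (fun B _ => ∏ p ∈ B, p) ?_ ?_ ?_ ?_ ?_
  · intro x hx
    rw [Nat.mem_divisors] at hx
    rw [Finset.mem_powerset, ← hpf]
    exact Nat.primeFactors_mono hx.1 hx.2
  · intro B hB
    rw [Finset.mem_powerset] at hB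
    rw [Nat.mem_divisors]
    exact ⟨Finset.prod_dvd_prod_of_subset _ _ _ hB, prod_ne A hA⟩
  · intro x hx
    rw [Nat.mem_divisors] at hx
    exact Nat.prod_primeFactors_of_squarefree (Squarefree.squarefree_of_dvd hx.1 (sqf_prod A hA))
  · intro B hB
    rw [Finset.mem_powerset] at hB
    exact Nat.primeFactors_prod fun p hp => hA p (hB hp)
  · intro x hx
    rw [Nat.mem_divisors] at hx
    rw [Nat.prod_primeFactors_of_squarefree (Squarefree.squarefree_of_dvd hx.1 (sqf_prod A hA))]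

lemma div_prod (A B : Finset ℕ) (hA : ∀ p ∈ A, p.Prime) (hB : B ⊆ A) :
    (∏ p ∈ A, p) / (∏ p ∈ B, p) = ∏ p ∈ A \ B, p := by
  apply Nat.div_eq_of_eq_mul_left
  · exact Nat.pos_of_ne_zero (prod_ne B fun p hp => hA p (hB hp))
  · rw [Finset.prod_sdiff hB]

lemma moebius_prod (A : Finset ℕ) (hA : ∀ p ∈ A, p.Prime) :
    ArithmeticFunction.moebius (∏ p ∈ A, p) = ∏ p ∈ A, (-1 : ℤ) := by
  rw [ArithmeticFunction.isMultiplicative_moebius.map_prod_of_prime A hA]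
  exact Finset.prod_congr rfl fun p hp => ArithmeticFunction.moebius_apply_prime (hA p hp)

lemma fm_prod (δ : ℝ) (A : Finset ℕ) (hA : ∀ p ∈ A, p.Prime) :
    fm δ (∏ p ∈ A, p) = ∏ p ∈ A, ((p : ℂ) ^ (hh δ) - (p : ℂ) ^ (-(hh δ))) := by
  classical
  unfold fm
  rw [sum_div A hA (fun x => (x : ℂ) ^ (hh δ) *
    ((ArithmeticFunction.moebius ((∏ p ∈ A, p) / x) : ℤ) : ℂ) *
    ((((∏ p ∈ A, p) / x : ℕ)) : ℂ) ^ (-(hh δ)))]
  have e : ∀ p ∈ A, (p : ℂ) ^ (hh δ) - (p : ℂ) ^ (-(hh δ)) =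
      (p : ℂ) ^ (hh δ) + (-1 * (p : ℂ) ^ (-(hh δ))) := fun p _ => by ring
  rw [Finset.prod_congr rfl e, Finset.prod_add]
  apply Finset.sum_congr rfl
  intro B hB
  rw [Finset.mem_powerset] at hB
  have hC : ∀ p ∈ A \ B, p.Prime := fun p hp => hA p (Finset.sdiff_subset hp)
  rw [div_prod A B hA hB, prod_cpow, prod_cpow, moebius_prod _ hC, Finset.prod_mul_distrib]
  push_cast
  ring

lemma log_pos' {T : ℝ} (hT : 10 ≤ T) : 0 < Real.log T := Real.log_pos (by linarith)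

lemma prime_of_PS {P : Par} {T : ℝ} {p : ℕ} (hp : p ∈ PS P T) : p.Prime := by
  rw [PS, Finset.mem_filter] at hp
  exact hp.2.1

lemma prod_le (P : Par) (T : ℝ) (hT : 10 ≤ T) (A : Finset ℕ) (hA : A ⊆ PS P T)
    (hE : ∑ p ∈ A, Eb P T p ≤ P.B) : ∏ p ∈ A, p ≤ nn P.κ T := by
  have hL := log_pos' hT
  have hBpos : (0 : ℝ) < P.B := by have := P.hB; positivity
  have hκ1 : 0 < 1 - P.κ := by have := P.hκ1; linarith
  unfold SG.nn
  apply Nat.le_floor
  have hpr : ∀ p ∈ A, p.Prime := fun p hp => prime_of_PS (hA hp)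
  have h0 : (0 : ℝ) < ((∏ p ∈ A, p : ℕ) : ℝ) := by
    exact_mod_cast Nat.pos_of_ne_zero (prod_ne A hpr)
  rw [← Real.log_le_log_iff h0 (by positivity), Real.log_rpow (by linarith)]
  push_cast
  rw [Real.log_prod (fun p hp => by exact_mod_cast (hpr p hp).ne_zero)]
  have h1 : ∀ p ∈ A, Real.log p ≤ (1 - P.κ) * Real.log T / P.B * Eb P T p := by
    intro p hp
    have : (P.B : ℝ) * Real.log p / ((1 - P.κ) * Real.log T) ≤ Eb P T p := Nat.le_ceil _
    rw [div_le_iff₀ (by positivity)] at this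
    rw [div_mul_eq_mul_div, le_div_iff₀ hBpos]
    linarith
  calc ∑ p ∈ A, Real.log p ≤ ∑ p ∈ A, (1 - P.κ) * Real.log T / P.B * Eb P T p :=
        Finset.sum_le_sum h1
    _ = (1 - P.κ) * Real.log T / P.B * ((∑ p ∈ A, Eb P T p : ℕ) : ℝ) := by
        push_cast
        rw [Finset.mul_sum]
    _ ≤ (1 - P.κ) * Real.log T / P.B * P.B := by
        apply mul_le_mul_of_nonneg_left _ (by positivity)
        exact_mod_cast hE
    _ = (1 - P.κ) * Real.log T := by field_simp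

lemma dco_prod (P : Par) (T : ℝ) (A : Finset ℕ) (hA : A ⊆ PS P T)
    (hE : ∑ p ∈ A, Eb P T p ≤ P.B) :
    dco P T (∏ p ∈ A, p) = ∏ p ∈ A, (-(chi P T p : ℂ) * (p : ℂ) ^ (hh (dl P.c T))) := by
  have hpr : ∀ p ∈ A, p.Prime := fun p hp => prime_of_PS (hA hp)
  unfold dco
  rw [Nat.primeFactors_prod hpr, if_pos ⟨sqf_prod A hpr, hA, hE⟩]

/-- sums over the support of `dco` -/
lemma sum_supp (P : Par) (T : ℝ) (hT : 10 ≤ T) (G : ℕ → ℂ)
    (hG : ∀ n, ¬ (Squarefree n ∧ n.primeFactors ⊆ PS P T ∧ ∑ p ∈ n.primeFactors, Eb P T p ≤ P.B) →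
      G n = 0) :
    ∑ n ∈ Finset.Icc 1 (nn P.κ T), G n =
      ∑ n ∈ Finset.range (P.B + 1), ∑ A ∈ (PS P T).powerset.filter
        (fun A => ∑ p ∈ A, Eb P T p = n), G (∏ p ∈ A, p) := by
  classical
  have h1 : ∑ n ∈ Finset.range (P.B + 1), ∑ A ∈ (PS P T).powerset.filter
        (fun A => ∑ p ∈ A, Eb P T p = n), G (∏ p ∈ A, p) =
      ∑ A ∈ (PS P T).powerset.filter (fun A => ∑ p ∈ A, Eb P T p ∈ Finset.range (P.B + 1)),
        G (∏ p ∈ A, p) := by
    rw [← Finset.sum_fiberwise_of_maps_to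
      (s := (PS P T).powerset.filter (fun A => ∑ p ∈ A, Eb P T p ∈ Finset.range (P.B + 1)))
      (t := Finset.range (P.B + 1)) (g := fun A => ∑ p ∈ A, Eb P T p)
      (fun A hA => (Finset.mem_filter.mp hA).2)]
    apply Finset.sum_congr rfl
    intro n hn
    apply Finset.sum_congr _ fun _ _ => rfl
    ext A
    simp only [Finset.mem_filter]
    constructor
    · rintro ⟨h1, h2⟩
      exact ⟨⟨h1, h2 ▸ hn⟩, h2⟩
    · rintro ⟨⟨h1, _⟩, h2⟩
      exact ⟨h1, h2⟩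
  rw [h1]
  symm
  refine Finset.sum_bij_ne_zero (fun A _ _ => ∏ p ∈ A, p) ?_ ?_ ?_ ?_
  · intro A hA hne
    simp only [Finset.mem_filter, Finset.mem_powerset, Finset.mem_range] at hA
    have hpr : ∀ p ∈ A, p.Prime := fun p hp => prime_of_PS (hA.1 hp)
    rw [Finset.mem_Icc]
    exact ⟨Nat.pos_of_ne_zero (prod_ne A hpr), prod_le P T hT A hA.1 (by omega)⟩
  · intro A hA _ A' hA' _ h
    simp only [Finset.mem_filter, Finset.mem_powerset, Finset.mem_range] at hA hA'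
    have hpr : ∀ p ∈ A, p.Prime := fun p hp => prime_of_PS (hA.1 hp)
    have hpr' : ∀ p ∈ A', p.Prime := fun p hp => prime_of_PS (hA'.1 hp)
    rw [← Nat.primeFactors_prod hpr, ← Nat.primeFactors_prod hpr', h]
  · intro n hn hne
    have h2 : Squarefree n ∧ n.primeFactors ⊆ PS P T ∧ ∑ p ∈ n.primeFactors, Eb P T p ≤ P.B := by
      by_contra h
      exact hne (hG n h)
    refine ⟨n.primeFactors, ?_, ?_, Nat.prod_primeFactors_of_squarefree h2.1⟩
    · simp only [Finset.mem_filter, Finset.mem_powerset, Finset.mem_range]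
      exact ⟨h2.2.1, by omega⟩
    · rw [Nat.prod_primeFactors_of_squarefree h2.1]
      exact hne
  · intro A hA _
    rfl

lemma dco_zero (P : Par) (T : ℝ) (n : ℕ)
    (h : ¬ (Squarefree n ∧ n.primeFactors ⊆ PS P T ∧ ∑ p ∈ n.primeFactors, Eb P T p ≤ P.B)) :
    dco P T n = 0 := by
  unfold dco
  rw [if_neg h]

lemma conj_cpow_h (δ : ℝ) (p : ℕ) (hp : 0 < p) :
    (starRingEnd ℂ) ((p : ℂ) ^ (hh δ)) = (p : ℂ) ^ (-(hh δ)) := by
  have hp0 : (p : ℂ) ≠ 0 := by exact_mod_cast hp.ne'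
  rw [Complex.cpow_def_of_ne_zero hp0, Complex.cpow_def_of_ne_zero hp0, ← Complex.natCast_log,
    ← Complex.exp_conj]
  congr 1
  unfold hh
  rw [map_mul, map_mul, Complex.conj_ofReal, Complex.conj_ofReal, Complex.conj_I]
  ring

end DpAux

open DpAux

theorem Dp_eq (P : Par) (T : ℝ) (hT : 10 ≤ T) (s : ℂ) :
    Dp P T s = DP (nn P.κ T) (dco P T) s := by
  unfold DP
  rw [sum_supp P T hT (fun n => dco P T n * (n : ℂ) ^ (-s))
    (fun n hn => by rw [dco_zero P T n hn, zero_mul])]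
  unfold Dp qq
  apply Finset.sum_congr rfl
  intro n hn
  apply Finset.sum_congr rfl
  intro A hA
  simp only [Finset.mem_filter, Finset.mem_powerset, Finset.mem_range] at hA hn
  rw [dco_prod P T A hA.1 (by omega), prod_cpow, ← Finset.prod_mul_distrib]
  apply Finset.prod_congr rfl
  intro p hp
  have hp0 : (p : ℂ) ≠ 0 := by exact_mod_cast (prime_of_PS (hA.1 hp)).ne_zero
  simp only [sub_eq_add_neg]
  rw [Complex.cpow_add _ _ hp0]
  ring

theorem SD_eq (P : Par) (T : ℝ) (hT : 10 ≤ T) :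
    SD P.c P.a T (nn P.κ T) (dco P T) = SS P T := by
  classical
  unfold SD
  rw [sum_supp P T hT (fun k => (starRingEnd ℂ) (dco P T k) *
    (k : ℂ) ^ (-(1 : ℂ) - (P.a / Real.log T : ℝ)) *
    ∑ x ∈ k.divisors, dco P T x * (x : ℂ) ^ ((P.a / Real.log T : ℝ) : ℂ) *
      fm (dl P.c T) (k / x))
    (fun n hn => by rw [dco_zero P T n hn, map_zero, zero_mul, zero_mul])]
  unfold SS qq
  apply Finset.sum_congr rfl
  intro n hn
  apply Finset.sum_congr rfl
  intro A hA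
  simp only [Finset.mem_filter, Finset.mem_powerset, Finset.mem_range] at hA hn
  have hpr : ∀ p ∈ A, p.Prime := fun p hp => prime_of_PS (hA.1 hp)
  have hinner : ∑ x ∈ (∏ p ∈ A, p).divisors, dco P T x *
      (x : ℂ) ^ ((P.a / Real.log T : ℝ) : ℂ) * fm (dl P.c T) ((∏ p ∈ A, p) / x) =
      ∏ p ∈ A, ((-(chi P T p : ℂ) * (p : ℂ) ^ (hh (dl P.c T))) *
        (p : ℂ) ^ ((P.a / Real.log T : ℝ) : ℂ) +
        ((p : ℂ) ^ (hh (dl P.c T)) - (p : ℂ) ^ (-(hh (dl P.c T))))) := by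
    rw [sum_div A hpr (fun x => dco P T x * (x : ℂ) ^ ((P.a / Real.log T : ℝ) : ℂ) *
      fm (dl P.c T) ((∏ p ∈ A, p) / x)), Finset.prod_add]
    apply Finset.sum_congr rfl
    intro B hB
    rw [Finset.mem_powerset] at hB
    have hBE : ∑ p ∈ B, Eb P T p ≤ P.B :=
      (Finset.sum_le_sum_of_subset hB).trans (by omega)
    rw [dco_prod P T B (hB.trans hA.1) hBE, prod_cpow, div_prod A B hpr hB,
      fm_prod _ _ (fun p hp => hpr p (Finset.sdiff_subset hp)), ← Finset.prod_mul_distrib]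
  rw [hinner, dco_prod P T A hA.1 (by omega), prod_cpow, map_prod, ← Finset.prod_mul_distrib,
    ← Finset.prod_mul_distrib]
  apply Finset.prod_congr rfl
  intro p hp
  have hpp := hpr p hp
  have hp0 : (p : ℂ) ≠ 0 := by exact_mod_cast hpp.ne_zero
  rw [map_mul, conj_cpow_h _ p hpp.pos, map_neg, Complex.conj_ofReal]
  unfold gp
  have e1 : (p : ℂ) ^ (-(1 : ℂ) - ((P.a / Real.log T : ℝ) : ℂ)) =
      (1 / p : ℂ) * (p : ℂ) ^ (-((P.a / Real.log T : ℝ) : ℂ)) := by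
    rw [sub_eq_add_neg, Complex.cpow_add _ _ hp0, Complex.cpow_neg_one, one_div]
  have e2 : (p : ℂ) ^ (-(2 * hh (dl P.c T))) =
      (p : ℂ) ^ (-(hh (dl P.c T))) * (p : ℂ) ^ (-(hh (dl P.c T))) := by
    rw [← Complex.cpow_add _ _ hp0]
    congr 1
    ring
  have e3 : (p : ℂ) ^ (-(hh (dl P.c T))) * (p : ℂ) ^ (hh (dl P.c T)) = 1 := by
    rw [← Complex.cpow_add _ _ hp0]
    simp
  have e4 : (p : ℂ) ^ (-((P.a / Real.log T : ℝ) : ℂ)) *
      (p : ℂ) ^ (((P.a / Real.log T : ℝ) : ℂ)) = 1 := by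
    rw [← Complex.cpow_add _ _ hp0]
    simp
  rw [e1, e2]
  set x : ℂ := (chi P T p : ℂ)
  set a1 := (p : ℂ) ^ (-(hh (dl P.c T)))
  set a2 := (p : ℂ) ^ (hh (dl P.c T))
  set b1 := (p : ℂ) ^ (-((P.a / Real.log T : ℝ) : ℂ))
  set b2 := (p : ℂ) ^ (((P.a / Real.log T : ℝ) : ℂ))
  have : -x * a1 * (1 / (p : ℂ) * b1) * (-x * a2 * b2 + (a2 - a1)) =
      (1 / (p : ℂ)) * (x * (x * ((a1 * a2) * (b1 * b2)) - ((a1 * a2) - a1 * a1) * b1)) := by
    ring
  rw [this, e3, e4]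
  ring

theorem dco_bound (P : Par) : ∃ T0 : ℝ, 10 ≤ T0 ∧ ∀ T : ℝ, T0 ≤ T → ∀ n, ‖dco P T n‖ ≤ T := by
  obtain ⟨C, T1, hC, hT1, hchi⟩ := chi_approx P
  refine ⟨max T1 (max 10 (2 ^ P.B)), (le_max_left _ _).trans (le_max_right _ _), ?_⟩
  intro T hT n
  have hTT : T1 ≤ T := (le_max_left _ _).trans hT
  have hT10 : (10 : ℝ) ≤ T := ((le_max_left _ _).trans (le_max_right _ _)).trans hT
  have hTB : (2 : ℝ) ^ P.B ≤ T := ((le_max_right _ _).trans (le_max_right _ _)).trans hT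
  obtain ⟨hc, -⟩ := hchi T hTT
  by_cases h : Squarefree n ∧ n.primeFactors ⊆ PS P T ∧ ∑ p ∈ n.primeFactors, Eb P T p ≤ P.B
  · unfold dco
    rw [if_pos h, norm_prod]
    have h1 : ∀ p ∈ n.primeFactors, ‖-(chi P T p : ℂ) * (p : ℂ) ^ (hh (dl P.c T))‖ ≤ 2 := by
      intro p hp
      have hps := h.2.1 hp
      have hp0 : 0 < p := (prime_of_PS hps).pos
      rw [norm_mul, norm_neg, Complex.norm_real, Real.norm_eq_abs]
      have h2 : ‖(p : ℂ) ^ (hh (dl P.c T))‖ = 1 := by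
        rw [Complex.norm_natCast_cpow_of_pos hp0]
        simp [hh]
      rw [h2, mul_one]
      exact (hc p hps).2.2
    calc ∏ p ∈ n.primeFactors, ‖-(chi P T p : ℂ) * (p : ℂ) ^ (hh (dl P.c T))‖ ≤
          ∏ p ∈ n.primeFactors, (2 : ℝ) := Finset.prod_le_prod (fun _ _ => norm_nonneg _) h1
      _ = 2 ^ n.primeFactors.card := by rw [Finset.prod_const]
      _ ≤ 2 ^ P.B := by
          apply pow_le_pow_right₀ (by norm_num)
          calc n.primeFactors.card = ∑ p ∈ n.primeFactors, 1 := by simp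
            _ ≤ ∑ p ∈ n.primeFactors, Eb P T p := by
                apply Finset.sum_le_sum
                intro p hp
                have := h.2.1 hp
                rw [PS, Finset.mem_filter] at this
                omega
            _ ≤ P.B := h.2.2
      _ ≤ T := hTB
  · rw [dco_zero P T n h, norm_zero]
    linarith

end Pool.Agent.KS6_1.SI
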