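import Pool.Agent.KS6_1.SI.Defs
import Pool.Graph.R_seed8.H382P.Fm
import Pool.Agent.KS6_1.SI.DeepP

open Complex Filter Topology Set MeasureTheory

namespace Pool.Agent.KS6_1.SI

open SP

open SG (phi hh nn dl)

namespace EvalAux

/-- coefficients of the product -/
noncomputable def ec (a' δ : ℝ) (N : ℕ) (d : ℕ → ℂ) (j : ℕ) : ℂ :=
  ∑ x ∈ j.divisors.filter (fun x => x ≤ N), d x * (x : ℂ) ^ (a' : ℂ) * fm δ (j / x)

/-- the ratio -/
noncomputable def RR (δ : ℝ) (s : ℂ) : ℂ := riemannZeta (s - hh δ) / riemannZeta (s + hh δ)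

/-- conjugate polynomial -/
noncomputable def DPs (N : ℕ) (d : ℕ → ℂ) (s : ℂ) : ℂ :=
  ∑ k ∈ Finset.Icc 1 N, (starRingEnd ℂ) (d k) * (k : ℂ) ^ (s - 1)

/-- the product -/
noncomputable def PPr (a' δ : ℝ) (N : ℕ) (d : ℕ → ℂ) (s : ℂ) : ℂ :=
  DP N d (s - (a' : ℝ)) * RR δ s

noncomputable def FR (a' δ : ℝ) (N : ℕ) (d : ℕ → ℂ) (s : ℂ) : ℂ :=
  ∑ k ∈ Finset.Icc 1 N, (starRingEnd ℂ) (d k) * (k : ℂ) ^ (s - (a' : ℝ) - 1) *
    (PPr a' δ N d s - ∑ j ∈ Finset.Icc 1 k, ec a' δ N d j * (j : ℂ) ^ (-s))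

noncomputable def FL (a' δ : ℝ) (N : ℕ) (d : ℕ → ℂ) (s : ℂ) : ℂ :=
  ∑ k ∈ Finset.Icc 1 N, (starRingEnd ℂ) (d k) * (k : ℂ) ^ (s - (a' : ℝ) - 1) *
    ∑ j ∈ Finset.Icc 1 (k - 1), ec a' δ N d j * (j : ℂ) ^ (-s)

lemma ec_zero (a' δ : ℝ) (N : ℕ) (d : ℕ → ℂ) : ec a' δ N d 0 = 0 := by
  simp [ec]

lemma ec_bound (a' δ T : ℝ) (ha1 : a' ≤ 1) (hT : 0 ≤ T) (N : ℕ)
    (d : ℕ → ℂ) (hd : ∀ n, ‖d n‖ ≤ T) (j : ℕ) : ‖ec a' δ N d j‖ ≤ T * (j : ℝ) ^ 2 := by
  unfold ec
  have hfm := (fm_series δ 4 (by norm_num)).1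
  calc ‖∑ x ∈ j.divisors.filter (fun x => x ≤ N), d x * (x : ℂ) ^ (a' : ℂ) * fm δ (j / x)‖
      ≤ ∑ x ∈ j.divisors.filter (fun x => x ≤ N), T * j := by
        apply norm_sum_le_of_le
        intro x hx
        rw [Finset.mem_filter] at hx
        have hx0 : 0 < x := Nat.pos_of_mem_divisors hx.1
        have hxj : x ∣ j := Nat.dvd_of_mem_divisors hx.1
        rw [norm_mul, norm_mul, Complex.norm_natCast_cpow_of_pos hx0, Complex.ofReal_re]
        have h1 : (x : ℝ) ^ a' ≤ x := by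
          have : (1 : ℝ) ≤ x := by exact_mod_cast hx0
          calc (x : ℝ) ^ a' ≤ (x : ℝ) ^ (1 : ℝ) := Real.rpow_le_rpow_of_exponent_le this ha1
            _ = x := Real.rpow_one _
        have h2 : ‖fm δ (j / x)‖ ≤ ((j / x : ℕ) : ℝ) := hfm _
        have h3 : (x : ℝ) * ((j / x : ℕ) : ℝ) = j := by
          exact_mod_cast Nat.mul_div_cancel' hxj
        calc ‖d x‖ * (x : ℝ) ^ a' * ‖fm δ (j / x)‖ ≤ T * x * ((j / x : ℕ) : ℝ) := by
              apply mul_le_mul _ h2 (norm_nonneg _) (by positivity)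
              exact mul_le_mul (hd x) h1 (by positivity) hT
          _ = T * j := by rw [mul_assoc, h3]
    _ = (j.divisors.filter (fun x => x ≤ N)).card * (T * j) := by
        rw [Finset.sum_const, nsmul_eq_mul]
    _ ≤ j * (T * j) := by
        apply mul_le_mul_of_nonneg_right _ (by positivity)
        exact_mod_cast (Finset.card_filter_le _ _).trans (Nat.card_divisors_le_self j)
    _ = T * (j : ℝ) ^ 2 := by ring

lemma hasSum_ec (a' δ : ℝ) (N : ℕ) (d : ℕ → ℂ) (s : ℂ) (hs : 3 < s.re) :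
    HasSum (fun j : ℕ => ec a' δ N d j * (j : ℂ) ^ (-s)) (PPr a' δ N d s) := by
  have hfm := (fm_series δ s hs).2
  have hs0 : -s ≠ 0 := by
    intro h
    have : s.re = 0 := by
      have := congrArg Complex.re h
      simpa using this
    linarith
  have key : ∀ x ∈ Finset.Icc 1 N, HasSum (fun j : ℕ => if x ∣ j then
      d x * (x : ℂ) ^ (a' : ℂ) * fm δ (j / x) * (j : ℂ) ^ (-s) else 0)
      (d x * (x : ℂ) ^ (-(s - (a' : ℝ))) * RR δ s) := by
    intro x hx
    rw [Finset.mem_Icc] at hx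
    have hx0 : 0 < x := hx.1
    have hinj : Function.Injective (fun m : ℕ => x * m) := fun m n h =>
      Nat.eq_of_mul_eq_mul_left hx0 h
    have hxc : (x : ℂ) ≠ 0 := by exact_mod_cast hx0.ne'
    rw [← hinj.hasSum_iff]
    · have h1 := hfm.mul_left (d x * (x : ℂ) ^ (-(s - (a' : ℝ))))
      refine h1.congr_fun ?_
      intro m
      simp only [Function.comp, dvd_mul_right, if_true]
      rw [Nat.mul_div_cancel_left m hx0]
      push_cast
      rw [Complex.natCast_mul_natCast_cpow, show -(s - (a' : ℂ)) = (a' : ℂ) + -s by ring,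
        Complex.cpow_add _ _ hxc]
      ring
    · intro j hj
      rw [if_neg]
      intro h
      apply hj
      obtain ⟨m, hm⟩ := h
      exact ⟨m, hm.symm⟩
  have hsum := hasSum_sum key
  have e1 : ∑ x ∈ Finset.Icc 1 N, d x * (x : ℂ) ^ (-(s - (a' : ℝ))) * RR δ s = PPr a' δ N d s := by
    rw [← Finset.sum_mul]
    rfl
  rw [e1] at hsum
  refine hsum.congr_fun ?_
  intro j
  rcases Nat.eq_zero_or_pos j with hj | hj
  · subst hj
    rw [ec_zero, zero_mul]
    symm
    apply Finset.sum_eq_zero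
    intro x _
    rw [if_pos (dvd_zero x), Nat.cast_zero, Complex.zero_cpow hs0, mul_zero]
  · rw [← Finset.sum_filter]
    unfold ec
    rw [Finset.sum_mul]
    apply Finset.sum_congr
    · ext x
      simp only [Finset.mem_filter, Finset.mem_Icc, Nat.mem_divisors]
      constructor
      · rintro ⟨⟨h1, h2⟩, h3⟩
        exact ⟨⟨Nat.pos_of_dvd_of_pos h1 hj, h3⟩, h1⟩
      · rintro ⟨⟨h1, h2⟩, h3⟩
        exact ⟨⟨h3, hj.ne'⟩, h2⟩
    · intro x _
      rfl

/-- the product splits -/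
lemma split (c a T : ℝ) (N : ℕ) (d : ℕ → ℂ) (s : ℂ) (hs : s ≠ 0) :
    DPs N d (s - (a / Real.log T : ℝ)) * PPr (a / Real.log T) (dl c T) N d s =
      SD c a T N d + FR (a / Real.log T) (dl c T) N d s + FL (a / Real.log T) (dl c T) N d s := by
  unfold DPs FR FL SD
  rw [Finset.sum_mul, ← Finset.sum_add_distrib, ← Finset.sum_add_distrib]
  apply Finset.sum_congr rfl
  intro k hk
  rw [Finset.mem_Icc] at hk
  have hk0 : 0 < k := hk.1
  have hkc : (k : ℂ) ≠ 0 := by exact_mod_cast hk0.ne'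
  have e1 : Finset.Icc 1 k = insert k (Finset.Icc 1 (k - 1)) := by
    ext x
    simp only [Finset.mem_Icc, Finset.mem_insert]
    omega
  have hnot : k ∉ Finset.Icc 1 (k - 1) := by
    simp only [Finset.mem_Icc, not_and, not_le]
    omega
  rw [e1, Finset.sum_insert hnot]
  have e2 : ec (a / Real.log T) (dl c T) N d k = ∑ x ∈ k.divisors, d x *
      (x : ℂ) ^ ((a / Real.log T : ℝ) : ℂ) * fm (dl c T) (k / x) := by
    unfold ec
    rw [Finset.filter_true_of_mem]
    intro x hx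
    exact (Nat.divisor_le hx).trans hk.2
  rw [← e2]
  have e3 : (k : ℂ) ^ (-(1 : ℂ) - (a / Real.log T : ℝ)) =
      (k : ℂ) ^ (s - (a / Real.log T : ℝ) - 1) * (k : ℂ) ^ (-s) := by
    rw [← Complex.cpow_add _ _ hkc]
    congr 1
    ring
  rw [e3]
  ring

lemma norm_dp (N : ℕ) (d : ℕ → ℂ) (T : ℝ) (hd : ∀ n, ‖d n‖ ≤ T) (s : ℂ)
    (hs : 0 ≤ s.re) : ‖DP N d s‖ ≤ N * T := by
  unfold DP
  calc ‖∑ n ∈ Finset.Icc 1 N, d n * (n : ℂ) ^ (-s)‖ ≤ ∑ n ∈ Finset.Icc 1 N, T := by
        apply norm_sum_le_of_le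
        intro n hn
        rw [Finset.mem_Icc] at hn
        rw [norm_mul, Complex.norm_natCast_cpow_of_pos hn.1, Complex.neg_re]
        have h1 : (n : ℝ) ^ (-s.re) ≤ 1 := by
          apply Real.rpow_le_one_of_one_le_of_nonpos
          · exact_mod_cast hn.1
          · linarith
        have h0 : 0 ≤ (n : ℝ) ^ (-s.re) := by positivity
        have hT : 0 ≤ T := (norm_nonneg _).trans (hd 0)
        calc ‖d n‖ * (n : ℝ) ^ (-s.re) ≤ T * 1 := mul_le_mul (hd n) h1 h0 hT
          _ = T := mul_one _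
    _ = N * T := by
        rw [Finset.sum_const, nsmul_eq_mul, Nat.card_Icc, Nat.add_sub_cancel]

lemma norm_dps (N : ℕ) (d : ℕ → ℂ) (T : ℝ) (hd : ∀ n, ‖d n‖ ≤ T) (s : ℂ)
    (hs : s.re ≤ 6) : ‖DPs N d s‖ ≤ N * (T * (N : ℝ) ^ 5) := by
  unfold DPs
  calc ‖∑ k ∈ Finset.Icc 1 N, (starRingEnd ℂ) (d k) * (k : ℂ) ^ (s - 1)‖
      ≤ ∑ n ∈ Finset.Icc 1 N, T * (N : ℝ) ^ 5 := by
        apply norm_sum_le_of_le
        intro n hn
        rw [Finset.mem_Icc] at hn
        rw [norm_mul, Complex.norm_natCast_cpow_of_pos hn.1, RCLike.norm_conj, Complex.sub_re,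
          Complex.one_re]
        have hn1 : (1 : ℝ) ≤ n := by exact_mod_cast hn.1
        have hnN : (n : ℝ) ≤ N := by exact_mod_cast hn.2
        have h1 : (n : ℝ) ^ (s.re - 1) ≤ (N : ℝ) ^ 5 := by
          calc (n : ℝ) ^ (s.re - 1) ≤ (n : ℝ) ^ (5 : ℝ) :=
                Real.rpow_le_rpow_of_exponent_le hn1 (by linarith)
            _ = (n : ℝ) ^ 5 := by norm_cast
            _ ≤ (N : ℝ) ^ 5 := pow_le_pow_left₀ (by positivity) hnN 5
        have hT : 0 ≤ T := (norm_nonneg _).trans (hd 0)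
        exact mul_le_mul (hd n) h1 (by positivity) hT
    _ = N * (T * (N : ℝ) ^ 5) := by
        rw [Finset.sum_const, nsmul_eq_mul, Nat.card_Icc, Nat.add_sub_cancel]

lemma bound_R (a' δ T : ℝ) (ha0 : 0 ≤ a') (ha1 : a' ≤ 1) (N : ℕ) (hN : 1 ≤ N) (hNT : (N : ℝ) ≤ T)
    (hT : 10 ≤ T) (d : ℕ → ℂ) (hd : ∀ n, ‖d n‖ ≤ T) (s : ℂ) (hs : 6 ≤ s.re) :
    ‖FR a' δ N d s‖ ≤ T ^ (20 : ℝ) * ((N : ℝ) / ((N : ℝ) + 1)) ^ s.re := by
  have hT0 : 0 < T := by linarith
  have hN0 : (0 : ℝ) < N := by exact_mod_cast hN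
  set r : ℝ := (N : ℝ) / ((N : ℝ) + 1) with hr
  have hr0 : 0 < r := by positivity
  have hr1 : 1 / 2 ≤ r := by
    rw [hr, div_le_div_iff₀ (by norm_num) (by positivity)]
    have : (1 : ℝ) ≤ N := by exact_mod_cast hN
    linarith
  have hterm : ∀ k ∈ Finset.Icc 1 N, ‖(starRingEnd ℂ) (d k) * (k : ℂ) ^ (s - (a' : ℝ) - 1) *
      (PPr a' δ N d s - ∑ j ∈ Finset.Icc 1 k, ec a' δ N d j * (j : ℂ) ^ (-s))‖ ≤
      T * (2 * T * T ^ 6 * r ^ (s.re - 6)) := by
    intro k hk
    rw [Finset.mem_Icc] at hk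
    have hk0 : 0 < k := hk.1
    have hk1 : (1 : ℝ) ≤ k := by exact_mod_cast hk0
    have hkN : (k : ℝ) ≤ N := by exact_mod_cast hk.2
    have hS := hasSum_ec a' δ N d s (by linarith)
    have hf : HasSum (fun j : ℕ => if j ∈ Finset.Icc 1 k then ec a' δ N d j * (j : ℂ) ^ (-s) else 0)
        (∑ j ∈ Finset.Icc 1 k, ec a' δ N d j * (j : ℂ) ^ (-s)) := by
      have h := hasSum_sum_of_ne_finset_zero (L := SummationFilter.unconditional ℕ)
        (f := fun j : ℕ => if j ∈ Finset.Icc 1 k then ec a' δ N d j * (j : ℂ) ^ (-s) else 0)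
        (s := Finset.Icc 1 k) (fun b hb => if_neg hb)
      have e : ∑ j ∈ Finset.Icc 1 k, (if j ∈ Finset.Icc 1 k then ec a' δ N d j * (j : ℂ) ^ (-s)
          else 0) = ∑ j ∈ Finset.Icc 1 k, ec a' δ N d j * (j : ℂ) ^ (-s) :=
        Finset.sum_congr rfl fun j hj => if_pos hj
      rwa [e] at h
    have hd1 := (hS.sub hf).mul_left ((k : ℂ) ^ (s - (a' : ℝ) - 1))
    have hg : HasSum (fun j : ℕ => T * T ^ 6 * r ^ (s.re - 6) * (1 / (j : ℝ) ^ 2))
        (T * T ^ 6 * r ^ (s.re - 6) * (Real.pi ^ 2 / 6)) := hasSum_zeta_two.mul_left _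
    have hb : ∀ j : ℕ, ‖(k : ℂ) ^ (s - (a' : ℝ) - 1) * (ec a' δ N d j * (j : ℂ) ^ (-s) -
        (if j ∈ Finset.Icc 1 k then ec a' δ N d j * (j : ℂ) ^ (-s) else 0))‖ ≤
        T * T ^ 6 * r ^ (s.re - 6) * (1 / (j : ℝ) ^ 2) := by
      intro j
      rcases Nat.eq_zero_or_pos j with hj | hj
      · subst hj
        rw [ec_zero]
        simp only [zero_mul, ite_self, sub_zero, mul_zero, norm_zero]
        positivity
      · by_cases hjk : j ∈ Finset.Icc 1 k
        · rw [if_pos hjk, sub_self, mul_zero, norm_zero]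
          positivity
        · rw [if_neg hjk, sub_zero]
          have hkj : k + 1 ≤ j := by
            simp only [Finset.mem_Icc, not_and, not_le] at hjk
            have := hjk hj
            omega
          have hj1 : (0 : ℝ) < j := by exact_mod_cast hj
          have hkj' : (k : ℝ) + 1 ≤ j := by exact_mod_cast hkj
          rw [norm_mul, norm_mul, Complex.norm_natCast_cpow_of_pos hk0,
            Complex.norm_natCast_cpow_of_pos hj, Complex.neg_re, Complex.sub_re, Complex.sub_re,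
            Complex.ofReal_re, Complex.one_re]
          have h1 : (k : ℝ) ^ (s.re - a' - 1) ≤ (k : ℝ) ^ s.re :=
            Real.rpow_le_rpow_of_exponent_le hk1 (by linarith)
          have h2 := ec_bound a' δ T ha1 hT0.le N d hd j
          have h3 : (k : ℝ) ^ s.re * (j : ℝ) ^ (-s.re) = ((k : ℝ) / j) ^ s.re := by
            rw [Real.rpow_neg hj1.le, Real.div_rpow (by positivity) hj1.le]
            rfl
          have h4 : ((k : ℝ) / j) ^ s.re = ((k : ℝ) / j) ^ (s.re - 6) * ((k : ℝ) / j) ^ 6 := by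
            have : ((k : ℝ) / j) ^ 6 = ((k : ℝ) / j) ^ (6 : ℝ) := by norm_cast
            rw [this, ← Real.rpow_add (by positivity)]
            congr 1
            ring
          have h5 : ((k : ℝ) / j) ^ (s.re - 6) ≤ r ^ (s.re - 6) := by
            apply Real.rpow_le_rpow (by positivity) _ (by linarith)
            rw [hr, div_le_div_iff₀ hj1 (by positivity)]
            nlinarith
          have h6 : ((k : ℝ) / j) ^ 6 ≤ T ^ 6 / (j : ℝ) ^ 4 := by
            rw [div_pow, div_le_div_iff₀ (by positivity) (by positivity)]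
            have hj1' : (1 : ℝ) ≤ j := by exact_mod_cast hj
            have hk6 : (k : ℝ) ^ 6 ≤ T ^ 6 := pow_le_pow_left₀ (by positivity) (by linarith) 6
            have hj46 : (j : ℝ) ^ 4 ≤ (j : ℝ) ^ 6 := pow_le_pow_right₀ hj1' (by norm_num)
            exact mul_le_mul hk6 hj46 (by positivity) (by positivity)
          calc (k : ℝ) ^ (s.re - a' - 1) * (‖ec a' δ N d j‖ * (j : ℝ) ^ (-s.re))
              ≤ (k : ℝ) ^ s.re * ((T * (j : ℝ) ^ 2) * (j : ℝ) ^ (-s.re)) := by
                apply mul_le_mul h1 _ (by positivity) (by positivity)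
                exact mul_le_mul_of_nonneg_right h2 (by positivity)
            _ = T * (j : ℝ) ^ 2 * ((k : ℝ) ^ s.re * (j : ℝ) ^ (-s.re)) := by ring
            _ = T * (j : ℝ) ^ 2 * (((k : ℝ) / j) ^ (s.re - 6) * ((k : ℝ) / j) ^ 6) := by
                rw [h3, h4]
            _ ≤ T * (j : ℝ) ^ 2 * (r ^ (s.re - 6) * (T ^ 6 / (j : ℝ) ^ 4)) := by
                apply mul_le_mul_of_nonneg_left _ (by positivity)
                exact mul_le_mul h5 h6 (by positivity) (by positivity)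
            _ = T * T ^ 6 * r ^ (s.re - 6) * (1 / (j : ℝ) ^ 2) := by
                field_simp
    have hn : ‖(k : ℂ) ^ (s - (a' : ℝ) - 1) * (PPr a' δ N d s -
        ∑ j ∈ Finset.Icc 1 k, ec a' δ N d j * (j : ℂ) ^ (-s))‖ ≤
        T * T ^ 6 * r ^ (s.re - 6) * (Real.pi ^ 2 / 6) := by
      rw [← hd1.tsum_eq]
      exact tsum_of_norm_bounded hg hb
    have hpi : Real.pi ^ 2 / 6 ≤ 2 := by
      have := Real.pi_lt_d2
      have := Real.pi_pos
      nlinarith
    rw [mul_assoc, norm_mul, RCLike.norm_conj]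
    apply mul_le_mul (hd k) _ (norm_nonneg _) hT0.le
    refine hn.trans ?_
    calc T * T ^ 6 * r ^ (s.re - 6) * (Real.pi ^ 2 / 6) ≤ T * T ^ 6 * r ^ (s.re - 6) * 2 :=
          mul_le_mul_of_nonneg_left hpi (by positivity)
      _ = 2 * T * T ^ 6 * r ^ (s.re - 6) := by ring
  have hsum : ‖FR a' δ N d s‖ ≤ N * (T * (2 * T * T ^ 6 * r ^ (s.re - 6))) := by
    unfold FR
    refine (norm_sum_le_of_le _ hterm).trans (le_of_eq ?_)
    rw [Finset.sum_const, nsmul_eq_mul, Nat.card_Icc, Nat.add_sub_cancel]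
  refine hsum.trans ?_
  have e1 : r ^ (s.re - 6) = r ^ s.re / r ^ 6 := by
    rw [Real.rpow_sub hr0]
    norm_cast
  have h6 : r ^ s.re / r ^ 6 ≤ 64 * r ^ s.re := by
    rw [div_le_iff₀ (by positivity)]
    have : (1 / 2 : ℝ) ^ 6 ≤ r ^ 6 := pow_le_pow_left₀ (by norm_num) hr1 6
    have h0 : 0 < r ^ s.re := Real.rpow_pos_of_pos hr0 _
    norm_num at this
    nlinarith
  have h20 : T ^ (20 : ℝ) = T ^ 20 := by norm_cast
  rw [e1, h20]
  have h0 : 0 < r ^ s.re := Real.rpow_pos_of_pos hr0 _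
  calc (N : ℝ) * (T * (2 * T * T ^ 6 * (r ^ s.re / r ^ 6)))
      ≤ T * (T * (2 * T * T ^ 6 * (64 * r ^ s.re))) := by
        apply mul_le_mul hNT _ (by positivity) hT0.le
        apply mul_le_mul_of_nonneg_left _ hT0.le
        exact mul_le_mul_of_nonneg_left h6 (by positivity)
    _ = 128 * T ^ 9 * r ^ s.re := by ring
    _ ≤ T ^ 20 * r ^ s.re := by
        apply mul_le_mul_of_nonneg_right _ h0.le
        have : (10 : ℝ) ^ 11 ≤ T ^ 11 := pow_le_pow_left₀ (by norm_num) hT 11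
        have h9 : 0 < T ^ 9 := by positivity
        calc 128 * T ^ 9 ≤ T ^ 11 * T ^ 9 := by
              apply mul_le_mul_of_nonneg_right _ h9.le
              norm_num at this
              linarith
          _ = T ^ 20 := by ring

lemma bound_L (a' δ T : ℝ) (ha0 : 0 ≤ a') (ha1 : a' ≤ 1) (N : ℕ) (hN : 1 ≤ N) (hNT : (N : ℝ) ≤ T)
    (hT : 10 ≤ T) (d : ℕ → ℂ) (hd : ∀ n, ‖d n‖ ≤ T) (s : ℂ) (hs : s.re ≤ 6) :
    ‖FL a' δ N d s‖ ≤ T ^ (20 : ℝ) * (((N : ℝ) + 1) / (N : ℝ)) ^ s.re := by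
  have hT0 : 0 < T := by linarith
  have hN0 : (0 : ℝ) < N := by exact_mod_cast hN
  set r : ℝ := ((N : ℝ) + 1) / (N : ℝ) with hr
  have hr0 : 0 < r := by positivity
  have hr1 : 1 ≤ r := by
    rw [hr, le_div_iff₀ hN0]
    linarith
  have hterm : ∀ k ∈ Finset.Icc 1 N, ‖(starRingEnd ℂ) (d k) * (k : ℂ) ^ (s - (a' : ℝ) - 1) *
      ∑ j ∈ Finset.Icc 1 (k - 1), ec a' δ N d j * (j : ℂ) ^ (-s)‖ ≤
      T * (T * (T * T ^ 2 * (r ^ s.re * T ^ 6))) := by
    intro k hk
    rw [Finset.mem_Icc] at hk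
    have hk0 : 0 < k := hk.1
    have hk1 : (1 : ℝ) ≤ k := by exact_mod_cast hk0
    have hkN : (k : ℝ) ≤ N := by exact_mod_cast hk.2
    rw [mul_assoc, norm_mul, RCLike.norm_conj]
    apply mul_le_mul (hd k) _ (norm_nonneg _) hT0.le
    rw [Finset.mul_sum]
    calc ‖∑ j ∈ Finset.Icc 1 (k - 1), (k : ℂ) ^ (s - (a' : ℝ) - 1) *
          (ec a' δ N d j * (j : ℂ) ^ (-s))‖
        ≤ ∑ j ∈ Finset.Icc 1 (k - 1), T * T ^ 2 * (r ^ s.re * T ^ 6) := by
          apply norm_sum_le_of_le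
          intro j hj
          rw [Finset.mem_Icc] at hj
          have hj0 : 0 < j := hj.1
          have hj1 : (0 : ℝ) < j := by exact_mod_cast hj0
          have hj1' : (1 : ℝ) ≤ j := by exact_mod_cast hj0
          have hjk : (j : ℝ) + 1 ≤ k := by
            have : j + 1 ≤ k := by omega
            exact_mod_cast this
          rw [norm_mul, norm_mul, Complex.norm_natCast_cpow_of_pos hk0,
            Complex.norm_natCast_cpow_of_pos hj0, Complex.neg_re, Complex.sub_re, Complex.sub_re,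
            Complex.ofReal_re, Complex.one_re]
          have h1 : (k : ℝ) ^ (s.re - a' - 1) ≤ (k : ℝ) ^ s.re :=
            Real.rpow_le_rpow_of_exponent_le hk1 (by linarith)
          have h2 := ec_bound a' δ T ha1 hT0.le N d hd j
          have h3 : (k : ℝ) ^ s.re * (j : ℝ) ^ (-s.re) = ((k : ℝ) / j) ^ s.re := by
            rw [Real.rpow_neg hj1.le, Real.div_rpow (by positivity) hj1.le]
            rfl
          have h4 : ((k : ℝ) / j) ^ s.re = ((k : ℝ) / j) ^ (s.re - 6) * ((k : ℝ) / j) ^ 6 := by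
            have : ((k : ℝ) / j) ^ 6 = ((k : ℝ) / j) ^ (6 : ℝ) := by norm_cast
            rw [this, ← Real.rpow_add (by positivity)]
            congr 1
            ring
          have h5 : ((k : ℝ) / j) ^ (s.re - 6) ≤ r ^ (s.re - 6) := by
            apply Real.rpow_le_rpow_of_nonpos hr0 _ (by linarith)
            rw [hr, div_le_div_iff₀ hN0 hj1]
            nlinarith
          have h5' : r ^ (s.re - 6) ≤ r ^ s.re :=
            Real.rpow_le_rpow_of_exponent_le hr1 (by linarith)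
          have h6 : ((k : ℝ) / j) ^ 6 ≤ T ^ 6 := by
            apply pow_le_pow_left₀ (by positivity)
            calc (k : ℝ) / j ≤ k := div_le_self (by positivity) hj1'
              _ ≤ T := by linarith
          calc (k : ℝ) ^ (s.re - a' - 1) * (‖ec a' δ N d j‖ * (j : ℝ) ^ (-s.re))
              ≤ (k : ℝ) ^ s.re * ((T * (j : ℝ) ^ 2) * (j : ℝ) ^ (-s.re)) := by
                apply mul_le_mul h1 _ (by positivity) (by positivity)
                exact mul_le_mul_of_nonneg_right h2 (by positivity)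
            _ = T * (j : ℝ) ^ 2 * ((k : ℝ) ^ s.re * (j : ℝ) ^ (-s.re)) := by ring
            _ = T * (j : ℝ) ^ 2 * (((k : ℝ) / j) ^ (s.re - 6) * ((k : ℝ) / j) ^ 6) := by
                rw [h3, h4]
            _ ≤ T * T ^ 2 * (r ^ s.re * T ^ 6) := by
                apply mul_le_mul _ _ (by positivity) (by positivity)
                · apply mul_le_mul_of_nonneg_left _ hT0.le
                  exact pow_le_pow_left₀ hj1.le (by linarith) 2
                · exact mul_le_mul (h5.trans h5') h6 (by positivity) (by positivity)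
      _ = (k - 1 : ℕ) * (T * T ^ 2 * (r ^ s.re * T ^ 6)) := by
          rw [Finset.sum_const, nsmul_eq_mul, Nat.card_Icc]
          congr 2
      _ ≤ T * (T * T ^ 2 * (r ^ s.re * T ^ 6)) := by
          apply mul_le_mul_of_nonneg_right _ (by positivity)
          have : ((k - 1 : ℕ) : ℝ) ≤ k := by exact_mod_cast Nat.sub_le k 1
          linarith
  have hsum : ‖FL a' δ N d s‖ ≤ N * (T * (T * (T * T ^ 2 * (r ^ s.re * T ^ 6)))) := by
    unfold FL
    refine (norm_sum_le_of_le _ hterm).trans (le_of_eq ?_)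
    rw [Finset.sum_const, nsmul_eq_mul, Nat.card_Icc, Nat.add_sub_cancel]
  refine hsum.trans ?_
  have h20 : T ^ (20 : ℝ) = T ^ 20 := by norm_cast
  rw [h20]
  have h0 : 0 < r ^ s.re := Real.rpow_pos_of_pos hr0 _
  calc (N : ℝ) * (T * (T * (T * T ^ 2 * (r ^ s.re * T ^ 6))))
      ≤ T * (T * (T * (T * T ^ 2 * (r ^ s.re * T ^ 6)))) :=
        mul_le_mul_of_nonneg_right hNT (by positivity)
    _ = T ^ 12 * r ^ s.re := by ring
    _ ≤ T ^ 20 * r ^ s.re := by
        apply mul_le_mul_of_nonneg_right _ h0.le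
        exact pow_le_pow_right₀ (by linarith) (by norm_num)

/-! analyticity -/

lemma dp_analytic (N : ℕ) (d : ℕ → ℂ) : Differentiable ℂ (DP N d) := by
  unfold DP
  intro s
  apply DifferentiableAt.fun_sum
  intro n hn
  rw [Finset.mem_Icc] at hn
  have : (n : ℂ) ≠ 0 := by
    have := hn.1
    exact_mod_cast (by omega : n ≠ 0)
  exact (((differentiableAt_id.neg).const_cpow (Or.inl this)).const_mul _)

lemma dps_analytic (N : ℕ) (d : ℕ → ℂ) : Differentiable ℂ (DPs N d) := by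
  unfold DPs
  intro s
  apply DifferentiableAt.fun_sum
  intro n hn
  rw [Finset.mem_Icc] at hn
  have : (n : ℂ) ≠ 0 := by
    have := hn.1
    exact_mod_cast (by omega : n ≠ 0)
  exact (((differentiableAt_id.sub_const _).const_cpow (Or.inl this)).const_mul _)

lemma cpow_diff (k : ℕ) (hk : 1 ≤ k) (b : ℂ) : Differentiable ℂ (fun s : ℂ => (k : ℂ) ^ (s - b - 1)) := by
  intro s
  have : (k : ℂ) ≠ 0 := by exact_mod_cast (by omega : k ≠ 0)
  exact ((differentiableAt_id.sub_const _).sub_const _).const_cpow (Or.inl this)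

lemma cpow_neg_diff (k : ℕ) (hk : 1 ≤ k) : Differentiable ℂ (fun s : ℂ => (k : ℂ) ^ (-s)) := by
  intro s
  have : (k : ℂ) ≠ 0 := by exact_mod_cast (by omega : k ≠ 0)
  exact (differentiableAt_id.neg).const_cpow (Or.inl this)

lemma FL_analytic (a' δ : ℝ) (N : ℕ) (d : ℕ → ℂ) (s : ℂ) : AnalyticAt ℂ (FL a' δ N d) s := by
  have : Differentiable ℂ (FL a' δ N d) := by
    unfold FL
    intro s
    apply DifferentiableAt.fun_sum
    intro k hk
    rw [Finset.mem_Icc] at hk
    apply DifferentiableAt.mul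
    · exact ((cpow_diff k hk.1 _) s).const_mul _
    · apply DifferentiableAt.fun_sum
      intro j hj
      rw [Finset.mem_Icc] at hj
      exact ((cpow_neg_diff j hj.1) s).const_mul _
  exact this.analyticAt s

lemma RR_analytic (δ : ℝ) (s : ℂ) (hs : 1 < s.re) : AnalyticAt ℂ (RR δ) s := by
  have hopen : IsOpen {s : ℂ | 1 < s.re} := isOpen_lt continuous_const Complex.continuous_re
  have hd : DifferentiableOn ℂ (RR δ) {s : ℂ | 1 < s.re} := by
    intro z hz
    have hz' : 1 < z.re := hz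
    have h1 : (z - hh δ).re = z.re := by rw [sub_re, RhoAux.hh_re, sub_zero]
    have h2 : (z + hh δ).re = z.re := by rw [add_re, RhoAux.hh_re, add_zero]
    have n1 : z - hh δ ≠ 1 := by
      intro h
      rw [h] at h1
      simp at h1
      linarith
    have n2 : z + hh δ ≠ 1 := by
      intro h
      rw [h] at h2
      simp at h2
      linarith
    have d1 : DifferentiableAt ℂ (fun s : ℂ => riemannZeta (s - hh δ)) z :=
      DifferentiableAt.comp z (differentiableAt_riemannZeta n1) (differentiableAt_id.sub_const _)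
    have d2 : DifferentiableAt ℂ (fun s : ℂ => riemannZeta (s + hh δ)) z :=
      DifferentiableAt.comp z (differentiableAt_riemannZeta n2) (differentiableAt_id.add_const _)
    refine (d1.div d2 ?_).differentiableWithinAt
    exact riemannZeta_ne_zero_of_one_lt_re (by rw [h2]; exact hz')
  exact hd.analyticAt (hopen.mem_nhds hs)

lemma PPr_analytic (a' δ : ℝ) (N : ℕ) (d : ℕ → ℂ) (s : ℂ) (hs : 1 < s.re) :
    AnalyticAt ℂ (PPr a' δ N d) s := by
  have h1 : AnalyticAt ℂ (fun s : ℂ => DP N d (s - (a' : ℝ))) s := by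
    have : Differentiable ℂ (fun s : ℂ => DP N d (s - (a' : ℝ))) :=
      (dp_analytic N d).comp (differentiable_id.sub_const _)
    exact this.analyticAt s
  exact h1.mul (RR_analytic δ s hs)

lemma FR_analytic (a' δ : ℝ) (N : ℕ) (d : ℕ → ℂ) (s : ℂ) (hs : 1 < s.re) :
    AnalyticAt ℂ (FR a' δ N d) s := by
  unfold FR
  apply Finset.analyticAt_fun_sum
  intro k hk
  rw [Finset.mem_Icc] at hk
  apply AnalyticAt.mul
  · exact ((((cpow_diff k hk.1 _)).const_mul _).analyticAt s)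
  · apply (PPr_analytic a' δ N d s hs).sub
    apply Finset.analyticAt_fun_sum
    intro j hj
    rw [Finset.mem_Icc] at hj
    exact (((cpow_neg_diff j hj.1)).const_mul _).analyticAt s

lemma ff_eq (c T : ℝ) (s : ℂ) (hs : 1 < s.re) :
    ff c T s = rho c T s * RR (dl c T) s := by
  have h1 : (s - hh (dl c T)).re = s.re := by rw [sub_re, RhoAux.hh_re, sub_zero]
  have h2 : (s + hh (dl c T)).re = s.re := by rw [add_re, RhoAux.hh_re, add_zero]
  have n1 : s - hh (dl c T) ≠ 0 := by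
    intro h
    rw [h] at h1
    simp at h1
    linarith
  have n2 : s + hh (dl c T) ≠ 0 := by
    intro h
    rw [h] at h2
    simp at h2
    linarith
  have g1 : Gammaℝ (s - hh (dl c T)) ≠ 0 := Gammaℝ_ne_zero_of_re_pos (by rw [h1]; linarith)
  have g2 : Gammaℝ (s + hh (dl c T)) ≠ 0 := Gammaℝ_ne_zero_of_re_pos (by rw [h2]; linarith)
  have e1 : completedRiemannZeta (s - hh (dl c T)) =
      Gammaℝ (s - hh (dl c T)) * riemannZeta (s - hh (dl c T)) := by
    rw [riemannZeta_def_of_ne_zero n1]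
    field_simp
  have e2 : completedRiemannZeta (s + hh (dl c T)) =
      Gammaℝ (s + hh (dl c T)) * riemannZeta (s + hh (dl c T)) := by
    rw [riemannZeta_def_of_ne_zero n2]
    field_simp
  unfold ff rho RR
  rw [e1, e2, mul_div_mul_comm]

end EvalAux

end Pool.Agent.KS6_1.SI
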