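import Pool.Agent.KS6_1.SI.Defs
import Pool.Agent.KS6_1.SI.Eval0
import Pool.Graph.R_seed8.H382P.FFhor

open Complex Filter Topology Set MeasureTheory

namespace Pool.Agent.KS6_1.SI

open SP

variable [Nu]

open SG (phi hh nn dl)

open EvalAux DeepAux SG.Deep

theorem eval_gen (hRH : RHs) (c a κ : ℝ) (hc : 0 < c) (hc1 : c < 1) (ha : 0 < a) (ha1 : a ≤ 1)
    (hκ : Nu.ν < κ) (hκ1 : κ < 1) :
    ∃ C T0 : ℝ, 0 < C ∧ 10 ≤ T0 ∧ ∀ T : ℝ, T0 ≤ T → ∀ t0 : ℝ, 11 / 10 * T ≤ t0 →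
    t0 ≤ 19 / 10 * T → ∀ d : ℕ → ℂ, (∀ n, ‖d n‖ ≤ T) →
    ‖(∫ t in (T + 2 * Real.log T)..(2 * T - 2 * Real.log T),
      (wt t0 (dd κ T) t * ‖DP (nn κ T) d (⟨1 / 2, t⟩ : ℂ)‖ ^ 2 : ℝ) *
        ff c T (⟨1 / 2 + a / Real.log T, t⟩ : ℂ)) -
      (Real.sqrt (2 * Real.pi) * dd κ T : ℝ) * cexp (-(Real.pi * c : ℝ) * I) *
        SD c a T (nn κ T) d‖ ≤
      C * dd κ T / Real.log T * (1 + ‖SD c a T (nn κ T) d‖) := by
  have hκ0 : 0 < κ := Nu.pos.trans hκ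
  obtain ⟨Ca, Ta, hCa, hTa, hhor⟩ := ff_hor hRH c a hc hc1 ha
  obtain ⟨Cb, Tb, hCb, hTb, hmain⟩ := main_int c a κ hc hc1 ha hκ hκ1
  obtain ⟨Tc, hTc, hR⟩ := deepR c a κ hc hc1 ha hκ hκ1
  obtain ⟨Td, hTd, hL⟩ := deepL c a κ hc hc1 ha hκ hκ1
  obtain ⟨Te, hTe, hgen⟩ := deep_gen c a κ hc hc1 ha hκ hκ1
  -- asymptotic facts
  have ev1 : ∀ᶠ T : ℝ in atTop, T ^ (9 : ℝ) * Real.exp (-(1 / 1600) * T ^ (2 * (κ - Nu.ν))) <
      1 / (24 * Real.exp 2) :=
    (tendsto_pow_exp' 9 (1 / 1600) (2 * (κ - Nu.ν)) (by norm_num) (by linarith)).eventually_lt_const (by positivity)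
  have ev2 : ∀ᶠ T : ℝ in atTop, Ca * (Real.log T) ^ 2 ≤ (1 / 1600) * T ^ (2 * (κ - Nu.ν)) := by
    have h := isLittleO_log_rpow_atTop (show 0 < κ - Nu.ν by linarith)
    rw [Asymptotics.isLittleO_iff] at h
    have hε : 0 < Real.sqrt (1 / (1600 * Ca)) := Real.sqrt_pos.mpr (by positivity)
    filter_upwards [h hε, eventually_ge_atTop 1] with T hT h1
    rw [Real.norm_of_nonneg (Real.log_nonneg h1),
      Real.norm_of_nonneg (Real.rpow_nonneg (by linarith) _)] at hT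
    have h2 := pow_le_pow_left₀ (Real.log_nonneg h1) hT 2
    rw [mul_pow, Real.sq_sqrt (by positivity), ← Real.rpow_natCast (T ^ (κ - Nu.ν)),
      ← Real.rpow_mul (by linarith)] at h2
    have e : (κ - Nu.ν) * ((2 : ℕ) : ℝ) = 2 * (κ - Nu.ν) := by push_cast; ring
    rw [e] at h2
    calc Ca * (Real.log T) ^ 2 ≤ Ca * (1 / (1600 * Ca) * T ^ (2 * (κ - Nu.ν))) :=
          mul_le_mul_of_nonneg_left h2 hCa.le
      _ = (1 / 1600) * T ^ (2 * (κ - Nu.ν)) := by field_simp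
  have ev6 : ∀ᶠ T : ℝ in atTop, Real.log T ≤ T / 40 := by
    have h := Real.isLittleO_log_id_atTop
    rw [Asymptotics.isLittleO_iff] at h
    filter_upwards [h (show (0 : ℝ) < 1 / 40 by norm_num), eventually_ge_atTop 1] with T hT h1
    simp only [id] at hT
    rw [Real.norm_of_nonneg (Real.log_nonneg h1), Real.norm_of_nonneg (by linarith)] at hT
    linarith
  have ev7 : ∀ᶠ T : ℝ in atTop, Real.log T ≤ dd κ T := by
    have h := isLittleO_log_rpow_atTop (show 0 < 1 - κ + Nu.ν by linarith [Nu.pos])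
    rw [Asymptotics.isLittleO_iff] at h
    filter_upwards [h (show (0 : ℝ) < 1 by norm_num), eventually_ge_atTop 1] with T hT h1
    rw [Real.norm_of_nonneg (Real.log_nonneg h1),
      Real.norm_of_nonneg (Real.rpow_nonneg (by linarith) _), one_mul] at hT
    exact hT
  have ev8 : ∀ᶠ T : ℝ in atTop, 1 ≤ Real.log T := Real.tendsto_log_atTop.eventually_ge_atTop _
  obtain ⟨Tf, hTf⟩ := eventually_atTop.mp (ev1.and (ev2.and (ev6.and (ev7.and (ev8.and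
    ((eventually_ge_atTop Ta).and ((eventually_ge_atTop Tb).and ((eventually_ge_atTop Tc).and
    ((eventually_ge_atTop Td).and (eventually_ge_atTop Te))))))))))
  refine ⟨Cb + 3, max Tf 10, by linarith, le_max_right _ _, ?_⟩
  intro T hT t0 ht1 ht2 d hd
  obtain ⟨f1, f2, f3, f4, f5, f6, f7, f8, f9, f10⟩ := hTf T ((le_max_left _ _).trans hT)
  obtain ⟨k1, k2, k3, k4, k5, k6, k8, -⟩ := hgen T f10
  have hTpos : 0 < T := by linarith
  have hlog : 0 < Real.log T := by linarith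
  have haL0 : 0 < a / Real.log T := by positivity
  have hD : 0 < dd κ T := by linarith
  have hDK := D2 κ T hTpos
  have hNT : (nn κ T : ℝ) ≤ T := by
    calc (nn κ T : ℝ) ≤ T ^ (1 - κ) := Nat.floor_le (Real.rpow_nonneg hTpos.le _)
      _ ≤ T ^ (1 : ℝ) := Real.rpow_le_rpow_of_exponent_le (by linarith) (by linarith)
      _ = T := Real.rpow_one _
  set U1 := T + 2 * Real.log T with hU1
  set U2 := 2 * T - 2 * Real.log T with hU2
  set D := dd κ T with hDdef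
  set N := nn κ T with hNdef
  set a' := a / Real.log T with ha'
  -- the integrand
  set K : ℂ → ℂ := fun s => phi t0 D (s - (a' : ℝ)) * (DP N d (s - (a' : ℝ)) *
    DPs N d (s - (a' : ℝ))) * ff c T s with hK
  have hKan : AnalyticOnNhd ℂ K (Set.Icc (1 / 2 + a') 6 ×ℂ Set.Icc U1 U2) := by
    intro s hs
    rw [mem_reProdIm] at hs
    obtain ⟨⟨hs1, hs2⟩, hs3, hs4⟩ := hs
    have a1 : AnalyticAt ℂ (fun s : ℂ => s - ((a' : ℝ) : ℂ)) s := by fun_prop
    have a2 : AnalyticAt ℂ (fun s : ℂ => phi t0 D (s - ((a' : ℝ) : ℂ))) s :=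
      AnalyticAt.fun_comp (phi_analytic _ _ _) a1
    have a3 : AnalyticAt ℂ (fun s : ℂ => DP N d (s - ((a' : ℝ) : ℂ))) s :=
      AnalyticAt.fun_comp ((dp_analytic N d).analyticAt _) a1
    have a4 : AnalyticAt ℂ (fun s : ℂ => DPs N d (s - ((a' : ℝ) : ℂ))) s :=
      AnalyticAt.fun_comp ((dps_analytic N d).analyticAt _) a1
    refine (a2.mul (a3.mul a4)).mul (hhor T f6 s hs1 hs2 (by linarith) (by linarith)).1
  have hrect := SG.rect_zero K (1 / 2 + a') 6 U1 U2 (by linarith) (by linarith) hKan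
  -- horizontal sides
  have hhorK : ∀ U : ℝ, (U = U1 ∨ U = U2) → ‖∫ x in (1 / 2 + a')..6, K (⟨x, U⟩ : ℂ)‖ ≤ 1 / 4 := by
    intro U hU
    have hUa : T + 1 ≤ U := by rcases hU with h | h <;> rw [h] <;> linarith
    have hUb : U ≤ 2 * T - 1 := by rcases hU with h | h <;> rw [h] <;> linarith
    have hUt : (T / 20) ^ 2 ≤ (U - t0) ^ 2 := by
      rcases hU with h | h
      · have : T / 20 ≤ t0 - U := by rw [h, hU1]; linarith
        nlinarith
      · have : T / 20 ≤ U - t0 := by rw [h, hU2]; linarith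
        nlinarith
    have hb : ∀ x ∈ Set.uIoc (1 / 2 + a') 6, ‖K (⟨x, U⟩ : ℂ)‖ ≤
        (Real.exp 2 * Real.exp (-(1 / 800) * T ^ (2 * (κ - Nu.ν)))) * (T ^ 9) *
          Real.exp (Ca * (Real.log T) ^ 2) := by
      intro x hx
      rw [uIoc_of_le (by linarith)] at hx
      obtain ⟨hx1, hx2⟩ := hx
      have hre : ((⟨x, U⟩ : ℂ) - (a' : ℝ)).re = x - a' := by simp
      have him : ((⟨x, U⟩ : ℂ) - (a' : ℝ)).im = U := by simp
      have b1 : ‖phi t0 D ((⟨x, U⟩ : ℂ) - (a' : ℝ))‖ ≤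
          Real.exp 2 * Real.exp (-(1 / 800) * T ^ (2 * (κ - Nu.ν))) := by
        rw [SG.phi_norm _ _ hD, ← Real.exp_add]
        apply Real.exp_le_exp.mpr
        rw [hre, him, div_le_iff₀ (by positivity)]
        have e : (2 + -(1 / 800) * T ^ (2 * (κ - Nu.ν))) * (2 * D ^ 2) = 4 * D ^ 2 - (T / 20) ^ 2 := by
          have : (T / 20) ^ 2 = T ^ 2 / 400 := by ring
          rw [this, ← hDK]
          ring
        rw [e]
        have : (x - a' - 1 / 2) ^ 2 ≤ 4 * D ^ 2 := by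
          have h1 : |x - a' - 1 / 2| ≤ 2 * D := by
            rw [abs_le]
            constructor <;> linarith
          calc (x - a' - 1 / 2) ^ 2 = |x - a' - 1 / 2| ^ 2 := (sq_abs _).symm
            _ ≤ (2 * D) ^ 2 := pow_le_pow_left₀ (abs_nonneg _) h1 2
            _ = _ := by ring
        linarith
      have b2 := norm_dp N d T hd ((⟨x, U⟩ : ℂ) - (a' : ℝ)) (by rw [hre]; linarith)
      have b3 := norm_dps N d T hd ((⟨x, U⟩ : ℂ) - (a' : ℝ)) (by rw [hre]; linarith)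
      have b4 := (hhor T f6 (⟨x, U⟩ : ℂ) hx1.le hx2 hUa hUb).2
      simp only [hK]
      rw [norm_mul, norm_mul, norm_mul]
      apply mul_le_mul _ b4 (norm_nonneg _) (by positivity)
      apply mul_le_mul b1 _ (by positivity) (by positivity)
      calc ‖DP N d ((⟨x, U⟩ : ℂ) - (a' : ℝ))‖ * ‖DPs N d ((⟨x, U⟩ : ℂ) - (a' : ℝ))‖
          ≤ (N * T) * (N * (T * (N : ℝ) ^ 5)) := mul_le_mul b2 b3 (norm_nonneg _) (by positivity)
        _ ≤ (T * T) * (T * (T * T ^ 5)) := by gcongr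
        _ = T ^ 9 := by ring
    refine (intervalIntegral.norm_integral_le_of_norm_le_const hb).trans ?_
    have hlen : |6 - (1 / 2 + a')| ≤ 6 := by
      rw [abs_of_nonneg (by linarith)]
      linarith
    have h9 : T ^ (9 : ℝ) = T ^ 9 := by norm_cast
    rw [h9] at f1
    have hexp : Real.exp (-(1 / 800) * T ^ (2 * (κ - Nu.ν))) * Real.exp (Ca * (Real.log T) ^ 2) ≤
        Real.exp (-(1 / 1600) * T ^ (2 * (κ - Nu.ν))) := by
      rw [← Real.exp_add]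
      apply Real.exp_le_exp.mpr
      linarith
    calc (Real.exp 2 * Real.exp (-(1 / 800) * T ^ (2 * (κ - Nu.ν)))) * (T ^ 9) *
          Real.exp (Ca * (Real.log T) ^ 2) * |6 - (1 / 2 + a')|
        ≤ (Real.exp 2 * Real.exp (-(1 / 800) * T ^ (2 * (κ - Nu.ν)))) * (T ^ 9) *
          Real.exp (Ca * (Real.log T) ^ 2) * 6 :=
          mul_le_mul_of_nonneg_left hlen (by positivity)
      _ = 6 * Real.exp 2 * (T ^ 9 * (Real.exp (-(1 / 800) * T ^ (2 * (κ - Nu.ν))) *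
          Real.exp (Ca * (Real.log T) ^ 2))) := by ring
      _ ≤ 6 * Real.exp 2 * (T ^ 9 * Real.exp (-(1 / 1600) * T ^ (2 * (κ - Nu.ν)))) := by
          apply mul_le_mul_of_nonneg_left _ (by positivity)
          exact mul_le_mul_of_nonneg_left hexp (by positivity)
      _ ≤ 6 * Real.exp 2 * (1 / (24 * Real.exp 2)) :=
          mul_le_mul_of_nonneg_left f1.le (by positivity)
      _ = 1 / 4 := by
          field_simp
          norm_num
  have hb1 := hhorK U1 (Or.inl rfl)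
  have hb2 := hhorK U2 (Or.inr rfl)
  unfold SG.rectI at hrect
  have hdiff : I * ((∫ t in U1..U2, K (⟨1 / 2 + a', t⟩ : ℂ)) - ∫ t in U1..U2, K (⟨6, t⟩ : ℂ)) =
      (∫ x in (1 / 2 + a')..6, K (⟨x, U1⟩ : ℂ)) - (∫ x in (1 / 2 + a')..6, K (⟨x, U2⟩ : ℂ)) := by
    linear_combination -hrect
  have hn : ‖(∫ t in U1..U2, K (⟨1 / 2 + a', t⟩ : ℂ)) - ∫ t in U1..U2, K (⟨6, t⟩ : ℂ)‖ ≤ 1 / 2 := by
    have : ‖I * ((∫ t in U1..U2, K (⟨1 / 2 + a', t⟩ : ℂ)) - ∫ t in U1..U2, K (⟨6, t⟩ : ℂ))‖ =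
        ‖(∫ t in U1..U2, K (⟨1 / 2 + a', t⟩ : ℂ)) - ∫ t in U1..U2, K (⟨6, t⟩ : ℂ)‖ := by
      rw [norm_mul, norm_I, one_mul]
    rw [← this, hdiff]
    have := norm_sub_le (∫ x in (1 / 2 + a')..6, K (⟨x, U1⟩ : ℂ))
      (∫ x in (1 / 2 + a')..6, K (⟨x, U2⟩ : ℂ))
    linarith
  -- the left side
  have hKleft : ∀ t : ℝ, K (⟨1 / 2 + a', t⟩ : ℂ) =
      (wt t0 D t * ‖DP N d (⟨1 / 2, t⟩ : ℂ)‖ ^ 2 : ℝ) * ff c T (⟨1 / 2 + a', t⟩ : ℂ) := by
    intro t
    have e0 : (⟨1 / 2 + a', t⟩ : ℂ) - (a' : ℝ) = (⟨1 / 2, t⟩ : ℂ) := by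
      apply Complex.ext <;> simp
    simp only [hK]
    rw [e0]
    congr 1
    have e1 : phi t0 D (⟨1 / 2, t⟩ : ℂ) = ((wt t0 D t : ℝ) : ℂ) := by
      unfold phi wt
      rw [Complex.ofReal_exp]
      congr 1
      have : (⟨1 / 2, t⟩ : ℂ) - 1 / 2 - I * t0 = I * ((t - t0 : ℝ) : ℂ) := by
        apply Complex.ext
        · simp
        · simp
      rw [this]
      push_cast
      rw [mul_pow, I_sq]
      ring
    have e2 : DPs N d (⟨1 / 2, t⟩ : ℂ) = (starRingEnd ℂ) (DP N d (⟨1 / 2, t⟩ : ℂ)) := by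
      unfold DPs DP
      rw [map_sum]
      apply Finset.sum_congr rfl
      intro k hk
      rw [Finset.mem_Icc] at hk
      rw [map_mul]
      congr 1
      have h1 : (k : ℂ).arg ≠ Real.pi := by
        rw [Complex.natCast_arg]
        exact Real.pi_pos.ne
      have h2 := Complex.conj_cpow (k : ℂ) ((starRingEnd ℂ) (-(⟨1 / 2, t⟩ : ℂ))) h1
      rw [Complex.conj_natCast, Complex.conj_conj] at h2
      rw [← h2]
      congr 1
      apply Complex.ext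
      · simp
        norm_num
      · simp
    rw [e1, e2, Complex.mul_conj]
    rw [Complex.normSq_eq_norm_sq]
    push_cast
    ring
  -- the right side
  have hKright : ∀ t ∈ Set.uIcc U1 U2, K (⟨6, t⟩ : ℂ) =
      phi t0 D (⟨6 - a', t⟩ : ℂ) * rho c T (⟨6, t⟩ : ℂ) * SD c a T N d +
      phi t0 D (⟨6 - a', t⟩ : ℂ) * rho c T (⟨6, t⟩ : ℂ) * FR a' (dl c T) N d (⟨6, t⟩ : ℂ) +
      phi t0 D (⟨6 - a', t⟩ : ℂ) * rho c T (⟨6, t⟩ : ℂ) * FL a' (dl c T) N d (⟨6, t⟩ : ℂ) := by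
    intro t ht
    have e0 : (⟨6, t⟩ : ℂ) - (a' : ℝ) = (⟨6 - a', t⟩ : ℂ) := by
      apply Complex.ext <;> simp
    have hs0 : (⟨6, t⟩ : ℂ) ≠ 0 := by
      intro h
      have := congrArg Complex.re h
      simp at this
    have h1 := split c a T N d (⟨6, t⟩ : ℂ) hs0
    rw [← ha'] at h1
    simp only [hK]
    rw [ff_eq c T _ (by simp only; norm_num)]
    unfold PPr at h1
    rw [e0] at h1 ⊢
    linear_combination (phi t0 D (⟨6 - a', t⟩ : ℂ) * rho c T (⟨6, t⟩ : ℂ)) * h1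
  have hcline : Continuous (fun t : ℝ => (⟨6, t⟩ : ℂ)) := by
    have e : (fun t : ℝ => (⟨6, t⟩ : ℂ)) = fun t : ℝ => ((6 : ℝ) : ℂ) + I * (t : ℂ) := by
      funext t
      apply Complex.ext <;> simp
    rw [e]
    fun_prop
  have hcline' : Continuous (fun t : ℝ => (⟨6 - a', t⟩ : ℂ)) := by
    have e : (fun t : ℝ => (⟨6 - a', t⟩ : ℂ)) = fun t : ℝ => ((6 - a' : ℝ) : ℂ) + I * (t : ℂ) := by
      funext t
      apply Complex.ext <;> simp
    rw [e]
    fun_prop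
  have hcphi : ContinuousOn (fun t : ℝ => phi t0 D (⟨6 - a', t⟩ : ℂ) * rho c T (⟨6, t⟩ : ℂ))
      (Set.uIcc U1 U2) := by
    apply ContinuousOn.mul
    · have hp : Continuous (phi t0 D) :=
        continuous_iff_continuousAt.mpr fun s => (phi_analytic t0 D s).continuousAt
      exact (hp.comp hcline').continuousOn
    · intro t ht
      rw [uIcc_of_le (by linarith)] at ht
      have h1 := (rho_analytic c T (by linarith) k8 (⟨6, t⟩ : ℂ)
        (by simp only; linarith [ht.1])).continuousAt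
      exact (ContinuousAt.comp (f := fun t : ℝ => (⟨6, t⟩ : ℂ)) h1
        hcline.continuousAt).continuousWithinAt
  have hi0 : IntervalIntegrable (fun t : ℝ => phi t0 D (⟨6 - a', t⟩ : ℂ) *
      rho c T (⟨6, t⟩ : ℂ) * SD c a T N d) volume U1 U2 :=
    (hcphi.mul continuousOn_const).intervalIntegrable
  have hi1 : IntervalIntegrable (fun t : ℝ => phi t0 D (⟨6 - a', t⟩ : ℂ) *
      rho c T (⟨6, t⟩ : ℂ) * FR a' (dl c T) N d (⟨6, t⟩ : ℂ)) volume U1 U2 := by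
    apply ContinuousOn.intervalIntegrable
    apply hcphi.mul
    intro t ht
    have h1 := (FR_analytic a' (dl c T) N d (⟨6, t⟩ : ℂ) (by simp only; norm_num)).continuousAt
    exact (ContinuousAt.comp (f := fun t : ℝ => (⟨6, t⟩ : ℂ)) h1
      hcline.continuousAt).continuousWithinAt
  have hi2 : IntervalIntegrable (fun t : ℝ => phi t0 D (⟨6 - a', t⟩ : ℂ) *
      rho c T (⟨6, t⟩ : ℂ) * FL a' (dl c T) N d (⟨6, t⟩ : ℂ)) volume U1 U2 := by
    apply ContinuousOn.intervalIntegrable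
    apply hcphi.mul
    intro t ht
    have h1 := (FL_analytic a' (dl c T) N d (⟨6, t⟩ : ℂ)).continuousAt
    exact (ContinuousAt.comp (f := fun t : ℝ => (⟨6, t⟩ : ℂ)) h1
      hcline.continuousAt).continuousWithinAt
  have hright : ∫ t in U1..U2, K (⟨6, t⟩ : ℂ) =
      (∫ t in U1..U2, phi t0 D (⟨6 - a', t⟩ : ℂ) * rho c T (⟨6, t⟩ : ℂ)) * SD c a T N d +
      (∫ t in U1..U2, phi t0 D (⟨6 - a', t⟩ : ℂ) * rho c T (⟨6, t⟩ : ℂ) *
        FR a' (dl c T) N d (⟨6, t⟩ : ℂ)) +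
      ∫ t in U1..U2, phi t0 D (⟨6 - a', t⟩ : ℂ) * rho c T (⟨6, t⟩ : ℂ) *
        FL a' (dl c T) N d (⟨6, t⟩ : ℂ) := by
    rw [intervalIntegral.integral_congr hKright,
      intervalIntegral.integral_add (hi0.add hi1) hi2, intervalIntegral.integral_add hi0 hi1,
      intervalIntegral.integral_mul_const]
  have m1 := hmain T f7 t0 ht1 ht2
  have m2 := hR T f8 t0 ht1 ht2 (FR a' (dl c T) N d)
    (fun s hs _ => FR_analytic a' (dl c T) N d s (by linarith))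
    (fun s hs _ => bound_R a' (dl c T) T haL0.le k5 N k3 hNT (by linarith) d hd s hs)
  have m3 := hL T f9 t0 ht1 ht2 (FL a' (dl c T) N d)
    (fun s hs _ => FL_analytic a' (dl c T) N d s)
    (fun s hs _ => bound_L a' (dl c T) T haL0.le k5 N k3 hNT (by linarith) d hd s hs)
  rw [← hU1, ← hU2, ← hDdef, ← ha'] at m1 m2 m3
  have hleft : (∫ t in U1..U2, (wt t0 D t * ‖DP N d (⟨1 / 2, t⟩ : ℂ)‖ ^ 2 : ℝ) *
      ff c T (⟨1 / 2 + a', t⟩ : ℂ)) = ∫ t in U1..U2, K (⟨1 / 2 + a', t⟩ : ℂ) := by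
    apply intervalIntegral.integral_congr
    intro t _
    exact (hKleft t).symm
  rw [hleft]
  have hfin : (∫ t in U1..U2, K (⟨1 / 2 + a', t⟩ : ℂ)) -
      (Real.sqrt (2 * Real.pi) * D : ℝ) * cexp (-(Real.pi * c : ℝ) * I) * SD c a T N d =
      ((∫ t in U1..U2, K (⟨1 / 2 + a', t⟩ : ℂ)) - ∫ t in U1..U2, K (⟨6, t⟩ : ℂ)) +
      ((∫ t in U1..U2, phi t0 D (⟨6 - a', t⟩ : ℂ) * rho c T (⟨6, t⟩ : ℂ)) -
        (Real.sqrt (2 * Real.pi) * D : ℝ) * cexp (-(Real.pi * c : ℝ) * I)) * SD c a T N d +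
      (∫ t in U1..U2, phi t0 D (⟨6 - a', t⟩ : ℂ) * rho c T (⟨6, t⟩ : ℂ) *
        FR a' (dl c T) N d (⟨6, t⟩ : ℂ)) +
      ∫ t in U1..U2, phi t0 D (⟨6 - a', t⟩ : ℂ) * rho c T (⟨6, t⟩ : ℂ) *
        FL a' (dl c T) N d (⟨6, t⟩ : ℂ) := by
    rw [hright]
    ring
  rw [hfin]
  have hnS : 0 ≤ ‖SD c a T N d‖ := norm_nonneg _
  have hDL : 1 ≤ D / Real.log T := by
    rw [le_div_iff₀ hlog]
    linarith
  calc _ ≤ ‖(∫ t in U1..U2, K (⟨1 / 2 + a', t⟩ : ℂ)) - ∫ t in U1..U2, K (⟨6, t⟩ : ℂ)‖ +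
        ‖((∫ t in U1..U2, phi t0 D (⟨6 - a', t⟩ : ℂ) * rho c T (⟨6, t⟩ : ℂ)) -
        (Real.sqrt (2 * Real.pi) * D : ℝ) * cexp (-(Real.pi * c : ℝ) * I)) * SD c a T N d‖ +
        ‖∫ t in U1..U2, phi t0 D (⟨6 - a', t⟩ : ℂ) * rho c T (⟨6, t⟩ : ℂ) *
        FR a' (dl c T) N d (⟨6, t⟩ : ℂ)‖ +
        ‖∫ t in U1..U2, phi t0 D (⟨6 - a', t⟩ : ℂ) * rho c T (⟨6, t⟩ : ℂ) *
        FL a' (dl c T) N d (⟨6, t⟩ : ℂ)‖ := by
        refine (norm_add_le _ _).trans (add_le_add_left ?_ _)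
        refine (norm_add_le _ _).trans (add_le_add_left ?_ _)
        exact norm_add_le _ _
    _ ≤ 1 / 2 + Cb * D / Real.log T * ‖SD c a T N d‖ + 1 + 1 := by
        apply add_le_add _ m3
        apply add_le_add _ m2
        apply add_le_add hn
        rw [norm_mul]
        exact mul_le_mul_of_nonneg_right m1 hnS
    _ ≤ (Cb + 3) * D / Real.log T * (1 + ‖SD c a T N d‖) := by
        have e : (Cb + 3) * D / Real.log T * (1 + ‖SD c a T N d‖) =
          Cb * D / Real.log T * ‖SD c a T N d‖ + Cb * (D / Real.log T) + 3 * (D / Real.log T) +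
          3 * (D / Real.log T) * ‖SD c a T N d‖ := by ring
        rw [e]
        have h1 : 0 ≤ Cb * (D / Real.log T) := by positivity
        have h2 : 0 ≤ 3 * (D / Real.log T) * ‖SD c a T N d‖ := by positivity
        linarith

end Pool.Agent.KS6_1.SI
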