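import Pool.Agent.KS6_1.SI.Mom
import Pool.Graph.R_seed8.H370R2.NT

/-! P5: moments of prime sums -/

open Complex Filter Topology Set MeasureTheory

namespace Pool.Agent.KS6_1.SI

open SP

variable [Nu]

open SG (phi hh nn dl)

namespace MomQAux

theorem gauss_shift_int (x : ℝ) : Integrable (fun u : ℝ => Real.exp (-(u - x) ^ 2 / 2)) := by
  have h := (integrable_exp_neg_mul_sq (b := 1 / 2) (by norm_num)).comp_sub_right x
  refine h.congr (Eventually.of_forall fun u => ?_)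
  simp only
  congr 1
  ring

theorem gauss_shift_val (x : ℝ) : ∫ u : ℝ, Real.exp (-(u - x) ^ 2 / 2) = Real.sqrt (2 * Real.pi) := by
  have h := integral_gaussian (1 / 2)
  have h2 := integral_sub_right_eq_self (fun u : ℝ => Real.exp (-(1 / 2) * u ^ 2)) x (μ := volume)
  rw [h] at h2
  have e : Real.pi / (1 / 2) = 2 * Real.pi := by ring
  rw [e] at h2
  rw [← h2]
  congr 1
  ext u
  congr 1
  ring

theorem bt_le (T : ℝ) (hT : 1 ≤ T) (W : ℝ → ℂ) (hW : ∀ u ∈ Set.Icc 0 (Real.log T), ‖W u‖ ≤ 1)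
    (x : ℝ) : ‖bt T W x‖ ≤ 1 := by
  have hL : 0 ≤ Real.log T := Real.log_nonneg hT
  have hs : 0 < Real.sqrt (2 * Real.pi) := by positivity
  have h1 : ‖∫ u in (0 : ℝ)..Real.log T, W u * (Real.exp (-(u - Real.log x) ^ 2 / 2) : ℂ)‖ ≤
      ∫ u in (0 : ℝ)..Real.log T, Real.exp (-(u - Real.log x) ^ 2 / 2) := by
    apply intervalIntegral.norm_integral_le_of_norm_le hL
    · refine Eventually.of_forall fun u hu => ?_
      rw [norm_mul, Complex.norm_real, Real.norm_of_nonneg (Real.exp_pos _).le]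
      calc _ ≤ 1 * Real.exp (-(u - Real.log x) ^ 2 / 2) :=
            mul_le_mul_of_nonneg_right (hW u ⟨hu.1.le, hu.2⟩) (Real.exp_pos _).le
        _ = _ := one_mul _
    · exact (gauss_shift_int _).intervalIntegrable
  have h2 : ∫ u in (0 : ℝ)..Real.log T, Real.exp (-(u - Real.log x) ^ 2 / 2) ≤
      Real.sqrt (2 * Real.pi) := by
    rw [intervalIntegral.integral_of_le hL, ← gauss_shift_val (Real.log x)]
    exact setIntegral_le_integral (gauss_shift_int _)
      (Eventually.of_forall fun u => (Real.exp_pos _).le)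
  unfold bt
  rw [norm_mul, Complex.norm_real, Real.norm_of_nonneg (by positivity)]
  rw [one_div, inv_mul_le_iff₀ hs, mul_one]
  exact h1.trans h2

theorem prime_sq : ∃ C : ℝ, 0 < C ∧ ∀ y : ℝ, 0 ≤ y →
    ∑ p ∈ (Finset.Icc 1 ⌊Real.exp y⌋₊).filter Nat.Prime, (Real.log p) ^ 2 / p ≤ C * y ^ 2 := by
  obtain ⟨C, hC, h⟩ := H370.lam_sq_sum
  refine ⟨1 / 2 + 4 * C, by linarith, fun y hy => ?_⟩
  by_cases h2 : Real.exp y < 2
  · have : (Finset.Icc 1 ⌊Real.exp y⌋₊).filter Nat.Prime = ∅ := by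
      rw [Finset.filter_eq_empty_iff]
      intro p hp hpp
      rw [Finset.mem_Icc] at hp
      have h3 := hpp.two_le
      have h4 : ((⌊Real.exp y⌋₊ : ℕ) : ℝ) ≤ Real.exp y := Nat.floor_le (Real.exp_pos _).le
      have h5 : ((p : ℕ) : ℝ) ≤ ((⌊Real.exp y⌋₊ : ℕ) : ℝ) := by exact_mod_cast hp.2
      have h6 : (2 : ℝ) ≤ p := by exact_mod_cast h3
      linarith
    rw [this, Finset.sum_empty]
    positivity
  · push Not at h2
    have h3 : 69 / 100 ≤ y := by
      have h4 : Real.log 2 ≤ y := by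
        rw [Real.log_le_iff_le_exp (by norm_num)]
        exact h2
      have := Real.log_two_gt_d9
      linarith
    have h5 := h (Real.exp y) (by linarith)
    rw [Real.log_exp] at h5
    calc _ ≤ ∑ n ∈ Finset.Icc 1 ⌊Real.exp y⌋₊, (ArithmeticFunction.vonMangoldt n) ^ 2 / n := by
          calc _ = ∑ p ∈ (Finset.Icc 1 ⌊Real.exp y⌋₊).filter Nat.Prime,
                (ArithmeticFunction.vonMangoldt p) ^ 2 / p := by
                refine Finset.sum_congr rfl fun p hp => ?_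
                rw [ArithmeticFunction.vonMangoldt_apply_prime (Finset.mem_filter.mp hp).2]
            _ ≤ _ := Finset.sum_le_sum_of_subset_of_nonneg (Finset.filter_subset _ _)
                  (fun _ _ _ => by positivity)
      _ ≤ y ^ 2 / 2 + C * (y + 1) := h5
      _ ≤ _ := by
          have h6 : y + 1 ≤ 4 * y ^ 2 := by nlinarith
          have h7 := mul_le_mul_of_nonneg_left h6 hC.le
          nlinarith

theorem core (κ : ℝ) (hκ : 0 < κ) (hκ1 : κ < 1) :
    ∃ C T0 : ℝ, 0 < C ∧ 10 ≤ T0 ∧ ∀ T : ℝ, T0 ≤ T → ∀ (t0 : ℝ) (k : ℕ), 1 ≤ k → ∀ W : ℝ → ℂ,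
    (∀ u ∈ Set.Icc 0 (Real.log T), ‖W u‖ ≤ 1) →
    (Integrable (fun t : ℝ => wt t0 (dd κ T) t * ‖QW T t (ell κ T k) W‖ ^ (2 * k)) ∧
      ∫ t : ℝ, wt t0 (dd κ T) t * ‖QW T t (ell κ T k) W‖ ^ (2 * k) ≤ dd κ T * (C / k) ^ k) := by
  obtain ⟨T0, h10, hT0⟩ := mom_prime κ hκ hκ1
  obtain ⟨C, hC, hpr⟩ := prime_sq
  refine ⟨3 * C, T0, by linarith, h10, fun T hT t0 k hk W hW => ?_⟩
  have hT10 : 10 ≤ T := h10.trans hT
  have hTpos : 0 < T := by linarith
  have hL : 0 < Real.log T := Real.log_pos (by linarith)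
  have hk0 : (0 : ℝ) < k := by exact_mod_cast hk
  have hD : 0 < dd κ T := Deep.dd_pos κ T hTpos
  set X := ⌊Real.exp (2 * ell κ T k)⌋₊ with hX
  have h2l : 2 * ell κ T k = (1 - κ) * Real.log T / k := by
    unfold ell; field_simp
  have hXk : (X : ℝ) ^ k ≤ T ^ (1 - κ) := by
    have h1 : (X : ℝ) ≤ Real.exp (2 * ell κ T k) := Nat.floor_le (Real.exp_pos _).le
    calc (X : ℝ) ^ k ≤ (Real.exp (2 * ell κ T k)) ^ k :=
          pow_le_pow_left₀ (Nat.cast_nonneg _) h1 k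
      _ = T ^ (1 - κ) := by
          rw [← Real.exp_nat_mul, h2l, Real.rpow_def_of_pos hTpos]
          congr 1
          field_simp
  let β : ℕ → ℂ := fun p => ((1 / Real.log T : ℝ) : ℂ) * ((Real.log p : ℝ) : ℂ) *
    (p : ℂ) ^ (-(1 / 2 : ℂ)) * bt T W p
  have hQ : ∀ t : ℝ, QW T t (ell κ T k) W =
      ∑ p ∈ (Finset.Icc 1 X).filter Nat.Prime, β p * (p : ℂ) ^ (-(I * t)) := by
    intro t
    unfold QW
    rw [Finset.mul_sum]
    refine Finset.sum_congr rfl fun p hp => ?_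
    have hp0 : (p : ℂ) ≠ 0 := by exact_mod_cast (Finset.mem_filter.mp hp).2.ne_zero
    have h1 : (p : ℂ) ^ (-(1 / 2 : ℂ) - I * t) = (p : ℂ) ^ (-(1 / 2 : ℂ)) * (p : ℂ) ^ (-(I * t)) := by
      rw [← Complex.cpow_add _ _ hp0]
      rfl
    rw [h1]
    simp only [β]
    ring
  obtain ⟨h1, h2⟩ := hT0 T hT t0 k X β hk hXk
  simp_rw [hQ]
  refine ⟨h1, h2.trans ?_⟩
  have hβ : ∑ p ∈ (Finset.Icc 1 X).filter Nat.Prime, ‖β p‖ ^ 2 ≤ C / k ^ 2 := by
    have h3 : ∀ p ∈ (Finset.Icc 1 X).filter Nat.Prime, ‖β p‖ ^ 2 ≤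
        (1 / Real.log T ^ 2) * ((Real.log p) ^ 2 / p) := by
      intro p hp
      have hpp := (Finset.mem_filter.mp hp).2
      have hp0 : (0 : ℝ) < p := by exact_mod_cast hpp.pos
      have h4 : ‖(p : ℂ) ^ (-(1 / 2 : ℂ))‖ ^ 2 = 1 / p := by
        rw [Complex.norm_natCast_cpow_of_pos hpp.pos, ← Real.rpow_natCast, ← Real.rpow_mul hp0.le]
        have : (-(1 / 2 : ℂ)).re * ((2 : ℕ) : ℝ) = -1 := by
          simp
        rw [this, Real.rpow_neg_one, one_div]
      have h5 : ‖bt T W p‖ ^ 2 ≤ 1 := by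
        have := bt_le T (by linarith) W hW p
        calc _ ≤ (1 : ℝ) ^ 2 := pow_le_pow_left₀ (norm_nonneg _) this 2
          _ = 1 := one_pow 2
      simp only [β]
      rw [norm_mul, norm_mul, norm_mul, mul_pow, mul_pow, mul_pow, h4, Complex.norm_real,
        Complex.norm_real, Real.norm_eq_abs, Real.norm_eq_abs, sq_abs, sq_abs]
      calc (1 / Real.log T) ^ 2 * (Real.log p) ^ 2 * (1 / p) * ‖bt T W p‖ ^ 2
          ≤ (1 / Real.log T) ^ 2 * (Real.log p) ^ 2 * (1 / p) * 1 :=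
            mul_le_mul_of_nonneg_left h5 (by positivity)
        _ = _ := by ring
    have hell : 0 ≤ 2 * ell κ T k := by
      rw [h2l]
      have : 0 < 1 - κ := by linarith
      positivity
    calc _ ≤ ∑ p ∈ (Finset.Icc 1 X).filter Nat.Prime, (1 / Real.log T ^ 2) * ((Real.log p) ^ 2 / p) :=
          Finset.sum_le_sum h3
      _ = (1 / Real.log T ^ 2) * ∑ p ∈ (Finset.Icc 1 X).filter Nat.Prime, ((Real.log p) ^ 2 / p) := by
          rw [Finset.mul_sum]
      _ ≤ (1 / Real.log T ^ 2) * (C * (2 * ell κ T k) ^ 2) :=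
          mul_le_mul_of_nonneg_left (hpr _ hell) (by positivity)
      _ = C * (1 - κ) ^ 2 / k ^ 2 := by
          rw [h2l]
          field_simp
      _ ≤ C / k ^ 2 := by
          apply div_le_div_of_nonneg_right _ (by positivity)
          have h8 : (1 - κ) ^ 2 ≤ 1 := by nlinarith
          have h9 := mul_le_mul_of_nonneg_left h8 hC.le
          linarith
  have hfac : (k.factorial : ℝ) ≤ (k : ℝ) ^ k := by exact_mod_cast Nat.factorial_le_pow k
  have h3k : (3 : ℝ) ≤ 3 ^ k := by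
    calc (3 : ℝ) = 3 ^ 1 := by norm_num
      _ ≤ 3 ^ k := pow_le_pow_right₀ (by norm_num) hk
  calc 3 * dd κ T * k.factorial * (∑ p ∈ (Finset.Icc 1 X).filter Nat.Prime, ‖β p‖ ^ 2) ^ k
      ≤ 3 ^ k * dd κ T * (k : ℝ) ^ k * (C / k ^ 2) ^ k := by
        apply mul_le_mul
        · apply mul_le_mul (mul_le_mul_of_nonneg_right h3k hD.le) hfac (by positivity) (by positivity)
        · exact pow_le_pow_left₀ (Finset.sum_nonneg fun _ _ => by positivity) hβ k
        · exact pow_nonneg (Finset.sum_nonneg fun _ _ => by positivity) k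
        · positivity
    _ = dd κ T * (3 * C / k) ^ k := by
        rw [show 3 * C / (k : ℝ) = 3 * (k * (C / (k : ℝ) ^ 2)) by field_simp, mul_pow, mul_pow]
        ring

end MomQAux

open MomQAux in
theorem mom_Q (κ a : ℝ) (hκ : 0 < κ) (hκ1 : κ < 1) (ha : 0 < a) :
    ∃ C T0 : ℝ, 0 < C ∧ 10 ≤ T0 ∧ ∀ T : ℝ, T0 ≤ T → ∀ (t0 : ℝ) (k : ℕ), 1 ≤ k →
    (Integrable (fun t : ℝ => wt t0 (dd κ T) t * ‖Q1 κ T k t‖ ^ (2 * k)) ∧
      ∫ t : ℝ, wt t0 (dd κ T) t * ‖Q1 κ T k t‖ ^ (2 * k) ≤ dd κ T * (C / k) ^ k) ∧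
    (Integrable (fun t : ℝ => wt t0 (dd κ T) t * ‖Q2 κ a T k t‖ ^ (2 * k)) ∧
      ∫ t : ℝ, wt t0 (dd κ T) t * ‖Q2 κ a T k t‖ ^ (2 * k) ≤ dd κ T * (C / k) ^ k) := by
  obtain ⟨C, T0, hC, h10, hT0⟩ := core κ hκ hκ1
  refine ⟨C, T0, hC, h10, fun T hT t0 k hk => ?_⟩
  have hT10 : 10 ≤ T := h10.trans hT
  have hL : 0 < Real.log T := Real.log_pos (by linarith)
  have hk0 : (0 : ℝ) < k := by exact_mod_cast hk
  have hl : 0 < ell κ T k := by
    unfold ell
    have : 0 < 1 - κ := by linarith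
    positivity
  have hw1 : ∀ u : ℝ, 0 ≤ u → max 0 (1 - |u| / ell κ T k) ^ 2 ≤ 1 := by
    intro u hu
    have h1 : max 0 (1 - |u| / ell κ T k) ≤ 1 := by
      apply max_le (by norm_num)
      have : 0 ≤ |u| / ell κ T k := by positivity
      linarith
    calc _ ≤ (1 : ℝ) ^ 2 := pow_le_pow_left₀ (le_max_left _ _) h1 2
      _ = 1 := one_pow 2
  constructor
  · apply hT0 T hT t0 k hk
    intro u hu
    unfold W1
    rw [Complex.norm_real, Real.norm_of_nonneg (by positivity)]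
    exact hw1 u hu.1
  · apply hT0 T hT t0 k hk
    intro u hu
    unfold W2
    rw [Complex.norm_real, Real.norm_of_nonneg (by positivity)]
    have h2 : Real.exp (-a * |u| / Real.log T) ≤ 1 := by
      rw [Real.exp_le_one_iff]
      have : 0 ≤ a * |u| / Real.log T := by positivity
      have e : -a * |u| / Real.log T = -(a * |u| / Real.log T) := by ring
      rw [e]
      linarith
    calc _ ≤ (1 : ℝ) * 1 := mul_le_mul h2 (hw1 u hu.1) (by positivity) (by norm_num)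
      _ = 1 := one_mul 1

end Pool.Agent.KS6_1.SI
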