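import Pool.Agent.KS6_1.SI.Defs
import Pool.Graph.R_seed8.H382P.Ideal

open Complex Filter Topology Set MeasureTheory

namespace Pool.Agent.KS6_1.SI

open SP

/-- telescoping bound of the geometric sum -/
theorem geo_lower' {c η g : ℝ} {B : ℕ} (hB : 2 ≤ B) (hc : 1 / 2 < c) (hc1 : c < 1) (hη : 0 < η)
    (hη1 : η < 1) (hg : g ≤ Real.cos (Real.pi * c * (1 + 2 * η)) - Real.cos (Real.pi * c))
    (_hg0 : 0 < g) (hθ : 2 * Real.pi * c * η / B ≤ g / 2) (hθ1 : 2 * Real.pi * c * η / B ≤ 1) :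
    g * B / (4 * Real.pi) ≤ -∑ n ∈ Finset.range (B + 1),
      Real.sin (Real.pi * c + 2 * Real.pi * c * η / B * n) := by
  have hB0 : (0 : ℝ) < B := by positivity
  have hpi := Real.pi_pos
  set θ := 2 * Real.pi * c * η / B with hθd
  have hθ0 : 0 < θ := by positivity
  have tel : ∀ n : ℕ, (2 * Real.sin (θ / 2)) * ∑ k ∈ Finset.range n, Real.sin (Real.pi * c + θ * k) =
      Real.cos (Real.pi * c - θ / 2) - Real.cos (Real.pi * c + θ * n - θ / 2) := by
    intro n
    induction n with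
    | zero => simp
    | succ n ih =>
      rw [Finset.sum_range_succ, mul_add, ih]
      have h1 : Real.cos (Real.pi * c + θ * n - θ / 2) - Real.cos (Real.pi * c + θ * n + θ / 2) =
          2 * Real.sin (θ / 2) * Real.sin (Real.pi * c + θ * n) := by
        rw [Real.cos_sub (Real.pi * c + θ * n) (θ / 2), Real.cos_add (Real.pi * c + θ * n) (θ / 2)]
        ring
      have h2 : Real.pi * c + θ * ((n + 1 : ℕ) : ℝ) - θ / 2 = Real.pi * c + θ * n + θ / 2 := by
        push_cast; ring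
      rw [h2]
      linarith
  have h1 := tel (B + 1)
  have hs0 : 0 < Real.sin (θ / 2) := Real.sin_pos_of_pos_of_lt_pi (by positivity) (by linarith [Real.pi_gt_three])
  have hs1 : Real.sin (θ / 2) ≤ θ / 2 := Real.sin_le (by positivity)
  have hlip : ∀ x y : ℝ, |Real.cos x - Real.cos y| ≤ |x - y| := by
    exact Real.abs_cos_sub_cos_le
  have e1 := hlip (Real.pi * c - θ / 2) (Real.pi * c)
  have e2 := hlip (Real.pi * c + θ * ((B + 1 : ℕ) : ℝ) - θ / 2) (Real.pi * c * (1 + 2 * η))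
  have e3 : Real.pi * c + θ * ((B + 1 : ℕ) : ℝ) - θ / 2 - Real.pi * c * (1 + 2 * η) = θ / 2 := by
    have : θ * B = 2 * Real.pi * c * η := by rw [hθd]; field_simp
    push_cast
    linarith
  rw [e3, abs_of_pos (by positivity : (0:ℝ) < θ / 2)] at e2
  rw [show Real.pi * c - θ / 2 - Real.pi * c = -(θ / 2) by ring, abs_neg,
    abs_of_pos (by positivity : (0:ℝ) < θ / 2)] at e1
  have e4 := (abs_le.1 e1).2
  have e5 := (abs_le.1 e2).1
  set S := ∑ k ∈ Finset.range (B + 1), Real.sin (Real.pi * c + θ * k) with hS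
  -- (2 sin(θ/2)) S ≤ -(g/2)
  have h2 : (2 * Real.sin (θ / 2)) * S ≤ -(g / 2) := by
    rw [h1]; linarith
  have hSneg : 0 < -S := by
    by_contra hcon
    push Not at hcon
    have : 0 ≤ (2 * Real.sin (θ / 2)) * S := mul_nonneg (by positivity) (by linarith)
    linarith
  have h3 : g / 2 ≤ θ * (-S) := by
    have : (2 * Real.sin (θ / 2)) * (-S) ≤ θ * (-S) :=
      mul_le_mul_of_nonneg_right (by linarith) hSneg.le
    linarith
  have h4 : θ ≤ 2 * Real.pi / B := by
    rw [hθd]
    refine div_le_div_of_nonneg_right ?_ hB0.le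
    have h7 : c * η ≤ 1 := by nlinarith
    calc 2 * Real.pi * c * η = 2 * Real.pi * (c * η) := by ring
      _ ≤ 2 * Real.pi * 1 := mul_le_mul_of_nonneg_left h7 (by positivity)
      _ = 2 * Real.pi := by ring
  have h5 : g / 2 ≤ 2 * Real.pi / B * (-S) := h3.trans (mul_le_mul_of_nonneg_right h4 hSneg.le)
  rw [div_le_iff₀ (by positivity)]
  have h6 : g / 2 * B ≤ 2 * Real.pi * (-S) := by
    have := mul_le_mul_of_nonneg_right h5 hB0.le
    calc g / 2 * B ≤ 2 * Real.pi / B * (-S) * B := this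
      _ = 2 * Real.pi * (-S) := by field_simp
  nlinarith

/-! ### P14 : positivity for the ideal recursion -/

theorem ideal_pos' (c η : ℝ) (hc : 1 / 2 < c) (hc1 : c < 1) (hη : 0 < η) (hη1 : η < 1)
    (hcη1 : 1 < c * (1 + η)) :
    ∃ B : ℕ, 2 ≤ B ∧ ∀ t q : ℕ → ℂ, q 0 = 1 →
    (∀ n : ℕ, 1 ≤ n → n ≤ B → (n : ℂ) * q n = ∑ m ∈ Finset.Icc 1 n, t m * q (n - m)) →
    ‖t 1‖ ≤ 1 / B →
    (∀ m : ℕ, 2 ≤ m → m ≤ B → ‖t m - cexp (-(2 * Real.pi * c * η * m / B : ℝ) * I)‖ ≤ 7 / B) →
    1 ≤ (cexp (-(Real.pi * c : ℝ) * I) * ∑ n ∈ Finset.range (B + 1), q n).im := by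
  have hpi := Real.pi_pos
  have hg : 0 < Real.cos (Real.pi * c * (1 + 2 * η)) - Real.cos (Real.pi * c) := by
    rw [Real.cos_sub_cos]
    have e1 : (Real.pi * c * (1 + 2 * η) + Real.pi * c) / 2 = Real.pi * (c * (1 + η)) := by ring
    have e2 : (Real.pi * c * (1 + 2 * η) - Real.pi * c) / 2 = Real.pi * (c * η) := by ring
    rw [e1, e2]
    have h1 : 0 < Real.sin (Real.pi * (c * η)) :=
      Real.sin_pos_of_pos_of_lt_pi (by positivity) (by
        have : c * η < 1 := by nlinarith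
        nlinarith)
    have h2 : 0 < Real.sin (Real.pi * (c * (1 + η)) - Real.pi) :=
      Real.sin_pos_of_pos_of_lt_pi (by nlinarith) (by
        have : c * (1 + η) < 2 := by nlinarith
        nlinarith)
    rw [Real.sin_sub_pi] at h2
    nlinarith [mul_pos h1 h2]
  set g := Real.cos (Real.pi * c * (1 + 2 * η)) - Real.cos (Real.pi * c) with hgd
  obtain ⟨B, hB, hB1, hB2⟩ := Ideal.exists_B (a := Real.exp (-1) * (g / (4 * Real.pi)))
    (b := 14 * Real.exp 7) (by positivity) (by positivity) 4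
    (2 * Real.pi * c * η / (g / 2) + 2 * Real.pi * c * η)
  have hB0 : (0 : ℝ) < B := by positivity
  have hcη : 0 < 2 * Real.pi * c * η := by positivity
  have hθ : 2 * Real.pi * c * η / B ≤ g / 2 := by
    rw [div_le_iff₀ hB0]
    have h1 : 2 * Real.pi * c * η / (g / 2) ≤ B := by linarith
    rw [div_le_iff₀ (by positivity)] at h1
    linarith
  have hθ1 : 2 * Real.pi * c * η / B ≤ 1 := by
    rw [div_le_iff₀ hB0, one_mul]
    have : 0 < 2 * Real.pi * c * η / (g / 2) := by positivity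
    linarith
  refine ⟨B, hB, ?_⟩
  intro t q hq0 hq h1 h2
  set θ := 2 * Real.pi * c * η / B with hθd
  set w : ℂ := cexp (-(θ : ℝ) * I) with hw
  have hwn : ‖w‖ = 1 := by
    rw [hw, show (-(θ : ℝ) : ℂ) * I = ((-θ : ℝ) : ℂ) * I by push_cast; ring]
    exact Complex.norm_exp_ofReal_mul_I _
  have hwp : ∀ m : ℕ, cexp (-(2 * Real.pi * c * η * m / B : ℝ) * I) = w ^ m := by
    intro m
    rw [hw, ← Complex.exp_nat_mul]
    congr 1
    rw [hθd]
    push_cast
    ring
  have hper := Ideal.perturb hB hwn hq0 hq h1 (fun m hm hm' => by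
    have := h2 m hm hm'
    rwa [hwp] at this)
  -- the sum of the differences
  have hD : ∑ n ∈ Finset.range (B + 1), ‖q n - w ^ n * (Ideal.d n : ℂ)‖ ≤
      14 * Real.exp 7 * (1 + Real.log B) := by
    have hhB := Ideal.hn_le B
    have hhB0 := Ideal.hn_nonneg B
    calc ∑ n ∈ Finset.range (B + 1), ‖q n - w ^ n * (Ideal.d n : ℂ)‖
        ≤ ∑ n ∈ Finset.range (B + 1), 7 * Real.exp 7 / B * Ideal.hn B := by
          refine Finset.sum_le_sum fun n hn => ?_
          rw [Finset.mem_range] at hn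
          refine (hper n (by omega)).trans ?_
          exact mul_le_mul_of_nonneg_left (Ideal.hn_mono (by omega)) (by positivity)
      _ = ((B : ℝ) + 1) / B * (7 * Real.exp 7 * Ideal.hn B) := by
          rw [Finset.sum_const, Finset.card_range, nsmul_eq_mul]
          push_cast
          ring
      _ ≤ 2 * (7 * Real.exp 7 * Ideal.hn B) := by
          refine mul_le_mul_of_nonneg_right ?_ (by positivity)
          rw [div_le_iff₀ hB0]
          have : (2:ℝ) ≤ B := by exact_mod_cast hB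
          linarith
      _ ≤ 2 * (7 * Real.exp 7 * (1 + Real.log B)) := by gcongr
      _ = _ := by ring
  -- imaginary part of the ideal sum
  have him : ∀ n : ℕ, (cexp (-(Real.pi * c : ℝ) * I) * (w ^ n * (Ideal.d n : ℂ))).im =
      -Real.sin (Real.pi * c + θ * n) * Ideal.d n := by
    intro n
    have e : cexp (-(Real.pi * c : ℝ) * I) * w ^ n = cexp (((-(Real.pi * c + θ * n) : ℝ) : ℂ) * I) := by
      rw [hw, ← Complex.exp_nat_mul, ← Complex.exp_add]
      congr 1
      push_cast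
      ring
    rw [← mul_assoc, e, Complex.im_mul_ofReal, Complex.exp_ofReal_mul_I_im, Real.sin_neg]
  have hgeo := geo_lower' hB hc hc1 hη hη1 (le_refl g) hg hθ hθ1
  have hcl := Ideal.d_close_sum B
  have hmain : Real.exp (-1) * (g / (4 * Real.pi)) * B - 4 ≤
      ∑ n ∈ Finset.range (B + 1), -Real.sin (Real.pi * c + θ * n) * Ideal.d n := by
    have e1 : ∑ n ∈ Finset.range (B + 1), -Real.sin (Real.pi * c + θ * n) * Ideal.d n =
        Real.exp (-1) * (-∑ n ∈ Finset.range (B + 1), Real.sin (Real.pi * c + θ * n)) +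
        ∑ n ∈ Finset.range (B + 1), -Real.sin (Real.pi * c + θ * n) * (Ideal.d n - Real.exp (-1)) := by
      rw [← Finset.sum_neg_distrib, Finset.mul_sum, ← Finset.sum_add_distrib]
      refine Finset.sum_congr rfl fun n _ => ?_
      ring
    have e2 : |∑ n ∈ Finset.range (B + 1), -Real.sin (Real.pi * c + θ * n) *
        (Ideal.d n - Real.exp (-1))| ≤ 4 := by
      refine (Finset.abs_sum_le_sum_abs _ _).trans (le_trans (Finset.sum_le_sum fun n _ => ?_) hcl)
      rw [abs_mul, abs_neg]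
      calc |Real.sin (Real.pi * c + θ * n)| * |Ideal.d n - Real.exp (-1)|
          ≤ 1 * |Ideal.d n - Real.exp (-1)| :=
            mul_le_mul_of_nonneg_right (Real.abs_sin_le_one _) (abs_nonneg _)
        _ = _ := one_mul _
    have e3 := mul_le_mul_of_nonneg_left hgeo (Real.exp_pos (-1)).le
    have e4 := (abs_le.1 e2).1
    rw [e1]
    have e5 : Real.exp (-1) * (g * B / (4 * Real.pi)) = Real.exp (-1) * (g / (4 * Real.pi)) * B := by
      ring
    rw [e5] at e3
    linarith
  have hsplit : (cexp (-(Real.pi * c : ℝ) * I) * ∑ n ∈ Finset.range (B + 1), q n).im =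
      ∑ n ∈ Finset.range (B + 1), -Real.sin (Real.pi * c + θ * n) * Ideal.d n +
      (cexp (-(Real.pi * c : ℝ) * I) *
        ∑ n ∈ Finset.range (B + 1), (q n - w ^ n * (Ideal.d n : ℂ))).im := by
    simp only [← him]
    rw [← Complex.im_sum, ← Complex.add_im, ← Finset.mul_sum, ← mul_add, ← Finset.sum_add_distrib]
    have : ∀ n, w ^ n * (Ideal.d n : ℂ) + (q n - w ^ n * (Ideal.d n : ℂ)) = q n := fun n => by ring
    simp only [this]
  have hlast : -(14 * Real.exp 7 * (1 + Real.log B)) ≤ (cexp (-(Real.pi * c : ℝ) * I) *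
        ∑ n ∈ Finset.range (B + 1), (q n - w ^ n * (Ideal.d n : ℂ))).im := by
    have e1 : ‖cexp (-(Real.pi * c : ℝ) * I) *
        ∑ n ∈ Finset.range (B + 1), (q n - w ^ n * (Ideal.d n : ℂ))‖ ≤
        14 * Real.exp 7 * (1 + Real.log B) := by
      rw [norm_mul]
      have : ‖cexp (-(Real.pi * c : ℝ) * I)‖ = 1 := by
        rw [show (-((Real.pi * c : ℝ) : ℂ)) * I = ((-(Real.pi * c) : ℝ) : ℂ) * I by push_cast; ring]
        exact Complex.norm_exp_ofReal_mul_I _
      rw [this, one_mul]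
      exact (norm_sum_le _ _).trans hD
    have e2 := (Complex.abs_im_le_norm _).trans e1
    exact (abs_le.1 e2).1
  rw [hsplit]
  linarith

end Pool.Agent.KS6_1.SI
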