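import Pool.Agent.KS6_1.SI.Defs
import Pool.Agent.KS6_1.SI.Mert

open Complex Filter Topology Set MeasureTheory

namespace Pool.Agent.KS6_1.SI

open SP

open SG (phi hh nn dl)

namespace TTAux

lemma log_pos' {T : ℝ} (hT : 10 ≤ T) : 0 < Real.log T := Real.log_pos (by linarith)

/-- if the bump is nonzero at `log p / log T` then `p` is in the bin -/
lemma mem_of_b (P : Par) (T : ℝ) (hT : 10 ≤ T) (p m : ℕ) (hp : p.Prime)
    (hb : P.b m (Real.log p / Real.log T) ≠ 0) : p ∈ PS P T ∧ Eb P T p = m := by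
  obtain ⟨h2, hB, hl, hu⟩ := P.hb0 m _ hb
  have hL := log_pos' hT
  have hBpos : (0 : ℝ) < P.B := by have := P.hB; positivity
  have hκ1 : 0 < 1 - P.κ := by have := P.hκ1; linarith
  have hm := P.hm
  have hEb : Eb P T p = m := by
    unfold Eb
    rw [Nat.ceil_eq_iff (by omega)]
    have e : (P.B : ℝ) * Real.log p / ((1 - P.κ) * Real.log T) =
        (P.B : ℝ) / (1 - P.κ) * (Real.log p / Real.log T) := by
      field_simp
    rw [e]
    have hc : 0 < (P.B : ℝ) / (1 - P.κ) := by positivity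
    constructor
    · have : (P.B : ℝ) / (1 - P.κ) * (((m : ℝ) - 1) * (1 - P.κ) / P.B) = (m : ℝ) - 1 := by
        field_simp
      have h3 : ((m - 1 : ℕ) : ℝ) = (m : ℝ) - 1 := by
        push_cast [Nat.cast_sub (show 1 ≤ m by omega)]; ring
      rw [h3, ← this]
      apply mul_lt_mul_of_pos_left _ hc
      linarith
    · have : (P.B : ℝ) / (1 - P.κ) * ((m : ℝ) * (1 - P.κ) / P.B) = (m : ℝ) := by
        field_simp
      rw [← this]
      apply mul_le_mul_of_nonneg_left _ hc.le
      linarith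
  refine ⟨?_, hEb⟩
  rw [PS, Finset.mem_filter, Finset.mem_Icc]
  refine ⟨⟨hp.one_lt.le, ?_⟩, hp, by omega⟩
  unfold SG.nn
  apply Nat.le_floor
  have hp0 : (0 : ℝ) < p := by exact_mod_cast hp.pos
  rw [← Real.log_le_log_iff hp0 (by positivity), Real.log_rpow (by linarith)]
  have h4 : Real.log p / Real.log T ≤ 1 - P.κ := by
    have : (m : ℝ) * (1 - P.κ) / P.B ≤ 1 - P.κ := by
      rw [div_le_iff₀ hBpos, mul_comm]
      apply mul_le_mul_of_nonneg_left _ hκ1.le
      exact_mod_cast hB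
    linarith
  rwa [div_le_iff₀ hL] at h4

/-- the test function -/
noncomputable def HH (P : Par) (m : ℕ) (u : ℝ) : ℂ :=
  (P.b m u : ℂ) * ((u * P.b m u : ℝ) -
    (1 - cexp (-(2 * Real.pi * P.c * u : ℝ) * I)) * (Real.exp (-P.a * u) : ℂ))

lemma HH_contDiff (P : Par) (m : ℕ) : ContDiff ℝ 1 (HH P m) := by
  have hb : ContDiff ℝ 1 (P.b m) := (P.hb m).of_le (by norm_num)
  have h1 : ContDiff ℝ 1 (fun u : ℝ => (P.b m u : ℂ)) := ofRealCLM.contDiff.comp hb
  have h2 : ContDiff ℝ 1 (fun u : ℝ => ((u * P.b m u : ℝ) : ℂ)) :=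
    ofRealCLM.contDiff.comp (contDiff_id.mul hb)
  have h3 : ContDiff ℝ 1 (fun u : ℝ => ((Real.exp (-P.a * u) : ℝ) : ℂ)) :=
    ofRealCLM.contDiff.comp (Real.contDiff_exp.comp (contDiff_const.mul contDiff_id))
  have h4 : ContDiff ℝ 1 (fun u : ℝ => cexp (-(2 * Real.pi * P.c * u : ℝ) * I)) := by
    have : ContDiff ℝ 1 (fun u : ℝ => (-((2 * Real.pi * P.c * u : ℝ) : ℂ) * I)) := by
      apply ContDiff.mul _ contDiff_const
      apply ContDiff.neg
      exact ofRealCLM.contDiff.comp (contDiff_const.mul contDiff_id)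
    exact this.cexp
  unfold HH
  exact h1.mul (h2.sub ((contDiff_const.sub h4).mul h3))

lemma HH_zero (P : Par) (m : ℕ) (u : ℝ) (hu : 1 ≤ u ∨ u ≤ 0) : HH P m u = 0 := by
  have : P.b m u = 0 := by
    by_contra h
    obtain ⟨h2, hB, hl, hu'⟩ := P.hb0 m _ h
    have hBpos : (0 : ℝ) < P.B := by have := P.hB; positivity
    have hκ := P.hκ
    have hκ1 : 0 < 1 - P.κ := by have := P.hκ1; linarith
    have hm := P.hm
    have h5 : (m : ℝ) * (1 - P.κ) / P.B ≤ 1 - P.κ := by
      rw [div_le_iff₀ hBpos, mul_comm]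
      apply mul_le_mul_of_nonneg_left _ hκ1.le
      exact_mod_cast hB
    have h6 : 0 ≤ ((m : ℝ) - 1) * (1 - P.κ) / P.B := by
      have : (2 : ℝ) ≤ m := by exact_mod_cast h2
      apply div_nonneg (mul_nonneg (by linarith) hκ1.le) hBpos.le
    rcases hu with hu | hu <;> linarith
  simp [HH, this]

lemma HH_lip (P : Par) (m : ℕ) : ∃ K : NNReal, LipschitzWith K (HH P m) := by
  apply ContDiff.lipschitzWith_of_hasCompactSupport (n := 1) _ (HH_contDiff P m) (by norm_num)
  apply HasCompactSupport.intro (isCompact_Icc (a := (0 : ℝ)) (b := 1))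
  intro u hu
  apply HH_zero
  rw [mem_Icc, not_and_or, not_le, not_le] at hu
  rcases hu with h | h
  · right; exact h.le
  · left; exact h.le

lemma cpow_h (c T : ℝ) (p : ℕ) (hp : 0 < p) :
    (p : ℂ) ^ (-(2 * hh (dl c T))) =
      cexp (-(2 * Real.pi * c * (Real.log p / Real.log T) : ℝ) * I) := by
  have hp0 : (p : ℂ) ≠ 0 := by exact_mod_cast hp.ne'
  rw [Complex.cpow_def_of_ne_zero hp0, ← Complex.natCast_log]
  congr 1
  simp only [hh, dl]
  push_cast
  ring

lemma cpow_a (a T : ℝ) (p : ℕ) (hp : 0 < p) :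
    (p : ℂ) ^ (-((a / Real.log T : ℝ) : ℂ)) =
      (Real.exp (-a * (Real.log p / Real.log T)) : ℂ) := by
  have hp0 : (p : ℂ) ≠ 0 := by exact_mod_cast hp.ne'
  rw [Complex.cpow_def_of_ne_zero hp0, ← Complex.natCast_log]
  push_cast
  congr 1
  ring

/-- the factor `z` -/
noncomputable def zf (c a u : ℝ) : ℂ :=
  (1 - cexp (-(2 * Real.pi * c * u : ℝ) * I)) * (Real.exp (-a * u) : ℂ)

lemma zf_norm (c a u : ℝ) (ha : 0 ≤ a) (hu : 0 ≤ u) : ‖zf c a u‖ ≤ 2 := by
  unfold zf
  rw [norm_mul]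
  have h1 : ‖(1 : ℂ) - cexp (-(2 * Real.pi * c * u : ℝ) * I)‖ ≤ 2 := by
    refine (norm_sub_le _ _).trans ?_
    have : ‖cexp (-((2 * Real.pi * c * u : ℝ) : ℂ) * I)‖ = 1 := by
      rw [← Complex.ofReal_neg, Complex.norm_exp_ofReal_mul_I]
    rw [this, norm_one]
    norm_num
  have h2 : ‖((Real.exp (-a * u) : ℝ) : ℂ)‖ ≤ 1 := by
    rw [Complex.norm_real, Real.norm_eq_abs, abs_of_pos (Real.exp_pos _), Real.exp_le_one_iff]
    nlinarith
  calc _ ≤ 2 * 1 := mul_le_mul h1 h2 (norm_nonneg _) (by norm_num)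
    _ = 2 := by norm_num

lemma gp_eq (P : Par) (T : ℝ) (p : ℕ) (hp : 0 < p) :
    gp P T p = (1 / p : ℂ) * (chi P T p * (chi P T p -
      zf P.c P.a (Real.log p / Real.log T))) := by
  unfold gp zf
  rw [cpow_h P.c T p hp, cpow_a P.a T p hp]

lemma HH_eq (P : Par) (m : ℕ) (T : ℝ) (p : ℕ) :
    ((1 / Real.log T : ℝ) : ℂ) * ((Real.log p / p : ℝ) * HH P m (Real.log p / Real.log T)) =
      (1 / p : ℂ) * (((Real.log p / Real.log T * P.b m (Real.log p / Real.log T) : ℝ) : ℂ) *
        (((Real.log p / Real.log T * P.b m (Real.log p / Real.log T) : ℝ) : ℂ) -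
        zf P.c P.a (Real.log p / Real.log T))) := by
  unfold HH zf
  push_cast
  ring

lemma gp_norm (P : Par) (T : ℝ) (hT : 10 ≤ T) (p : ℕ) (hp : 0 < p) (h : |chi P T p| ≤ 2) :
    ‖gp P T p‖ ≤ 8 / p := by
  rw [gp_eq P T p hp, norm_mul, norm_mul]
  have hu : 0 ≤ Real.log p / Real.log T :=
    div_nonneg (Real.log_natCast_nonneg p) (log_pos' hT).le
  have h1 := zf_norm P.c P.a _ P.ha.le hu
  have h2 : ‖((chi P T p : ℝ) : ℂ)‖ ≤ 2 := by
    rw [Complex.norm_real, Real.norm_eq_abs]; exact h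
  have h3 : ‖((chi P T p : ℝ) : ℂ) - zf P.c P.a (Real.log p / Real.log T)‖ ≤ 4 := by
    refine (norm_sub_le _ _).trans ?_
    linarith
  have h4 : ‖(1 / p : ℂ)‖ = 1 / p := by
    rw [norm_div, norm_one, Complex.norm_natCast]
  rw [h4]
  have hp0 : (0 : ℝ) < p := by exact_mod_cast hp
  calc (1 / p : ℝ) * (‖((chi P T p : ℝ) : ℂ)‖ * ‖((chi P T p : ℝ) : ℂ) -
        zf P.c P.a (Real.log p / Real.log T)‖) ≤ (1 / p : ℝ) * (2 * 4) := by
        apply mul_le_mul_of_nonneg_left _ (by positivity)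
        exact mul_le_mul h2 h3 (norm_nonneg _) (by norm_num)
    _ = 8 / p := by ring

lemma gp_sub (P : Par) (T : ℝ) (hT : 10 ≤ T) (p m : ℕ) (hp : 0 < p) (C : ℝ)
    (h : |chi P T p| ≤ 2) (h1 : |chi P T p - Real.log p / Real.log T *
      P.b m (Real.log p / Real.log T)| ≤ C / Real.log T) :
    ‖gp P T p - ((1 / Real.log T : ℝ) : ℂ) *
      ((Real.log p / p : ℝ) * HH P m (Real.log p / Real.log T))‖ ≤
      5 * (C / Real.log T) * (1 / p) := by
  have hu : 0 ≤ Real.log p / Real.log T :=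
    div_nonneg (Real.log_natCast_nonneg p) (log_pos' hT).le
  rw [gp_eq P T p hp, HH_eq]
  set u := Real.log p / Real.log T with hudef
  set x := chi P T p with hx
  have hb := P.hb1 m u
  set x0 : ℝ := u * P.b m u with hx0
  have hz := zf_norm P.c P.a u P.ha.le hu
  set z := zf P.c P.a u with hzdef
  have e : (1 / p : ℂ) * ((x : ℂ) * ((x : ℂ) - z)) - (1 / p : ℂ) * ((x0 : ℂ) * ((x0 : ℂ) - z)) =
      (1 / p : ℂ) * (((x - x0 : ℝ) : ℂ) * ((x : ℂ) + x0 - z)) := by
    push_cast; ring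
  rw [e, norm_mul, norm_mul]
  have h4 : ‖(1 / p : ℂ)‖ = 1 / p := by
    rw [norm_div, norm_one, Complex.norm_natCast]
  have h5 : ‖((x - x0 : ℝ) : ℂ)‖ ≤ C / Real.log T := by
    rw [Complex.norm_real, Real.norm_eq_abs]; exact h1
  have h6 : ‖((x : ℂ) + x0 - z)‖ ≤ 5 := by
    have a1 : ‖(x : ℂ)‖ ≤ 2 := by rw [Complex.norm_real, Real.norm_eq_abs]; exact h
    have a2 : ‖(x0 : ℂ)‖ ≤ 1 := by
      rw [Complex.norm_real, Real.norm_eq_abs, abs_of_nonneg (mul_nonneg hu hb.1)]
      exact hb.2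
    calc ‖((x : ℂ) + x0 - z)‖ ≤ ‖(x : ℂ) + x0‖ + ‖z‖ := norm_sub_le _ _
      _ ≤ ‖(x : ℂ)‖ + ‖(x0 : ℂ)‖ + ‖z‖ := by
        gcongr; exact norm_add_le _ _
      _ ≤ 5 := by linarith
  rw [h4]
  have hp0 : (0 : ℝ) < p := by exact_mod_cast hp
  have h7 : 0 ≤ C / Real.log T := (norm_nonneg _).trans h5
  calc (1 / p : ℝ) * (‖((x - x0 : ℝ) : ℂ)‖ * ‖((x : ℂ) + x0 - z)‖) ≤
        (1 / p : ℝ) * ((C / Real.log T) * 5) := by
        apply mul_le_mul_of_nonneg_left _ (by positivity)
        exact mul_le_mul h5 h6 (norm_nonneg _) h7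
    _ = _ := by ring

/-- primes in `PS` are large -/
lemma lower (P : Par) (T : ℝ) (hT : 10 ≤ T) (p : ℕ) (hp : p ∈ PS P T) :
    T ^ ((1 - P.κ) / P.B) ≤ p := by
  rw [PS, Finset.mem_filter, Finset.mem_Icc] at hp
  obtain ⟨⟨h1, h2⟩, h3, h4⟩ := hp
  have hL := log_pos' hT
  have hBpos : (0 : ℝ) < P.B := by have := P.hB; positivity
  have hκ1 : 0 < 1 - P.κ := by have := P.hκ1; linarith
  have h5 : 1 < Eb P T p := by omega
  unfold Eb at h5
  rw [Nat.lt_ceil] at h5
  have hp0 : (0 : ℝ) < p := by exact_mod_cast h1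
  rw [← Real.log_le_log_iff (by positivity) hp0, Real.log_rpow (by linarith)]
  rw [lt_div_iff₀ (by positivity)] at h5
  push_cast at h5
  rw [div_mul_eq_mul_div, div_le_iff₀ hBpos]
  linarith

lemma PS_sub (P : Par) (T : ℝ) (hT : 10 ≤ T) :
    PS P T ⊆ (Finset.Icc 1 ⌊T⌋₊).filter Nat.Prime := by
  intro p hp
  rw [PS, Finset.mem_filter, Finset.mem_Icc] at hp
  rw [Finset.mem_filter, Finset.mem_Icc]
  refine ⟨⟨hp.1.1, hp.1.2.trans ?_⟩, hp.2.1⟩
  unfold SG.nn
  apply Nat.floor_le_floor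
  calc T ^ (1 - P.κ) ≤ T ^ (1 : ℝ) :=
        Real.rpow_le_rpow_of_exponent_le (by linarith) (by have := P.hκ; linarith)
    _ = T := Real.rpow_one T

end TTAux

open TTAux

theorem tt_lim (P : Par) (m : ℕ) (hm : 1 ≤ m) (hm1 : m ≤ P.B) :
    Tendsto (fun T : ℝ => tt (PS P T) (Eb P T) (gp P T) m) atTop (𝓝 (m * GG P m)) := by
  obtain ⟨C1, T1, hC1, hT1, hchi⟩ := chi_approx P
  obtain ⟨K, hK⟩ := HH_lip P m
  obtain ⟨C2, hC2, hmert⟩ := mert (HH P m) K hK (fun u hu => HH_zero P m u (Or.inl hu))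
  have hGG : GG P m = ∫ u in (0 : ℝ)..1, HH P m u := rfl
  have hBpos : (0 : ℝ) < P.B := by have := P.hB; positivity
  have hκ1 : 0 < 1 - P.κ := by have := P.hκ1; linarith
  have he : 0 < (1 - P.κ) / P.B := by positivity
  have hN0 : Tendsto (fun T : ℝ => T ^ ((1 - P.κ) / P.B)) atTop atTop := tendsto_rpow_atTop he
  rw [tendsto_iff_norm_sub_tendsto_zero]
  have hbound : ∀ᶠ T : ℝ in atTop, ‖tt (PS P T) (Eb P T) (gp P T) m - m * GG P m‖ ≤
      64 * m * C1 * (T ^ ((1 - P.κ) / P.B))⁻¹ + (m * 5 * C1 ^ 2 + m * C2) * (Real.log T)⁻¹ := by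
    filter_upwards [eventually_ge_atTop T1, eventually_ge_atTop (10 : ℝ),
      hN0.eventually_ge_atTop 8] with T hTT hT10 hT8
    obtain ⟨hc, hs⟩ := hchi T hTT
    have hL := log_pos' hT10
    set N0 := T ^ ((1 - P.κ) / P.B) with hN0def
    have hN0pos : 0 < N0 := by linarith
    have hmem : ∀ p ∈ PS P T, 0 < p ∧ 8 ≤ (p : ℝ) ∧ N0 ≤ p := by
      intro p hp
      have := lower P T hT10 p hp
      refine ⟨?_, by linarith, this⟩
      have h : (0 : ℝ) < p := by linarith
      exact_mod_cast h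
    -- the r ≥ 2 part
    have hA : ‖tt (PS P T) (Eb P T) (gp P T) m -
        ∑ p ∈ (PS P T).filter (fun p => Eb P T p = m), (m : ℂ) * gp P T p‖ ≤
        64 * m * C1 * N0⁻¹ := by
      rw [Finset.sum_filter]
      unfold tt
      rw [← Finset.sum_sub_distrib]
      refine (norm_sum_le _ _).trans ?_
      calc _ ≤ ∑ p ∈ PS P T, 64 * m * N0⁻¹ * (1 / p : ℝ) := by
            apply Finset.sum_le_sum
            intro p hp
            obtain ⟨hp0, hp8, hpN⟩ := hmem p hp
            have hpr : (0 : ℝ) < p := by exact_mod_cast hp0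
            have hE2 : 2 ≤ Eb P T p := by
              rw [PS, Finset.mem_filter] at hp
              exact hp.2.2
            by_cases hEm : Eb P T p = m
            · rw [if_pos (by rw [hEm]), if_pos hEm, hEm, Nat.div_self (by omega)]
              simp only [Nat.sub_self, pow_zero, one_mul, pow_one, sub_self, norm_zero]
              positivity
            · rw [if_neg hEm, sub_zero]
              by_cases hd : Eb P T p ∣ m
              · rw [if_pos hd, norm_mul, norm_mul, norm_pow, norm_neg, norm_one, one_pow, one_mul,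
                  Complex.norm_natCast, norm_pow]
                have hEle : (Eb P T p : ℝ) ≤ m := by
                  exact_mod_cast Nat.le_of_dvd (by omega) hd
                have hr : 2 ≤ m / Eb P T p := by
                  obtain ⟨r, hr⟩ := hd
                  have : m / Eb P T p = r := by
                    rw [hr, Nat.mul_div_cancel_left _ (by omega)]
                  rw [this]
                  rcases r with _ | _ | r
                  · omega
                  · omega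
                  · omega
                have hg := gp_norm P T hT10 p hp0 (hc p hp).2.2
                have hg1 : (8 / p : ℝ) ≤ 1 := by
                  rw [div_le_one hpr]; exact hp8
                have hg2 : ‖gp P T p‖ ^ (m / Eb P T p) ≤ (8 / p : ℝ) ^ 2 := by
                  calc _ ≤ (8 / p : ℝ) ^ (m / Eb P T p) :=
                        pow_le_pow_left₀ (norm_nonneg _) hg _
                    _ ≤ _ := pow_le_pow_of_le_one (by positivity) hg1 hr
                calc (Eb P T p : ℝ) * ‖gp P T p‖ ^ (m / Eb P T p) ≤ m * (8 / p : ℝ) ^ 2 :=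
                      mul_le_mul hEle hg2 (by positivity) (by positivity)
                  _ = 64 * m * (p : ℝ)⁻¹ * (1 / p : ℝ) := by
                      field_simp; ring
                  _ ≤ 64 * m * N0⁻¹ * (1 / p : ℝ) := by
                      gcongr
              · rw [if_neg hd, norm_zero]
                positivity
        _ = 64 * m * N0⁻¹ * ∑ p ∈ PS P T, (1 / p : ℝ) := by rw [Finset.mul_sum]
        _ ≤ 64 * m * N0⁻¹ * C1 := by gcongr
        _ = _ := by ring
    -- main part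
    have hBsum : ‖∑ p ∈ (PS P T).filter (fun p => Eb P T p = m), (m : ℂ) * gp P T p -
        ∑ p ∈ (PS P T).filter (fun p => Eb P T p = m), (m : ℂ) *
          (((1 / Real.log T : ℝ) : ℂ) *
            ((Real.log p / p : ℝ) * HH P m (Real.log p / Real.log T)))‖ ≤
        m * 5 * C1 ^ 2 * (Real.log T)⁻¹ := by
      rw [← Finset.sum_sub_distrib]
      refine (norm_sum_le _ _).trans ?_
      calc _ ≤ ∑ p ∈ (PS P T).filter (fun p => Eb P T p = m),
            m * (5 * (C1 / Real.log T)) * (1 / p : ℝ) := by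
            apply Finset.sum_le_sum
            intro p hp
            rw [Finset.mem_filter] at hp
            obtain ⟨hp0, hp8, hpN⟩ := hmem p hp.1
            rw [← mul_sub, norm_mul, Complex.norm_natCast, mul_assoc]
            apply mul_le_mul_of_nonneg_left _ (by positivity)
            have h1 := (hc p hp.1).2.1
            rw [hp.2] at h1
            exact gp_sub P T hT10 p m hp0 C1 (hc p hp.1).2.2 h1
        _ ≤ ∑ p ∈ PS P T, m * (5 * (C1 / Real.log T)) * (1 / p : ℝ) := by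
            apply Finset.sum_le_sum_of_subset_of_nonneg (Finset.filter_subset _ _)
            intro p hp _
            positivity
        _ = m * (5 * (C1 / Real.log T)) * ∑ p ∈ PS P T, (1 / p : ℝ) := by rw [Finset.mul_sum]
        _ ≤ m * (5 * (C1 / Real.log T)) * C1 := by gcongr
        _ = _ := by field_simp
    have hsum : ∑ p ∈ (PS P T).filter (fun p => Eb P T p = m), (m : ℂ) *
          (((1 / Real.log T : ℝ) : ℂ) *
            ((Real.log p / p : ℝ) * HH P m (Real.log p / Real.log T))) =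
        (m : ℂ) * (((1 / Real.log T : ℝ) : ℂ) *
          ∑ p ∈ (Finset.Icc 1 ⌊T⌋₊).filter Nat.Prime,
            ((Real.log p / p : ℝ) : ℂ) * HH P m (Real.log p / Real.log T)) := by
      rw [Finset.mul_sum, Finset.mul_sum]
      apply Finset.sum_subset
      · exact (Finset.filter_subset _ _).trans (PS_sub P T hT10)
      · intro p hp hp'
        rw [Finset.mem_filter] at hp
        have : P.b m (Real.log p / Real.log T) = 0 := by
          by_contra h
          exact hp' (Finset.mem_filter.mpr (mem_of_b P T hT10 p m hp.2 h))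
        simp [HH, this]
    have hC : ‖(m : ℂ) * (((1 / Real.log T : ℝ) : ℂ) *
          ∑ p ∈ (Finset.Icc 1 ⌊T⌋₊).filter Nat.Prime,
            ((Real.log p / p : ℝ) : ℂ) * HH P m (Real.log p / Real.log T)) - m * GG P m‖ ≤
        m * C2 * (Real.log T)⁻¹ := by
      rw [← mul_sub, norm_mul, Complex.norm_natCast, mul_assoc]
      apply mul_le_mul_of_nonneg_left _ (by positivity)
      rw [hGG]
      exact hmert T hT10
    rw [hsum] at hBsum
    calc ‖tt (PS P T) (Eb P T) (gp P T) m - m * GG P m‖ ≤ _ + (_ + _) := by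
          refine (norm_sub_le_norm_sub_add_norm_sub _
            (∑ p ∈ (PS P T).filter (fun p => Eb P T p = m), (m : ℂ) * gp P T p) _).trans ?_
          exact add_le_add hA ((norm_sub_le_norm_sub_add_norm_sub _ _ _).trans
            (add_le_add hBsum hC))
      _ = _ := by ring
  have hlim : Tendsto (fun T : ℝ => 64 * m * C1 * (T ^ ((1 - P.κ) / P.B))⁻¹ +
      (m * 5 * C1 ^ 2 + m * C2) * (Real.log T)⁻¹) atTop (𝓝 0) := by
    have h1 := (hN0.inv_tendsto_atTop).const_mul (64 * m * C1)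
    have h2 := (Real.tendsto_log_atTop.inv_tendsto_atTop).const_mul (m * 5 * C1 ^ 2 + m * C2)
    have h3 := h1.add h2
    simpa using h3
  exact squeeze_zero' (Eventually.of_forall fun _ => norm_nonneg _) hbound hlim

end Pool.Agent.KS6_1.SI
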