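import Pool.Agent.KS6_1.SI.Defs
import Pool.Agent.KS6_1.SI.SPos
import Pool.Agent.KS6_1.SI.Eval
import Pool.Graph.R_seed8.H382P.FFhor
import Pool.Agent.KS6_1.SI.DpId
import Pool.Agent.KS6_1.SI.ExpMom
import Pool.Graph.R_seed8.H382P.Theta
import Pool.Agent.KS6_1.SI.Mom2
import Pool.Graph.R_seed8.H382R2.Final0

open Complex Filter Topology Set MeasureTheory

namespace Pool.Agent.KS6_1.SI

open SP

variable [Nu]

open SG (phi hh nn dl ord NZ zmult)

namespace ManyAux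

theorem wt_cont (t0 D : ℝ) : Continuous (wt t0 D) := by
  unfold wt
  fun_prop

theorem wt_nonneg (t0 D t : ℝ) : 0 ≤ wt t0 D t := (Real.exp_pos _).le

theorem wt_le_one (t0 D t : ℝ) : wt t0 D t ≤ 1 := by
  unfold wt
  rw [Real.exp_le_one_iff]
  apply div_nonpos_of_nonpos_of_nonneg
  · nlinarith [sq_nonneg (t - t0)]
  · positivity

theorem wt_eq (t0 D t : ℝ) : wt t0 D t = Real.exp (-(1 / (2 * D ^ 2)) * (t - t0) ^ 2) := by
  unfold wt
  congr 1
  ring

theorem wt_integrable (t0 D : ℝ) (hD : 0 < D) : Integrable (wt t0 D) := by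
  have h := (integrable_exp_neg_mul_sq (b := 1 / (2 * D ^ 2)) (by positivity)).comp_sub_right t0
  refine h.congr (Filter.Eventually.of_forall fun t => ?_)
  simp only [wt_eq]

theorem wt_total (t0 D : ℝ) (hD : 0 < D) : ∫ t, wt t0 D t = Real.sqrt (2 * Real.pi) * D := by
  have h := integral_gaussian (1 / (2 * D ^ 2))
  have h2 : ∫ t, wt t0 D t = ∫ t : ℝ, Real.exp (-(1 / (2 * D ^ 2)) * (t - t0) ^ 2) :=
    integral_congr_ae (Filter.Eventually.of_forall fun t => wt_eq t0 D t)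
  have h3 := integral_sub_right_eq_self (μ := volume)
    (fun t : ℝ => Real.exp (-(1 / (2 * D ^ 2)) * t ^ 2)) t0
  rw [h2, h3, h]
  have e : Real.pi / (1 / (2 * D ^ 2)) = (2 * Real.pi) * D ^ 2 := by field_simp
  rw [e, Real.sqrt_mul (by positivity), Real.sqrt_sq hD.le]

theorem wt_int (t0 D V1 V2 : ℝ) (hD : 0 < D) (h : V1 ≤ V2) :
    ∫ t in V1..V2, wt t0 D t ≤ Real.sqrt (2 * Real.pi) * D := by
  rw [intervalIntegral.integral_of_le h, ← wt_total t0 D hD]
  exact setIntegral_le_integral (wt_integrable t0 D hD)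
    (Filter.Eventually.of_forall fun t => wt_nonneg t0 D t)

theorem sqrt_two_pi_le : Real.sqrt (2 * Real.pi) ≤ 3 := by
  rw [Real.sqrt_le_left (by norm_num)]
  have := Real.pi_lt_four
  linarith

theorem two_le_sqrt_two_pi : 2 ≤ Real.sqrt (2 * Real.pi) := by
  apply Real.le_sqrt_of_sq_le
  have := Real.pi_gt_three
  linarith

/-- tail of the Gaussian -/
theorem wt_tail (t0 D t M : ℝ) (hD : 0 < D) (hM : 0 ≤ M) (h : M * D ≤ |t - t0|) :
    wt t0 D t ≤ Real.exp (-M ^ 2 / 4) * wt t0 (2 * D) t := by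
  unfold wt
  rw [← Real.exp_add, Real.exp_le_exp]
  have h1 : (M * D) ^ 2 ≤ (t - t0) ^ 2 := by
    rw [← sq_abs (t - t0)]
    exact pow_le_pow_left₀ (by positivity) h 2
  rw [mul_pow] at h1
  have h2 : M ^ 2 ≤ (t - t0) ^ 2 / D ^ 2 := by
    rw [le_div_iff₀ (by positivity)]; exact h1
  have e1 : -(t - t0) ^ 2 / (2 * D ^ 2) = -((t - t0) ^ 2 / D ^ 2) / 2 := by field_simp
  have e2 : -(t - t0) ^ 2 / (2 * (2 * D) ^ 2) = -((t - t0) ^ 2 / D ^ 2) / 8 := by field_simp; ring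
  rw [e1, e2]
  linarith [sq_nonneg M]

theorem ZZ_finite (T : ℝ) (hT : 1 ≤ T) : (ZZ T).Finite :=
  H370.zset_finite H370.good_zeta T (2 * T) hT

theorem Mk_eq (T k t : ℝ) (hT : 1 ≤ T) : Mk T k t = ∑ s ∈ (ZZ_finite T hT).toFinset,
    (mu s : ℝ) * Real.exp (-(s.im - t) ^ 2 / 2) / (1 + (Real.log T * (s.im - t) / k) ^ 2) :=
  finsum_mem_eq_finite_toFinset_sum _ (ZZ_finite T hT)

theorem Mk_cont (T k : ℝ) (hT : 1 ≤ T) : Continuous (fun t => Mk T k t) := by
  have h : (fun t => Mk T k t) = fun t => ∑ s ∈ (ZZ_finite T hT).toFinset,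
    (mu s : ℝ) * Real.exp (-(s.im - t) ^ 2 / 2) / (1 + (Real.log T * (s.im - t) / k) ^ 2) := by
    funext t
    exact Mk_eq T k t hT
  rw [h]
  apply continuous_finsetSum
  intro s _
  apply Continuous.div
  · fun_prop
  · fun_prop
  · intro t
    positivity

theorem Mk_nonneg (T k t : ℝ) (hT : 1 ≤ T) : 0 ≤ Mk T k t := by
  rw [Mk_eq T k t hT]
  apply Finset.sum_nonneg
  intro s _
  positivity

theorem mk_cont (x : ℝ) : Continuous (fun t : ℝ => (⟨x, t⟩ : ℂ)) := by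
  have : (fun t : ℝ => (⟨x, t⟩ : ℂ)) = fun t : ℝ => (x : ℂ) + t * I := by
    funext t
    exact Complex.mk_eq_add_mul_I x t
  rw [this]
  fun_prop

theorem DP_cont (N : ℕ) (d : ℕ → ℂ) : Continuous (fun t : ℝ => DP N d (⟨1 / 2, t⟩ : ℂ)) := by
  unfold DP
  apply continuous_finsetSum
  intro n hn
  have hn0 : (n : ℂ) ≠ 0 := by
    have := (Finset.mem_Icc.mp hn).1
    exact_mod_cast (by omega : n ≠ 0)
  apply Continuous.mul continuous_const
  apply Continuous.const_cpow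
  · exact (mk_cont (1 / 2)).neg
  · exact Or.inl hn0

/-- failure of simplicity or separation near `t` gives a small gap near `t` -/
theorem small_near {T R c1 t : ℝ} (hT : 1 ≤ T) (hL : 0 < Real.log T) (hc1 : 0 < c1)
    (h : ¬ ((∀ s ∈ ZZ T, |s.im - t| ≤ R / Real.log T → mu s = 1) ∧
      (∀ s ∈ ZZ T, ∀ s' ∈ ZZ T, |s.im - t| ≤ R / Real.log T → |s'.im - t| ≤ R / Real.log T →
      s ≠ s' → 2 * Real.pi * c1 / Real.log T ≤ |s.im - s'.im|))) :
    ∃ n : ℕ, 1 ≤ n ∧ |ord n - t| ≤ R / Real.log T ∧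
      ord (n + 1) - ord n < 2 * Real.pi * c1 / Real.log T := by
  have hgap : 0 < 2 * Real.pi * c1 / Real.log T := by
    have := Real.pi_pos
    positivity
  have key : ∀ t1 : ℝ, |t1 - t| ≤ R / Real.log T →
      (∃ n : ℕ, 1 ≤ n ∧ t1 ≤ ord n ∧ ord (n + 1) ≤ t1) →
      ∃ n : ℕ, 1 ≤ n ∧ |ord n - t| ≤ R / Real.log T ∧
      ord (n + 1) - ord n < 2 * Real.pi * c1 / Real.log T := by
    rintro t1 h1 ⟨n, hn, h2, h3⟩
    have h4 := SG.ord_mono hn (by omega : n ≤ n + 1)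
    have h5 : ord n = t1 := by linarith
    refine ⟨n, hn, by rw [h5]; exact h1, ?_⟩
    have : ord (n + 1) - ord n ≤ 0 := by linarith
    linarith
  have key2 : ∀ s ∈ ZZ T, ∀ s' ∈ ZZ T, |s.im - t| ≤ R / Real.log T →
      |s'.im - t| ≤ R / Real.log T → s.im < s'.im → s'.im - s.im < 2 * Real.pi * c1 / Real.log T →
      ∃ n : ℕ, 1 ≤ n ∧ |ord n - t| ≤ R / Real.log T ∧
      ord (n + 1) - ord n < 2 * Real.pi * c1 / Real.log T := by
    rintro s ⟨a1, a2, a3, a4, a5⟩ s' ⟨b1, b2, b3, b4, b5⟩ h1 h2 hlt h3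
    obtain ⟨n, hn, h4, h5⟩ := SG.consecutive_of_lt a5 a1 a2 (by linarith) b5 b1 b2 hlt
    have h6 := SG.ord_mono hn (by omega : n ≤ n + 1)
    refine ⟨n, hn, ?_, by linarith⟩
    rw [abs_le] at h1 h2 ⊢
    constructor <;> linarith
  rw [not_and_or] at h
  rcases h with h | h
  · push Not at h
    obtain ⟨s, ⟨a1, a2, a3, a4, a5⟩, h1, h2⟩ := h
    have hpos : 0 < s.im := by linarith
    have hm : 1 ≤ zmult s := SG.zmult_pos hpos a5
    have hm2 : zmult s ≠ 1 := h2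
    refine key s.im h1 (SG.consecutive_of_jump hpos ?_)
    intro u hu
    have := SG.jump_one a5 a1 a2 hpos u hu
    omega
  · push Not at h
    obtain ⟨s, hs, s', hs', h1, h2, hne, h3⟩ := h
    have hs0 := hs
    have hs0' := hs'
    obtain ⟨a1, a2, a3, a4, a5⟩ := hs
    obtain ⟨b1, b2, b3, b4, b5⟩ := hs'
    have hpos : 0 < s.im := by linarith
    rw [abs_lt] at h3
    rcases lt_trichotomy s.im s'.im with hlt | heq | hgt
    · exact key2 s hs0 s' hs0' h1 h2 hlt (by linarith)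
    · refine key s.im h1 (SG.consecutive_of_jump hpos ?_)
      intro u hu
      exact SG.jump_two a5 a1 a2 hpos b5 b1 b2 heq.symm hne u hu
    · exact key2 s' hs0' s hs0 h2 h1 hgt (by linarith)

/-- finiteness of the index set -/
theorem idx_finite (A B : ℝ) : {n : ℕ | 1 ≤ n ∧ |ord n - A| ≤ B}.Finite := by
  refine (Set.finite_Iic (NZ (A + B))).subset ?_
  rintro n ⟨hn, h⟩
  rw [abs_le] at h
  exact (SG.ord_le_iff hn _).mp (by linarith)

/-- integral of the indicator of an interval -/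
theorem ind_int (a b V1 V2 : ℝ) (hab : a ≤ b) (hV : V1 ≤ V2) :
    IntervalIntegrable ((Set.Icc a b).indicator (fun _ => (1 : ℝ))) volume V1 V2 ∧
    ∫ t in V1..V2, (Set.Icc a b).indicator (fun _ => (1 : ℝ)) t ≤ b - a := by
  have hi : Integrable ((Set.Icc a b).indicator (fun _ => (1 : ℝ))) := by
    rw [integrable_indicator_iff measurableSet_Icc]
    exact integrableOn_const (by simp) (by simp)
  refine ⟨hi.intervalIntegrable, ?_⟩
  rw [intervalIntegral.integral_of_le hV]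
  refine (setIntegral_le_integral hi (Filter.Eventually.of_forall fun t => ?_)).trans ?_
  · exact Set.indicator_nonneg (fun _ _ => zero_le_one) t
  · rw [integral_indicator measurableSet_Icc]
    simp [hab]

/-- the pointwise inequality -/
theorem pointwise {D2 F2 e C4L B imf : ℝ} (he : 0 < e) (hC : 0 ≤ C4L) (hB : 0 ≤ B) (_hD : 0 ≤ D2)
    (_hF : 0 ≤ F2) (him : imf ≤ F2) (h : imf ≤ C4L * F2 ∨ 1 ≤ B) :
    D2 ^ 2 * imf ≤ C4L * (1 + (D2 ^ 8 + F2 ^ 4)) + e * (D2 ^ 8 + F2 ^ 4) + 1 / (4 * e) * B := by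
  have h1 : (D2 ^ 2 * F2) ^ 2 ≤ D2 ^ 8 + F2 ^ 4 := by
    nlinarith [sq_nonneg (D2 ^ 4 - F2 ^ 2), sq_nonneg (D2 ^ 4), sq_nonneg (F2 ^ 2)]
  have h2 : D2 ^ 2 * F2 ≤ 1 + (D2 ^ 8 + F2 ^ 4) := by
    nlinarith [sq_nonneg (D2 ^ 2 * F2 - 1)]
  have h3 : 0 ≤ D2 ^ 8 + F2 ^ 4 := by positivity
  have h4 : 0 ≤ 1 / (4 * e) * B := by positivity
  have h5 : 0 ≤ e * (D2 ^ 8 + F2 ^ 4) := by positivity
  rcases h with h | h
  · have h6 : D2 ^ 2 * imf ≤ D2 ^ 2 * (C4L * F2) := mul_le_mul_of_nonneg_left h (by positivity)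
    have h7 : C4L * (D2 ^ 2 * F2) ≤ C4L * (1 + (D2 ^ 8 + F2 ^ 4)) :=
      mul_le_mul_of_nonneg_left h2 hC
    nlinarith
  · have h6 : D2 ^ 2 * imf ≤ D2 ^ 2 * F2 := mul_le_mul_of_nonneg_left him (by positivity)
    have h7 : 0 ≤ C4L * (1 + (D2 ^ 8 + F2 ^ 4)) := by positivity
    have h8 : D2 ^ 2 * F2 ≤ e * (D2 ^ 2 * F2) ^ 2 + 1 / (4 * e) := by
      have : 0 ≤ e * (D2 ^ 2 * F2 - 1 / (2 * e)) ^ 2 := by positivity
      have e1 : e * (D2 ^ 2 * F2 - 1 / (2 * e)) ^ 2 =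
        e * (D2 ^ 2 * F2) ^ 2 - D2 ^ 2 * F2 + 1 / (4 * e) := by
        field_simp
        ring
      linarith
    have h9 : e * (D2 ^ 2 * F2) ^ 2 ≤ e * (D2 ^ 8 + F2 ^ 4) := mul_le_mul_of_nonneg_left h1 he.le
    have h10 : 1 / (4 * e) ≤ 1 / (4 * e) * B := le_mul_of_one_le_right (by positivity) h
    linarith

omit [Nu] in
theorem e5_aux (e x k L : ℝ) (he : e ≠ 0) (hL : L ≠ 0) :
    1 / (4 * e) * (x * (2 * (k / L))) = x * k / (2 * e * L) := by
  field_simp
  ring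

theorem exists_M (x : ℝ) (hx : 0 < x) : ∃ M : ℝ, 0 ≤ M ∧ Real.exp (-M ^ 2 / 4) ≤ x := by
  refine ⟨4 * max 1 (Real.log (1 / x)), by positivity, ?_⟩
  have h1 : 1 ≤ max 1 (Real.log (1 / x)) := le_max_left _ _
  have h2 : Real.log (1 / x) ≤ max 1 (Real.log (1 / x)) := le_max_right _ _
  set m := max 1 (Real.log (1 / x))
  have h3 : -(4 * m) ^ 2 / 4 ≤ -Real.log (1 / x) := by nlinarith
  calc Real.exp (-(4 * m) ^ 2 / 4) ≤ Real.exp (-Real.log (1 / x)) := Real.exp_le_exp.mpr h3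
    _ = x := by
      rw [one_div, Real.log_inv, neg_neg, Real.exp_log hx]

end ManyAux

open ManyAux in
/-- **many small gaps near every `t0`** -/
theorem local_many (hRH : RHs) (c1 κ : ℝ) (hκν : Nu.ν < κ) (hκ1 : κ < 1) (hc1 : c1 < 1)
    (hcκ : 1 < c1 * (2 - κ)) :
    ∃ ε K T0 : ℝ, 0 < ε ∧ 1 ≤ K ∧ 10 ≤ T0 ∧ ∀ T : ℝ, T0 ≤ T → ∀ t0 : ℝ,
    11 / 10 * T ≤ t0 → t0 ≤ 19 / 10 * T →
    ε * dd κ T * Real.log T ≤
      ({n : ℕ | 1 ≤ n ∧ |ord n - t0| ≤ K * dd κ T ∧
        ord (n + 1) - ord n < 2 * Real.pi * c1 / Real.log T}.ncard : ℝ) := by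
  classical
  have hκ0 : 0 < κ := Nu.pos.trans hκν
  have hg0 : 0 < 2 - κ := by linarith
  have hc1a : 1 / (2 - κ) < c1 := by rw [div_lt_iff₀ hg0]; linarith
  have hc1b : 1 / 2 ≤ 1 / (2 - κ) := by
    apply one_div_le_one_div_of_le hg0; linarith
  obtain ⟨P, hPc, hPκ, c3, CS, TS, hc3, hCS, hTS, hS⟩ :=
    S_pos ((1 / (2 - κ) + c1) / 2) (1 - κ) (by linarith) (by linarith) (by linarith) (by linarith)
      (by
        have h1 : 1 / (2 - κ) * (2 - κ) = 1 := by field_simp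
        have h2 : (1 / (2 - κ) + c1) / 2 * (1 + (1 - κ)) =
          (1 / (2 - κ) * (2 - κ) + c1 * (2 - κ)) / 2 := by ring
        rw [h2, h1]
        linarith)
  have hPκ' : P.κ = κ := by rw [hPκ]; ring
  have hPν : Nu.ν < P.κ := by rw [hPκ']; exact hκν
  rw [← hPκ']
  have hPc1 : P.c < c1 := by rw [hPc]; linarith
  have hPc0 : 0 < P.c := by linarith [P.hc]
  obtain ⟨CE, TE, hCE, hTE, hE⟩ := eval_gen hRH P.c P.a P.κ hPc0 P.hc1 P.ha P.ha1
    hPν P.hκ1
  obtain ⟨CD, TD, hCD, hTD, hD⟩ := Dp_mom hRH P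
  obtain ⟨CF, TF, hCF, hTF, hF⟩ := ff_mom hRH P.c P.a P.κ hPc0 P.hc1 P.ha P.hκ P.hκ1
  obtain ⟨CH, TH, hCH, hTH, hH⟩ := ff_hor hRH P.c P.a hPc0 P.hc1 P.ha
  obtain ⟨Tb, hTb, hb⟩ := dco_bound P
  obtain ⟨CM, hCM, hM⟩ := Mk_mean hRH P.κ P.hκ P.hκ1
  obtain ⟨η, C4, R0, hη, hC4, hR0, hI⟩ := ff_im hRH P.c c1 P.a hPc0 hPc1 (by linarith)
    P.ha
  set C5 := CD + CF with hC5
  have hC50 : 0 < C5 := by positivity
  set ϵ := c3 / (8 * C5) with hϵ
  have hϵ0 : 0 < ϵ := by positivity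
  have hϵ1 : ϵ * C5 = c3 / 8 := by rw [hϵ]; field_simp
  obtain ⟨k, hk⟩ := exists_nat_ge (max R0 (8 * CM / (ϵ * η * c3)))
  have hkR : R0 ≤ k := (le_max_left _ _).trans hk
  have hkC : 8 * CM / (ϵ * η * c3) ≤ k := (le_max_right _ _).trans hk
  have hk1' : (1 : ℝ) ≤ k := hR0.trans hkR
  have hk1 : 1 ≤ k := by exact_mod_cast hk1'
  have hk0 : (0 : ℝ) < k := by linarith
  obtain ⟨TM, hTM, hMk⟩ := hM k hk1
  obtain ⟨TI, hTI, hIm⟩ := hI k hkR
  obtain ⟨M, hM0, hMe⟩ := exists_M (c3 * ϵ / 12) (by positivity)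
  -- largeness of `T`
  set B : ℝ := max (max 2 (8 * C4 * (3 + C5) / c3)) (max (k : ℝ) (CE * (1 + CS) / c3)) with hB
  obtain ⟨T1, hT1⟩ := (Real.tendsto_log_atTop.eventually_ge_atTop B).exists_forall_of_atTop
  obtain ⟨T2, hT2⟩ := (Real.isLittleO_log_id_atTop.bound
    (by norm_num : (0 : ℝ) < 1 / 4)).exists_forall_of_atTop
  refine ⟨c3 * ϵ / k, M + 1,
    max (max (max TS TE) (max TD TF)) (max (max TH Tb) (max (max TM TI) (max T1 T2))),
    by positivity, by linarith, ?_, ?_⟩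
  · exact hTS.trans ((le_max_left _ _).trans ((le_max_left _ _).trans (le_max_left _ _)))
  intro T hT t0 ht0 ht1
  simp only [max_le_iff] at hT
  obtain ⟨⟨⟨eS, eE⟩, eD, eF⟩, ⟨eH, eb⟩, ⟨eM, eI⟩, e1, e2⟩ := hT
  have hT10 : 10 ≤ T := hTS.trans eS
  have hTone : 1 ≤ T := by linarith
  have hTpos : 0 < T := by linarith
  have hLB := hT1 T e1
  rw [hB] at hLB
  simp only [max_le_iff] at hLB
  obtain ⟨⟨hL2, hLC4⟩, hLk, hLE⟩ := hLB
  set L := Real.log T with hL
  have hL0 : 0 < L := by linarith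
  have hLT : 4 * L ≤ T := by
    have := hT2 T e2
    simp only [id, Real.norm_eq_abs] at this
    rw [abs_of_pos hTpos] at this
    have h := le_abs_self (Real.log T)
    rw [← hL] at h this
    linarith
  set Δ := dd P.κ T with hΔ
  have hΔ1 : 1 ≤ Δ := by
    rw [hΔ]; unfold dd
    exact Real.one_le_rpow hTone (by linarith [P.hκ1, Nu.pos])
  have hΔ0 : 0 < Δ := by linarith
  set V1 := T + 2 * L with hV1
  set V2 := 2 * T - 2 * L with hV2
  have hV : V1 ≤ V2 := by rw [hV1, hV2]; linarith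
  set w : ℝ → ℝ := wt t0 Δ with hw
  have hw0 : ∀ t, 0 ≤ w t := fun t => wt_nonneg _ _ _
  have hw1 : ∀ t, w t ≤ 1 := fun t => wt_le_one _ _ _
  have hwc : Continuous w := wt_cont _ _
  set Dn : ℝ → ℝ := fun t => ‖DP (nn P.κ T) (dco P T) (⟨1 / 2, t⟩ : ℂ)‖ with hDn
  have hDc : Continuous Dn := (DP_cont _ _).norm
  set f : ℝ → ℂ := fun t => ff P.c T (⟨1 / 2 + P.a / L, t⟩ : ℂ) with hf
  have hfc : ContinuousOn f (Set.Icc V1 V2) := by
    intro t ht
    have h1 := (hH T eH (⟨1 / 2 + P.a / L, t⟩ : ℂ) (by simp [hL])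
      (by
        have : P.a / L ≤ 1 := by
          rw [div_le_one hL0]; linarith [P.ha1]
        simp only
        linarith)
      (by simp only; rw [hV1] at ht; linarith [ht.1])
      (by simp only; rw [hV2] at ht; linarith [ht.2])).1
    have h2 : ContinuousAt f t :=
      ContinuousAt.comp (f := fun t : ℝ => (⟨1 / 2 + P.a / L, t⟩ : ℂ)) (g := ff P.c T)
        h1.continuousAt (mk_cont _).continuousAt
    exact h2.continuousWithinAt
  have hfn : ContinuousOn (fun t => ‖f t‖) (Set.Icc V1 V2) := hfc.norm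
  have hfi : ContinuousOn (fun t => (f t).im) (Set.Icc V1 V2) :=
    Complex.continuous_im.comp_continuousOn hfc
  have huIcc : Set.uIcc V1 V2 = Set.Icc V1 V2 := Set.uIcc_of_le hV
  have hMkc : Continuous (fun t => Mk T k t) := Mk_cont T k hTone
  -- lower bound
  have hlow : c3 * Δ ≤ ∫ t in V1..V2, w t * Dn t ^ 2 * (f t).im := by
    have h1 := hE T eE t0 ht0 ht1 (dco P T) (hb T eb)
    rw [SD_eq P T hT10] at h1
    obtain ⟨h2, h3⟩ := hS T eS
    rw [← hPc] at h2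
    set X : ℂ := ∫ t in V1..V2, ((w t * Dn t ^ 2 : ℝ) : ℂ) * f t with hX
    have h4 : ‖X - (Real.sqrt (2 * Real.pi) * Δ : ℝ) * cexp (-(Real.pi * P.c : ℝ) * I) * SS P T‖ ≤
        CE * Δ / L * (1 + ‖SS P T‖) := h1
    have hXim : X.im = ∫ t in V1..V2, w t * Dn t ^ 2 * (f t).im := by
      have hint : IntervalIntegrable (fun t => ((w t * Dn t ^ 2 : ℝ) : ℂ) * f t) volume V1 V2 := by
        apply ContinuousOn.intervalIntegrable
        rw [huIcc]
        apply ContinuousOn.mul _ hfc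
        exact (Complex.continuous_ofReal.comp (hwc.mul (hDc.pow 2))).continuousOn
      have := Complex.imCLM.intervalIntegral_comp_comm hint
      simp only [Complex.imCLM_apply, Complex.im_ofReal_mul] at this
      rw [hX, ← this]
    set Y : ℂ := (Real.sqrt (2 * Real.pi) * Δ : ℝ) * cexp (-(Real.pi * P.c : ℝ) * I) * SS P T
      with hY
    have hYim : Real.sqrt (2 * Real.pi) * Δ * c3 ≤ Y.im := by
      have hY2 : Y = ((Real.sqrt (2 * Real.pi) * Δ : ℝ) : ℂ) *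
          (cexp (-(Real.pi * P.c : ℝ) * I) * SS P T) := by rw [hY]; ring
      rw [hY2, Complex.im_ofReal_mul]
      exact mul_le_mul_of_nonneg_left h2 (by positivity)
    have h5 : |(X - Y).im| ≤ ‖X - Y‖ := Complex.abs_im_le_norm _
    rw [Complex.sub_im] at h5
    have h6 := (abs_le.mp (h5.trans h4)).1
    have h7 : CE * Δ / L * (1 + ‖SS P T‖) ≤ c3 * Δ := by
      have e3 : CE * (1 + CS) ≤ c3 * L := by
        rw [div_le_iff₀ hc3] at hLE
        linarith
      calc CE * Δ / L * (1 + ‖SS P T‖) ≤ CE * Δ / L * (1 + CS) := by gcongr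
        _ = CE * (1 + CS) * Δ / L := by ring
        _ ≤ c3 * L * Δ / L := by gcongr
        _ = c3 * Δ := by field_simp
    have h8 : 2 * (Δ * c3) ≤ Real.sqrt (2 * Real.pi) * (Δ * c3) :=
      mul_le_mul_of_nonneg_right two_le_sqrt_two_pi (by positivity)
    rw [← hXim]
    linarith
  -- the index set
  have hfin : {n : ℕ | 1 ≤ n ∧ |ord n - t0| ≤ (M + 1) * Δ ∧
      ord (n + 1) - ord n < 2 * Real.pi * c1 / L}.Finite :=
    (idx_finite t0 ((M + 1) * Δ)).subset (fun n hn => ⟨hn.1, hn.2.1⟩)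
  set N := hfin.toFinset with hN
  have hcard : {n : ℕ | 1 ≤ n ∧ |ord n - t0| ≤ (M + 1) * Δ ∧
      ord (n + 1) - ord n < 2 * Real.pi * c1 / L}.ncard = N.card :=
    Set.ncard_eq_toFinset_card _ hfin
  rw [hcard]
  set S : ℝ → ℝ := fun t => ∑ n ∈ N,
    (Set.Icc (ord n - k / L) (ord n + k / L)).indicator (fun _ => (1 : ℝ)) t with hSdef
  have hkL0 : 0 < (k : ℝ) / L := by positivity
  have hkL1 : (k : ℝ) / L ≤ Δ := by
    rw [div_le_iff₀ hL0]
    nlinarith
  have hS0 : ∀ t, 0 ≤ S t := fun t =>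
    Finset.sum_nonneg (fun n _ => Set.indicator_nonneg (fun _ _ => zero_le_one) t)
  have hSi : ∀ n, IntervalIntegrable (fun t => (Set.Icc (ord n - k / L)
      (ord n + k / L)).indicator (fun _ => (1 : ℝ)) t) volume V1 V2 := fun n =>
    (ind_int (ord n - k / L) (ord n + k / L) V1 V2 (by linarith) hV).1
  have iS : IntervalIntegrable S volume V1 V2 := by
    have h1 := IntervalIntegrable.sum N (fun n _ => hSi n)
    have h2 : (∑ n ∈ N, (fun t => (Set.Icc (ord n - k / L)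
      (ord n + k / L)).indicator (fun _ => (1 : ℝ)) t)) = S := by
      funext t
      rw [Finset.sum_apply]
    rw [← h2]
    exact h1
  have I4 : ∫ t in V1..V2, S t ≤ N.card * (2 * (k / L)) := by
    rw [hSdef, intervalIntegral.integral_finsetSum (fun n _ => hSi n)]
    calc _ ≤ ∑ n ∈ N, (2 * ((k : ℝ) / L)) := by
          apply Finset.sum_le_sum
          intro n _
          refine ((ind_int (ord n - k / L) (ord n + k / L) V1 V2 (by linarith) hV).2).trans ?_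
          linarith
      _ = N.card * (2 * (k / L)) := by rw [Finset.sum_const, nsmul_eq_mul]
  -- pointwise bound
  have hpt : ∀ t ∈ Set.Icc V1 V2, w t * Dn t ^ 2 * (f t).im ≤
      C4 / L * w t + (C4 / L + ϵ) * (w t * Dn t ^ 8) + (C4 / L + ϵ) * (w t * ‖f t‖ ^ 4) +
      1 / (4 * ϵ) * S t + 1 / (4 * ϵ) * Real.exp (-M ^ 2 / 4) * wt t0 (2 * Δ) t +
      1 / (4 * ϵ) * (4 / (k ^ 2 * η)) * (w t * Mk T k t) := by
    intro t ht
    have htV1 : T + 2 * L ≤ t := ht.1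
    have htV2 : t ≤ 2 * T - 2 * L := ht.2
    have hMk0 : 0 ≤ Mk T k t := Mk_nonneg T k t hTone
    have him : (f t).im ≤ ‖f t‖ := (le_abs_self _).trans (Complex.abs_im_le_norm _)
    set hyp := ((∀ s ∈ ZZ T, |s.im - t| ≤ k / Real.log T → mu s = 1) ∧
      (∀ s ∈ ZZ T, ∀ s' ∈ ZZ T, |s.im - t| ≤ k / Real.log T → |s'.im - t| ≤ k / Real.log T →
      s ≠ s' → 2 * Real.pi * c1 / Real.log T ≤ |s.im - s'.im|)) with hhyp
    set b1 : ℝ := if hyp then 0 else 1 with hb1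
    have hb10 : 0 ≤ b1 := by rw [hb1]; split_ifs <;> norm_num
    -- the dichotomy
    have hdich : (f t).im ≤ C4 / L * ‖f t‖ ∨ 1 ≤ b1 + 4 / (k ^ 2 * η) * Mk T k t := by
      by_cases hh : hyp
      · have hh' := hh
        rw [hhyp] at hh'
        by_cases hfar : (∑ᶠ s ∈ {s : ℂ | s ∈ ZZ T ∧ k / Real.log T < |s.im - t| ∧ |s.im - t| ≤ 1},
            (mu s : ℝ) / (Real.log T * (s.im - t)) ^ 2) ≤ η
        · left
          exact hIm T eI t (by linarith) (by linarith) hh'.1 hh'.2 hfar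
        · right
          push Not at hfar
          have h1 := far_bound T k t hT10 hk1'
          have h2 : η ≤ 4 / k ^ 2 * Mk T k t := hfar.le.trans h1
          have h3 : 4 / (k ^ 2 * η) * Mk T k t = (4 / k ^ 2 * Mk T k t) / η := by
            field_simp
          have h4 : 1 ≤ 4 / (k ^ 2 * η) * Mk T k t := by
            rw [h3, le_div_iff₀ hη]; linarith
          linarith
      · right
        have : b1 = 1 := by rw [hb1, if_neg hh]
        have h5 : 0 ≤ 4 / (k ^ 2 * η) * Mk T k t := by positivity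
        linarith
    have h1 := pointwise (D2 := Dn t) (F2 := ‖f t‖) hϵ0 (by positivity : 0 ≤ C4 / L)
      (by positivity : 0 ≤ b1 + 4 / (k ^ 2 * η) * Mk T k t) (norm_nonneg _) (norm_nonneg _)
      him hdich
    have h2 := mul_le_mul_of_nonneg_left h1 (hw0 t)
    -- the indicator part
    have h3 : w t * b1 ≤ S t + Real.exp (-M ^ 2 / 4) * wt t0 (2 * Δ) t := by
      have hE0 : 0 ≤ Real.exp (-M ^ 2 / 4) * wt t0 (2 * Δ) t :=
        mul_nonneg (Real.exp_pos _).le (wt_nonneg _ _ _)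
      by_cases hh : hyp
      · have : b1 = 0 := by rw [hb1, if_pos hh]
        rw [this, mul_zero]
        linarith [hS0 t]
      · have hb : b1 = 1 := by rw [hb1, if_neg hh]
        rw [hb, mul_one]
        obtain ⟨n, hn, h5, h6⟩ := small_near hTone hL0 (by linarith) hh
        by_cases hn0 : |ord n - t0| ≤ (M + 1) * Δ
        · have hnN : n ∈ N := by
            rw [hN, Set.Finite.mem_toFinset]
            exact ⟨hn, hn0, h6⟩
          have h7 : (1 : ℝ) ≤ S t := by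
            have h8 : (Set.Icc (ord n - k / L) (ord n + k / L)).indicator
                (fun _ => (1 : ℝ)) t = 1 := by
              apply Set.indicator_of_mem
              rw [abs_le] at h5
              constructor <;> linarith
            rw [← h8]
            exact Finset.single_le_sum (f := fun n =>
              (Set.Icc (ord n - k / L) (ord n + k / L)).indicator (fun _ => (1 : ℝ)) t)
              (fun n _ => Set.indicator_nonneg (fun _ _ => zero_le_one) t) hnN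
          linarith [hw1 t]
        · push Not at hn0
          have h7 : M * Δ ≤ |t - t0| := by
            have h8 : |ord n - t0| ≤ |ord n - t| + |t - t0| := by
              have := abs_add_le (ord n - t) (t - t0)
              simpa using this
            have h9 : |ord n - t| ≤ Δ := h5.trans hkL1
            nlinarith
          have := wt_tail t0 Δ t M hΔ0 hM0 h7
          linarith [hS0 t]
    have h4 : 1 / (4 * ϵ) * (w t * b1) ≤
        1 / (4 * ϵ) * (S t + Real.exp (-M ^ 2 / 4) * wt t0 (2 * Δ) t) :=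
      mul_le_mul_of_nonneg_left h3 (by positivity)
    have e3 : w t * Dn t ^ 2 * (f t).im = w t * (Dn t ^ 2 * (f t).im) := by ring
    rw [e3]
    refine h2.trans ?_
    have e4 : w t * (C4 / L * (1 + (Dn t ^ 8 + ‖f t‖ ^ 4)) + ϵ * (Dn t ^ 8 + ‖f t‖ ^ 4) +
        1 / (4 * ϵ) * (b1 + 4 / (k ^ 2 * η) * Mk T k t)) =
        C4 / L * w t + (C4 / L + ϵ) * (w t * Dn t ^ 8) + (C4 / L + ϵ) * (w t * ‖f t‖ ^ 4) +
        1 / (4 * ϵ) * (w t * b1) + 1 / (4 * ϵ) * (4 / (k ^ 2 * η)) * (w t * Mk T k t) := by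
      ring
    rw [e4]
    linarith
  -- integrability
  have i1 : IntervalIntegrable w volume V1 V2 := hwc.intervalIntegrable _ _
  have i2 : IntervalIntegrable (fun t => w t * Dn t ^ 8) volume V1 V2 :=
    (hwc.mul (hDc.pow 8)).intervalIntegrable _ _
  have i3 : IntervalIntegrable (fun t => w t * ‖f t‖ ^ 4) volume V1 V2 := by
    apply ContinuousOn.intervalIntegrable
    rw [huIcc]
    exact hwc.continuousOn.mul (hfn.pow 4)
  have i5 : IntervalIntegrable (fun t => wt t0 (2 * Δ) t) volume V1 V2 :=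
    (wt_cont _ _).intervalIntegrable _ _
  have i6 : IntervalIntegrable (fun t => w t * Mk T k t) volume V1 V2 :=
    (hwc.mul hMkc).intervalIntegrable _ _
  have i0 : IntervalIntegrable (fun t => w t * Dn t ^ 2 * (f t).im) volume V1 V2 := by
    apply ContinuousOn.intervalIntegrable
    rw [huIcc]
    exact (hwc.mul (hDc.pow 2)).continuousOn.mul hfi
  -- the integrals
  have I1 : ∫ t in V1..V2, w t ≤ 3 * Δ :=
    (wt_int t0 Δ V1 V2 hΔ0 hV).trans (mul_le_mul_of_nonneg_right sqrt_two_pi_le hΔ0.le)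
  have I2 : ∫ t in V1..V2, w t * Dn t ^ 8 ≤ CD * Δ := by
    have h1 := hD T eD t0
    have h2 : ∀ t : ℝ, Dp P T (⟨1 / 2, t⟩ : ℂ) = DP (nn P.κ T) (dco P T) (⟨1 / 2, t⟩ : ℂ) :=
      fun t => Dp_eq P T hT10 _
    simp only [h2] at h1
    exact h1
  have I3 : ∫ t in V1..V2, w t * ‖f t‖ ^ 4 ≤ CF * Δ := hF T eF t0
  have I5 : ∫ t in V1..V2, wt t0 (2 * Δ) t ≤ 6 * Δ := by
    have h1 := wt_int t0 (2 * Δ) V1 V2 (by positivity) hV
    have h2 : Real.sqrt (2 * Real.pi) * (2 * Δ) ≤ 3 * (2 * Δ) :=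
      mul_le_mul_of_nonneg_right sqrt_two_pi_le (by positivity)
    linarith
  have I6 : ∫ t in V1..V2, w t * Mk T k t ≤ CM * k * Δ :=
    hMk T eM t0 V1 V2 hV (by rw [hV1]; linarith) (by rw [hV2]; linarith)
  have hint := intervalIntegral.integral_mono_on hV i0
    ((((((i1.const_mul (C4 / L)).add (i2.const_mul (C4 / L + ϵ))).add
      (i3.const_mul (C4 / L + ϵ))).add (iS.const_mul (1 / (4 * ϵ)))).add
      (i5.const_mul (1 / (4 * ϵ) * Real.exp (-M ^ 2 / 4)))).add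
      (i6.const_mul (1 / (4 * ϵ) * (4 / (k ^ 2 * η))))) hpt
  rw [intervalIntegral.integral_add
    (((((i1.const_mul (C4 / L)).add (i2.const_mul (C4 / L + ϵ))).add
      (i3.const_mul (C4 / L + ϵ))).add (iS.const_mul (1 / (4 * ϵ)))).add
      (i5.const_mul (1 / (4 * ϵ) * Real.exp (-M ^ 2 / 4))))
      (i6.const_mul (1 / (4 * ϵ) * (4 / (k ^ 2 * η)))),
    intervalIntegral.integral_add
    ((((i1.const_mul (C4 / L)).add (i2.const_mul (C4 / L + ϵ))).add
      (i3.const_mul (C4 / L + ϵ))).add (iS.const_mul (1 / (4 * ϵ))))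
      (i5.const_mul (1 / (4 * ϵ) * Real.exp (-M ^ 2 / 4))),
    intervalIntegral.integral_add
    (((i1.const_mul (C4 / L)).add (i2.const_mul (C4 / L + ϵ))).add
      (i3.const_mul (C4 / L + ϵ))) (iS.const_mul (1 / (4 * ϵ))),
    intervalIntegral.integral_add
    ((i1.const_mul (C4 / L)).add (i2.const_mul (C4 / L + ϵ)))
      (i3.const_mul (C4 / L + ϵ)),
    intervalIntegral.integral_add (i1.const_mul (C4 / L)) (i2.const_mul (C4 / L + ϵ)),
    intervalIntegral.integral_const_mul, intervalIntegral.integral_const_mul,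
    intervalIntegral.integral_const_mul, intervalIntegral.integral_const_mul,
    intervalIntegral.integral_const_mul, intervalIntegral.integral_const_mul] at hint
  -- arithmetic
  have hCL0 : 0 < C4 / L := by positivity
  have J1 := mul_le_mul_of_nonneg_left I1 hCL0.le
  have J2 := mul_le_mul_of_nonneg_left I2 (by positivity : 0 ≤ C4 / L + ϵ)
  have J3 := mul_le_mul_of_nonneg_left I3 (by positivity : 0 ≤ C4 / L + ϵ)
  have J4 := mul_le_mul_of_nonneg_left I4 (by positivity : 0 ≤ 1 / (4 * ϵ))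
  have J5 := mul_le_mul_of_nonneg_left I5
    (by positivity : 0 ≤ 1 / (4 * ϵ) * Real.exp (-M ^ 2 / 4))
  have J6 := mul_le_mul_of_nonneg_left I6 (by positivity : 0 ≤ 1 / (4 * ϵ) * (4 / (k ^ 2 * η)))
  have K1 : C4 / L * (3 + C5) * Δ ≤ c3 / 8 * Δ := by
    apply mul_le_mul_of_nonneg_right _ hΔ0.le
    rw [div_le_iff₀ hc3] at hLC4
    rw [div_mul_eq_mul_div, div_le_iff₀ hL0]
    linarith
  have K5 : 1 / (4 * ϵ) * Real.exp (-M ^ 2 / 4) * (6 * Δ) ≤ c3 / 8 * Δ := by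
    calc 1 / (4 * ϵ) * Real.exp (-M ^ 2 / 4) * (6 * Δ) ≤
        1 / (4 * ϵ) * (c3 * ϵ / 12) * (6 * Δ) := by gcongr
      _ = c3 / 8 * Δ := by field_simp; ring
  have K6 : 1 / (4 * ϵ) * (4 / (k ^ 2 * η)) * (CM * k * Δ) ≤ c3 / 8 * Δ := by
    have h1 : 1 / (4 * ϵ) * (4 / (k ^ 2 * η)) * (CM * k * Δ) = CM / (ϵ * η * k) * Δ := by
      field_simp
    rw [h1]
    apply mul_le_mul_of_nonneg_right _ hΔ0.le
    rw [div_le_iff₀ (by positivity)] at hkC ⊢
    linarith
  have K : c3 / 2 * Δ ≤ 1 / (4 * ϵ) * (N.card * (2 * (k / L))) := by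
    have h1 : (C4 / L + ϵ) * (CD * Δ) + (C4 / L + ϵ) * (CF * Δ) + C4 / L * (3 * Δ) =
        C4 / L * (3 + C5) * Δ + (ϵ * C5) * Δ := by rw [hC5]; ring
    rw [hϵ1] at h1
    linarith
  have e5 : 1 / (4 * ϵ) * (N.card * (2 * (k / L))) = N.card * k / (2 * ϵ * L) :=
    e5_aux _ _ _ _ hϵ0.ne' hL0.ne'
  rw [e5, le_div_iff₀ (by positivity)] at K
  have e6 : c3 * ϵ / k * Δ * L = (c3 / 2 * Δ * (2 * ϵ * L)) / k := by
    ring
  rw [e6, div_le_iff₀ hk0]
  exact K

end Pool.Agent.KS6_1.SI
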