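import Pool.Agent.KS6_1.SI.Defs
import Pool.Agent.KS6_1.SI.Many
import Pool.Graph.R_seed8.H382P.PosProp
import Pool.Graph.R_seed8.W200.HW

open Complex Filter Topology Set MeasureTheory

namespace Pool.Agent.KS6_1.SI

open SP

open SG (ord NZ)

/-- the number of zeros in an interval -/
lemma NZ_short : ∃ C : ℝ, 0 < C ∧ ∀ a : ℝ, 3 ≤ a → ∀ b : ℝ, a ≤ b →
    (NZ b : ℝ) ≤ NZ a + C * (b - a + 1) * Real.log b := by
  obtain ⟨C, hC, hz⟩ := H370.zcount H370.good_zeta
  refine ⟨C, hC, ?_⟩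
  intro a ha
  have key : ∀ j : ℕ, ∀ b : ℝ, a ≤ b → b ≤ a + j →
      (NZ b : ℝ) ≤ NZ a + C * j * Real.log b := by
    intro j
    induction j with
    | zero =>
      intro b hab hb
      have : b = a := by push_cast at hb; linarith
      subst this
      simp
    | succ j ih =>
      intro b hab hb
      push_cast at hb
      have hlogb : 0 ≤ Real.log b := Real.log_nonneg (by linarith)
      have hc1 : a ≤ max a (b - 1) := le_max_left _ _
      have hc2 : max a (b - 1) ≤ a + j := by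
        apply max_le
        · have : (0 : ℝ) ≤ j := Nat.cast_nonneg j
          linarith
        · linarith
      have hc3 : max a (b - 1) ≤ b := max_le hab (by linarith)
      have h1 := ih (max a (b - 1)) hc1 hc2
      have h2 := SG.NZ_le_add (max a (b - 1)) b (by linarith)
      have h3 : H370.NN riemannZeta (max a (b - 1)) b ≤ H370.NN riemannZeta (b - 1) (b + 1) :=
        H370.NN_mono H370.good_zeta (by linarith) (le_max_right _ _) (by linarith)
      have h4 := hz b (by linarith)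
      have h5 : (NZ b : ℝ) ≤ NZ (max a (b - 1)) + H370.NN riemannZeta (b - 1) (b + 1) := by
        exact_mod_cast h2.trans (Nat.add_le_add_left h3 _)
      have h6 : Real.log (max a (b - 1)) ≤ Real.log b := Real.log_le_log (by linarith) hc3
      have h7 : C * j * Real.log (max a (b - 1)) ≤ C * j * Real.log b :=
        mul_le_mul_of_nonneg_left h6 (by positivity)
      push_cast
      have h8 : C * ((j : ℝ) + 1) * Real.log b = C * j * Real.log b + C * Real.log b := by ring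
      rw [h8]
      linarith
  intro b hab
  have h1 := key ⌈b - a⌉₊ b hab (by
    have := Nat.le_ceil (b - a)
    linarith)
  have h2 : (⌈b - a⌉₊ : ℝ) ≤ b - a + 1 := (Nat.ceil_lt_add_one (by linarith)).le
  have hlogb : 0 ≤ Real.log b := Real.log_nonneg (by linarith)
  have h3 : C * (⌈b - a⌉₊ : ℝ) * Real.log b ≤ C * (b - a + 1) * Real.log b :=
    mul_le_mul_of_nonneg_right (mul_le_mul_of_nonneg_left h2 hC.le) hlogb
  linarith

/-- many small gaps in every interval of length at least `T ^ α` -/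
theorem short_ord (hRH : RHs) (α c1 : ℝ) (hα1 : α ≤ 1) (hc1 : c1 < 1) (hc : 1 < c1 * (1 + α))
    (hα0 : 0 < α) :
    ∃ ε T0 : ℝ, 0 < ε ∧ 10 ≤ T0 ∧ ∀ T : ℝ, T0 ≤ T → ∀ A h : ℝ, 11 / 10 * T ≤ A →
    A + h ≤ 19 / 10 * T → T ^ α ≤ h →
    ε * (h * Real.log T) ≤
      ({n : ℕ | 1 ≤ n ∧ A ≤ ord n ∧ ord (n + 1) ≤ A + h ∧
        ord (n + 1) - ord n < 2 * Real.pi * c1 / Real.log T}.ncard : ℝ) := by
  -- parameters
  have hc0 : 0 < c1 := by
    by_contra hcon
    push Not at hcon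
    nlinarith
  set g : ℝ := 1 / c1 - 1 with hg
  have hg0 : 0 < g := by
    rw [hg, sub_pos, lt_div_iff₀ hc0]
    linarith
  have hgα : g < α := by
    rw [hg, sub_lt_iff_lt_add, div_lt_iff₀ hc0]
    linarith
  set η : ℝ := (g + α) / 2 with hη
  have hη1 : g < η := by rw [hη]; linarith
  have hη2 : η < α := by rw [hη]; linarith
  set κ : ℝ := 1 - η with hκ
  have hκ0 : 0 < κ := by rw [hκ]; linarith
  have hκ1 : κ < 1 := by rw [hκ]; linarith
  set ν : ℝ := min ((α - η) / 2) (κ / 2) with hν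
  have hν0 : 0 < ν := lt_min (by linarith) (by linarith)
  have hνκ : ν < κ := (min_le_right _ _).trans_lt (by linarith)
  have hνα : 1 - κ + ν < α := by
    have : ν ≤ (α - η) / 2 := min_le_left _ _
    rw [hκ]
    linarith
  have hcκ : 1 < c1 * (2 - κ) := by
    have h1 : 2 - κ = 1 + η := by rw [hκ]; ring
    rw [h1]
    have h2 : c1 * (1 + g) = 1 := by rw [hg]; field_simp; ring
    have h3 : c1 * (1 + g) < c1 * (1 + η) := mul_lt_mul_of_pos_left (by linarith) hc0
    linarith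
  let _ : Nu := ⟨ν, hν0⟩
  obtain ⟨ε, K, T0, hε, hK, hT0, hloc⟩ := local_many hRH c1 κ hνκ hκ1 hc1 hcκ
  have hdd : ∀ T : ℝ, dd κ T = T ^ (1 - κ + ν) := fun T => rfl
  have hlim1 : Tendsto (fun T : ℝ => T ^ (α - (1 - κ + ν))) atTop atTop :=
    tendsto_rpow_atTop (by linarith)
  have hlim2 : Tendsto (fun T : ℝ => T ^ (1 - κ + ν)) atTop atTop :=
    tendsto_rpow_atTop (by linarith)
  obtain ⟨T1, hT1⟩ := ((tendsto_atTop.mp hlim1 (100 * K)).and
    (tendsto_atTop.mp hlim2 16)).exists_forall_of_atTop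
  refine ⟨ε / (6 * K), max (max T0 T1) 1000, by positivity,
    le_trans (by norm_num) (le_max_right _ _), fun T hT A h hA1 hA2 hh => ?_⟩
  have hTT0 : T0 ≤ T := ((le_max_left _ _).trans (le_max_left _ _)).trans hT
  have hTT1 : T1 ≤ T := ((le_max_right _ _).trans (le_max_left _ _)).trans hT
  have hT1000 : 1000 ≤ T := (le_max_right _ _).trans hT
  have hTpos : 0 < T := by linarith
  obtain ⟨hl1, hl2⟩ := hT1 T hTT1
  have hlog1 : 1 ≤ Real.log T := by
    rw [Real.le_log_iff_exp_le hTpos]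
    have := Real.exp_one_lt_d9
    linarith
  have hpi := Real.pi_gt_three
  have hpi4 := Real.pi_lt_four
  set Δ : ℝ := dd κ T with hΔ
  have hΔ16 : 16 ≤ Δ := by rw [hΔ, hdd]; exact hl2
  have hΔ0 : 0 < Δ := by linarith
  -- K Δ ≤ h / 100
  have hKΔ : 100 * (K * Δ) ≤ h := by
    have h2 : T ^ (α - (1 - κ + ν)) * Δ = T ^ α := by
      rw [hΔ, hdd, ← Real.rpow_add hTpos]
      congr 1
      ring
    calc 100 * (K * Δ) = (100 * K) * Δ := by ring
      _ ≤ T ^ (α - (1 - κ + ν)) * Δ := mul_le_mul_of_nonneg_right hl1 hΔ0.le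
      _ = T ^ α := h2
      _ ≤ h := hh
  have hKΔ0 : 0 < K * Δ := by positivity
  have hKΔ16 : 16 ≤ K * Δ := by nlinarith
  have hh0 : 0 < h := by linarith
  set M : ℕ := ⌊h / (3 * (K * Δ))⌋₊ with hM
  have hM1 : (M : ℝ) ≤ h / (3 * (K * Δ)) := Nat.floor_le (by positivity)
  have hM2 : h / (3 * (K * Δ)) < M + 1 := Nat.lt_floor_add_one _
  have hM3 : h / (6 * (K * Δ)) ≤ M := by
    have h1 : h / (3 * (K * Δ)) = 1 / 3 * (h / (K * Δ)) := by field_simp
    have h2 : h / (6 * (K * Δ)) = 1 / 6 * (h / (K * Δ)) := by field_simp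
    have h3 : 100 ≤ h / (K * Δ) := by
      rw [le_div_iff₀ hKΔ0]
      exact hKΔ
    rw [h1] at hM2
    rw [h2]
    linarith
  have hM4 : 3 * (K * Δ) * M ≤ h := by
    rw [le_div_iff₀ (by positivity)] at hM1
    linarith
  set S : Set ℕ := {n : ℕ | 1 ≤ n ∧ A ≤ ord n ∧ ord (n + 1) ≤ A + h ∧
        ord (n + 1) - ord n < 2 * Real.pi * c1 / Real.log T} with hS
  have hSfin : S.Finite := by
    apply SP.PosProp.fin_ord (A + h)
    intro n hn
    refine ⟨hn.1, (SG.ord_mono hn.1 (Nat.le_succ n)).trans hn.2.2.1⟩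
  set t : ℕ → ℝ := fun i => A + 3 / 2 * (K * Δ) + 3 * (K * Δ) * i with ht
  set W : ℕ → Set ℕ := fun i => {n : ℕ | 1 ≤ n ∧ |ord n - t i| ≤ K * dd κ T ∧
        ord (n + 1) - ord n < 2 * Real.pi * c1 / Real.log T} with hW
  have hti : ∀ i < M, 3 * (K * Δ) * ((i : ℝ) + 1) ≤ h := by
    intro i hi
    have hiM : (i : ℝ) + 1 ≤ M := by exact_mod_cast hi
    exact (mul_le_mul_of_nonneg_left hiM (by positivity)).trans hM4
  have hgap : 2 * Real.pi * c1 / Real.log T ≤ 8 := by
    rw [div_le_iff₀ (by linarith)]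
    nlinarith
  have hsub : ∀ i < M, W i ⊆ S := by
    intro i hi n hn
    obtain ⟨h1, h2, h3⟩ := hn
    have h4 := hti i hi
    have h5 : 0 ≤ 3 * (K * Δ) * (i : ℝ) := by positivity
    rw [abs_le] at h2
    rw [← hΔ] at h2
    simp only [ht] at h2
    refine ⟨h1, by linarith, ?_, h3⟩
    have h6 : 3 * (K * Δ) * ((i : ℝ) + 1) = 3 * (K * Δ) * i + 3 * (K * Δ) := by ring
    rw [h6] at h4
    linarith
  have hdisj : ∀ i < M, ∀ j < M, i ≠ j → Disjoint (W i) (W j) := by
    intro i _ j _ hij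
    rw [Set.disjoint_left]
    intro n hn hn'
    have h1 := abs_le.mp hn.2.1
    have h2 := abs_le.mp hn'.2.1
    rw [← hΔ] at h1 h2
    simp only [ht] at h1 h2
    rcases Nat.lt_or_gt_of_ne hij with h | h
    · have h3 : (i : ℝ) + 1 ≤ j := by exact_mod_cast h
      have h4 : 3 * (K * Δ) * ((i : ℝ) + 1) ≤ 3 * (K * Δ) * j :=
        mul_le_mul_of_nonneg_left h3 (by positivity)
      nlinarith
    · have h3 : (j : ℝ) + 1 ≤ i := by exact_mod_cast h
      have h4 : 3 * (K * Δ) * ((j : ℝ) + 1) ≤ 3 * (K * Δ) * i :=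
        mul_le_mul_of_nonneg_left h3 (by positivity)
      nlinarith
  have hcount : ∀ i < M, ε * Δ * Real.log T ≤ ((W i).ncard : ℝ) := by
    intro i hi
    have h4 := hti i hi
    have h5 : 0 ≤ 3 * (K * Δ) * (i : ℝ) := by positivity
    have h6 : 3 * (K * Δ) * ((i : ℝ) + 1) = 3 * (K * Δ) * i + 3 * (K * Δ) := by ring
    rw [h6] at h4
    refine hloc T hTT0 (t i) ?_ ?_
    · simp only [ht]; linarith
    · simp only [ht]; linarith
  have hfinal := SP.PosProp.card_windows hSfin M W hsub hdisj _ hcount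
  refine le_trans ?_ hfinal
  have h5 : 0 ≤ ε * Δ * Real.log T := by positivity
  calc ε / (6 * K) * (h * Real.log T) = h / (6 * (K * Δ)) * (ε * Δ * Real.log T) := by
        field_simp
    _ ≤ M * (ε * Δ * Real.log T) := mul_le_mul_of_nonneg_right hM3 h5

end Pool.Agent.KS6_1.SI
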